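import Mathlib

/-!
The complete Boolean algebra of regular open subsets of a preorder.
-/

namespace Pool.Agent.Work.MP_6efb98_lc

/-- regular open subsets of a preorder: `p ∈ U` iff `U` is dense below `p` -/
structure RO (P : Type) [Preorder P] where
  carrier : Set P
  reg : ∀ p, p ∈ carrier ↔ ∀ q ≤ p, ∃ r ≤ q, r ∈ carrier

namespace RO

variable {P : Type} [Preorder P]

instance : Membership P (RO P) := ⟨fun U p => p ∈ U.carrier⟩

theorem mem_def {U : RO P} {p : P} : p ∈ U ↔ p ∈ U.carrier := Iff.rfl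

theorem mem_iff {U : RO P} {p : P} : p ∈ U ↔ ∀ q ≤ p, ∃ r ≤ q, r ∈ U := U.reg p

theorem down {U : RO P} {p q : P} (h : p ∈ U) (hq : q ≤ p) : q ∈ U :=
  mem_iff.2 fun r hr => mem_iff.1 h r (hr.trans hq)

@[ext] theorem ext {U V : RO P} (h : ∀ p, p ∈ U ↔ p ∈ V) : U = V := by
  cases U
  cases V
  congr
  exact Set.ext h

/-- regularisation of a downward closed set given by a predicate -/
def mk' (D : P → Prop) (_hD : ∀ p q, D p → q ≤ p → D q) : RO P where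
  carrier := {p | ∀ q ≤ p, ∃ r ≤ q, D r}
  reg := by
    intro p
    constructor
    · intro h q hq
      exact ⟨q, le_rfl, fun r hr => h r (hr.trans hq)⟩
    · intro h q hq
      obtain ⟨r, hr, h1⟩ := h q hq
      obtain ⟨s, hs, h2⟩ := h1 r le_rfl
      exact ⟨s, hs.trans hr, h2⟩

theorem mem_mk' {D : P → Prop} {hD} {p : P} : p ∈ mk' D hD ↔ ∀ q ≤ p, ∃ r ≤ q, D r := Iff.rfl

instance : LE (RO P) := ⟨fun U V => ∀ p ∈ U, p ∈ V⟩

theorem le_def {U V : RO P} : U ≤ V ↔ ∀ p ∈ U, p ∈ V := Iff.rfl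

instance : PartialOrder (RO P) where
  le_refl U p h := h
  le_trans U V W h1 h2 p h := h2 p (h1 p h)
  le_antisymm U V h1 h2 := ext fun p => ⟨h1 p, h2 p⟩

instance : Min (RO P) := ⟨fun U V => ⟨{p | p ∈ U ∧ p ∈ V}, fun p => by
  constructor
  · exact fun h q hq => ⟨q, le_rfl, down h.1 hq, down h.2 hq⟩
  · intro h
    refine ⟨mem_iff.2 fun q hq => ?_, mem_iff.2 fun q hq => ?_⟩
    · obtain ⟨r, hr, h1⟩ := h q hq
      exact ⟨r, hr, h1.1⟩
    · obtain ⟨r, hr, h1⟩ := h q hq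
      exact ⟨r, hr, h1.2⟩⟩⟩

theorem mem_inf {U V : RO P} {p : P} : p ∈ U ⊓ V ↔ p ∈ U ∧ p ∈ V := Iff.rfl

instance : Top (RO P) := ⟨⟨Set.univ, fun p => by
  simp only [Set.mem_univ, and_true, true_iff]
  exact fun q _ => ⟨q, le_rfl⟩⟩⟩

theorem mem_top (p : P) : p ∈ (⊤ : RO P) := Set.mem_univ _

instance : Bot (RO P) := ⟨⟨∅, fun p => by
  simp only [Set.mem_empty_iff_false, and_false, exists_false, imp_false, false_iff]
  exact fun h => h p le_rfl⟩⟩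

theorem notMem_bot (p : P) : p ∉ (⊥ : RO P) := Set.notMem_empty _

instance : SupSet (RO P) := ⟨fun S => mk' (fun p => ∃ U ∈ S, p ∈ U)
  (fun _ _ ⟨U, hU, h⟩ hq => ⟨U, hU, down h hq⟩)⟩

theorem mem_sSup {S : Set (RO P)} {p : P} : p ∈ sSup S ↔ ∀ q ≤ p, ∃ r ≤ q, ∃ U ∈ S, r ∈ U :=
  Iff.rfl

instance : InfSet (RO P) := ⟨fun S => ⟨{p | ∀ U ∈ S, p ∈ U}, fun p => by
  constructor
  · exact fun h q hq => ⟨q, le_rfl, fun U hU => down (h U hU) hq⟩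
  · intro h U hU
    refine mem_iff.2 fun q hq => ?_
    obtain ⟨r, hr, h1⟩ := h q hq
    exact ⟨r, hr, h1 U hU⟩⟩⟩

theorem mem_sInf {S : Set (RO P)} {p : P} : p ∈ sInf S ↔ ∀ U ∈ S, p ∈ U := Iff.rfl

instance : Max (RO P) := ⟨fun U V => mk' (fun p => p ∈ U ∨ p ∈ V)
  (fun _ _ h hq => h.imp (fun h => down h hq) (fun h => down h hq))⟩

theorem mem_sup {U V : RO P} {p : P} : p ∈ U ⊔ V ↔ ∀ q ≤ p, ∃ r ≤ q, r ∈ U ∨ r ∈ V := Iff.rfl

instance : Compl (RO P) := ⟨fun U => ⟨{p | ∀ q ≤ p, q ∉ U}, fun p => by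
  constructor
  · exact fun h q hq => ⟨q, le_rfl, fun r hr => h r (hr.trans hq)⟩
  · intro h q hq hqU
    obtain ⟨r, hr, h1⟩ := h q hq
    exact h1 r le_rfl (down hqU hr)⟩⟩

theorem mem_compl {U : RO P} {p : P} : p ∈ Uᶜ ↔ ∀ q ≤ p, q ∉ U := Iff.rfl

instance : CompleteLattice (RO P) where
  sup := max
  inf := min
  le_sup_left U V p h := mem_sup.2 fun q hq => ⟨q, le_rfl, Or.inl (down h hq)⟩
  le_sup_right U V p h := mem_sup.2 fun q hq => ⟨q, le_rfl, Or.inr (down h hq)⟩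
  sup_le U V W h1 h2 p h := mem_iff.2 fun q hq => by
    obtain ⟨r, hr, h3 | h3⟩ := mem_sup.1 h q hq
    · exact ⟨r, hr, h1 r h3⟩
    · exact ⟨r, hr, h2 r h3⟩
  inf_le_left U V p h := h.1
  inf_le_right U V p h := h.2
  le_inf U V W h1 h2 p h := ⟨h1 p h, h2 p h⟩
  isLUB_sSup S := by
    constructor
    · intro U hU p hp
      exact mem_sSup.2 fun q hq => ⟨q, le_rfl, U, hU, down hp hq⟩
    · intro V hV p hp
      refine mem_iff.2 fun q hq => ?_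
      obtain ⟨r, hr, U, hU, h⟩ := mem_sSup.1 hp q hq
      exact ⟨r, hr, hV hU r h⟩
  isGLB_sInf S := by
    constructor
    · intro U hU p hp
      exact mem_sInf.1 hp U hU
    · intro V hV p hp
      exact mem_sInf.2 fun U hU => hV hU p hp
  le_top U p _ := mem_top p
  bot_le U p h := absurd h (notMem_bot p)

instance : CompleteBooleanAlgebra (RO P) where
  le_sup_inf U V W p h := by
    obtain ⟨h1, h2⟩ := mem_inf.1 h
    refine mem_sup.2 fun q hq => ?_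
    obtain ⟨r, hr, h3⟩ := mem_sup.1 h1 q hq
    rcases h3 with h3 | h3
    · exact ⟨r, hr, Or.inl h3⟩
    · obtain ⟨s, hs, h4⟩ := mem_sup.1 h2 r (hr.trans hq)
      rcases h4 with h4 | h4
      · exact ⟨s, hs.trans hr, Or.inl h4⟩
      · exact ⟨s, hs.trans hr, Or.inr ⟨down h3 hs, h4⟩⟩
  inf_compl_le_bot U p h := absurd (mem_inf.1 h).1 (mem_compl.1 (mem_inf.1 h).2 p le_rfl)
  top_le_sup_compl U p _ := mem_sup.2 fun q _ => by
    by_cases h : ∃ r ≤ q, r ∈ U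
    · obtain ⟨r, hr, h1⟩ := h
      exact ⟨r, hr, Or.inl h1⟩
    · refine ⟨q, le_rfl, Or.inr (mem_compl.2 fun r hr h1 => h ⟨r, hr, h1⟩)⟩

theorem mem_iSup {ι : Sort*} {f : ι → RO P} {p : P} :
    p ∈ (⨆ i, f i) ↔ ∀ q ≤ p, ∃ r ≤ q, ∃ i, r ∈ f i := by
  rw [iSup, mem_sSup]
  simp

theorem mem_iSup₂ {ι : Sort*} {κ : ι → Sort*} {f : ∀ i, κ i → RO P} {p : P} :
    p ∈ (⨆ i, ⨆ j, f i j) ↔ ∀ q ≤ p, ∃ r ≤ q, ∃ i j, r ∈ f i j := by
  rw [mem_iSup]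
  constructor
  · intro h q hq
    obtain ⟨r, hr, i, h1⟩ := h q hq
    obtain ⟨s, hs, j, h2⟩ := mem_iSup.1 h1 r le_rfl
    exact ⟨s, hs.trans hr, i, j, h2⟩
  · intro h q hq
    obtain ⟨r, hr, i, j, h1⟩ := h q hq
    exact ⟨r, hr, i, mem_iSup.2 fun s hs => ⟨s, le_rfl, j, down h1 hs⟩⟩

theorem mem_iInf {ι : Sort*} {f : ι → RO P} {p : P} : p ∈ (⨅ i, f i) ↔ ∀ i, p ∈ f i := by
  rw [iInf, mem_sInf]
  simp

theorem mem_himp {U V : RO P} {p : P} : p ∈ (U ⇨ V) ↔ ∀ q ≤ p, q ∈ U → q ∈ V := by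
  constructor
  · intro h q hq hU
    have h1 : (U ⇨ V) ⊓ U ≤ V := himp_inf_le
    exact h1 q ⟨down h hq, hU⟩
  · intro h
    have h1 : mk' (fun q => q ≤ p) (fun _ _ h1 h2 => h2.trans h1) ≤ (U ⇨ V) := by
      rw [le_himp_iff]
      intro q hq
      obtain ⟨h2, h3⟩ := mem_inf.1 hq
      refine mem_iff.2 fun r hr => ?_
      obtain ⟨s, hs, h4⟩ := mem_mk'.1 h2 r hr
      exact ⟨s, hs, h s h4 (down h3 (hs.trans hr))⟩
    exact h1 p fun q hq => ⟨q, le_rfl, hq⟩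

theorem eq_top_iff' {U : RO P} : U = ⊤ ↔ ∀ p, p ∈ U :=
  ⟨fun h p => h ▸ mem_top p, fun h => ext fun p => ⟨fun _ => mem_top p, fun _ => h p⟩⟩

instance [Nonempty P] : Nontrivial (RO P) := ⟨⊥, ⊤, by
  intro h
  obtain ⟨p⟩ := ‹Nonempty P›
  have := mem_top p
  rw [← h] at this
  exact notMem_bot p this⟩

end RO

end Pool.Agent.Work.MP_6efb98_lc
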