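import Pool.Agent.Work.MP_6efb98_lc.NamesCard

/-!
Existence of a countable transitive model, from a suitable complete Boolean algebra.
-/

namespace Pool.Agent.Work.MP_6efb98_lc

open ZFSet

/-- Gödel numbers of formulas -/
def Fm.code : {n : ℕ} → Fm n → ℕ
  | _, .mem i j => Nat.pair 0 (Nat.pair i j)
  | _, .eq i j => Nat.pair 1 (Nat.pair i j)
  | _, .neg φ => Nat.pair 2 φ.code
  | _, .and φ ψ => Nat.pair 3 (Nat.pair φ.code ψ.code)
  | _, .ex φ => Nat.pair 4 φ.code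

theorem Fm.code_inj : ∀ {n : ℕ} (φ ψ : Fm n), φ.code = ψ.code → φ = ψ := by
  intro n φ
  induction φ with
  | mem i j =>
    intro ψ h
    cases ψ <;> simp only [Fm.code, Nat.pair_eq_pair] at h <;> first | (exfalso; omega) | skip
    obtain ⟨_, h1, h2⟩ := h
    rw [Fin.ext h1, Fin.ext h2]
  | eq i j =>
    intro ψ h
    cases ψ <;> simp only [Fm.code, Nat.pair_eq_pair] at h <;> first | (exfalso; omega) | skip
    obtain ⟨_, h1, h2⟩ := h
    rw [Fin.ext h1, Fin.ext h2]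
  | neg φ ih =>
    intro ψ h
    cases ψ <;> simp only [Fm.code, Nat.pair_eq_pair] at h <;> first | (exfalso; omega) | skip
    rw [ih _ h.2]
  | and φ₁ φ₂ ih₁ ih₂ =>
    intro ψ h
    cases ψ <;> simp only [Fm.code, Nat.pair_eq_pair] at h <;> first | (exfalso; omega) | skip
    rw [ih₁ _ h.2.1, ih₂ _ h.2.2]
  | ex φ ih =>
    intro ψ h
    cases ψ <;> simp only [Fm.code, Nat.pair_eq_pair] at h <;> first | (exfalso; omega) | skip
    rw [ih _ h.2]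

instance (n : ℕ) : Countable (Fm n) :=
  Function.Injective.countable (f := Fm.code) (fun φ ψ h => Fm.code_inj φ ψ h)

variable {B : Type} [CompleteBooleanAlgebra B]

theorem sup_inj {ι : Type*} (e : ι → Nm B) (he : Function.Injective e) (P : ι → Prop) (g : ι → B)
    {X : Set (Nm B)} {G : Set B} (hG : IsUltra G)
    (hT : (⨆ η, ⨆ i, ⨆ _ : η = e i ∧ P i, g i) ∈ G →
      ∃ η ∈ X, (⨆ i, ⨆ _ : η = e i ∧ P i, g i) ∈ G)
    (h : (⨆ i, ⨆ _ : P i, g i) ∈ G) : ∃ i, e i ∈ X ∧ P i ∧ g i ∈ G := by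
  have h1 : (⨆ i, ⨆ _ : P i, g i) ≤ (⨆ η, ⨆ i, ⨆ _ : η = e i ∧ P i, g i) := by
    refine iSup₂_le fun i hi => ?_
    exact le_iSup_of_le (e i) (le_iSup₂_of_le i ⟨rfl, hi⟩ le_rfl)
  obtain ⟨η, hη, h2⟩ := hT (hG.up h h1)
  by_cases h3 : ∃ i, η = e i ∧ P i
  · obtain ⟨i, rfl, hi⟩ := h3
    refine ⟨i, hη, hi, hG.up h2 (iSup₂_le fun j hj => ?_)⟩
    rw [he hj.1]
  · exfalso
    apply hG.ne_bot h2
    simp only [iSup_eq_bot]
    intro i hi
    exact absurd ⟨i, hi⟩ h3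

theorem natN_injective : Function.Injective (fun n : ℕ => (ordN (n : Ordinal.{0}) : Nm B)) := by
  intro m n h
  exact_mod_cast ordN_injective h

/-- default name -/
def dN : Nm B := .mk Empty Empty.elim Empty.elim

/-- list of arguments as a tuple -/
def argv (l : List (Nm B)) (n : ℕ) : Fin n → Nm B := fun i => l.getD i dN

theorem argv_ofFn {n : ℕ} (v : Fin n → Nm B) : argv (List.ofFn v) n = v := by
  funext i
  simp [argv, List.getD_eq_getElem?_getD]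

open Classical in
/-- inverse of `ordN` -/
noncomputable def oN (x : Nm B) : Ordinal.{0} := if h : ∃ o, x = ordN o then h.choose else 0

theorem oN_ordN (o : Ordinal.{0}) : oN (ordN o : Nm B) = o := by
  have h : ∃ o', (ordN o : Nm B) = ordN o' := ⟨o, rfl⟩
  rw [oN, dif_pos h]
  exact (ordN_injective h.choose_spec).symm

/-- operation indices -/
abbrev OpK := ℕ ⊕ ((Σ n, Fm (n + 1)) ⊕ ((Σ n, Fm (n + 2)) ⊕ ((Σ n, Fm (n + 2)) ⊕ ℕ)))

/-- task indices -/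
abbrev TkK := (ℕ × ℕ) ⊕ (Σ n, Fm (n + 1))

section

variable (hB : CCC B) {θ₁ θ₂ : Ordinal.{0}} (h₁ : RegO θ₁) (h₂ : RegO θ₂)
  (XS SR : (Ordinal.{0} → ℕ → B) → ℕ → B)

/-- the operations -/
noncomputable def opF : OpK → List (Nm B) → Nm B
  | .inl 0, l => upN (l.getD 0 dN) (l.getD 1 dN)
  | .inl 1, l => unN (l.getD 0 dN)
  | .inl 2, l => resN (l.getD 0 dN) (l.getD 1 dN)
  | .inl 3, l => powN (l.getD 0 dN)
  | .inl 4, _ => ordN Ordinal.omega0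
  | .inl 5, l => woA (l.getD 0 dN)
  | .inl 6, l => woN (l.getD 0 dN)
  | .inl 7, l => woW (l.getD 0 dN) (l.getD 1 dN)
  | .inl 8, l => fstN (l.getD 0 dN)
  | .inl 9, l => sndN (l.getD 0 dN)
  | .inl 10, _ => ordN θ₁
  | .inl 11, _ => ordN θ₂
  | .inl 12, l => ordN (regB hB h₁ (l.getD 0 dN) (oN (l.getD 1 dN)))
  | .inl 13, l => ordN (regB hB h₂ (l.getD 0 dN) (oN (l.getD 1 dN)))
  | .inl 14, l => setN (XS (fam (l.getD 0 dN)))
  | .inl 15, l => setN (SR (fam' (l.getD 0 dN)))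
  | .inl (_ + 16), _ => dN
  | .inr (.inl ⟨n, φ⟩), l => sepN φ (l.headD dN) (argv l.tail n)
  | .inr (.inr (.inl ⟨n, φ⟩)), l => wB φ (l.headD dN)
      (bval φ (Fin.cons (l.tail.headD dN) (Fin.cons (l.headD dN) (argv l.tail.tail n))))
      (argv l.tail.tail n)
  | .inr (.inr (.inr (.inl ⟨n, φ⟩))), l => colN φ (l.headD dN) (argv l.tail n)
  | .inr (.inr (.inr (.inr n))), _ => ordN (n : Ordinal.{0})

/-- the tasks -/
noncomputable def tkF : TkK → List (Nm B) → Nm B → B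
  | .inl (0, _), l, ρ => lab (l.getD 1 dN) ρ ⊓ beq (l.getD 0 dN) ρ
  | .inl (1, _), l, η => lab (l.getD 0 dN) η ⊓ beq η (l.getD 1 dN)
  | .inl (2, _), l, η => lab (l.getD 0 dN) η ⊓ (⨆ ρ, lab (l.getD 1 dN) ρ ⊓ beq η ρ)ᶜ
  | .inl (3, _), l, ρ => lab (l.getD 1 dN) ρ ⊓ (⨆ η, lab (l.getD 0 dN) η ⊓ beq η ρ)ᶜ
  | .inl (4, _), l, η => ⨆ δ' : Ordinal.{0}, ⨆ _ : η = ordN δ' ∧ δ' ≠ oN (l.getD 2 dN),
      bmem (pairN (l.getD 1 dN) (ordN δ')) (l.getD 0 dN)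
  | .inl (5, m), l, η => ⨆ n : ℕ, ⨆ _ : η = ordN (n : Ordinal.{0}) ∧ m ≤ n,
      XS (fam (l.getD 0 dN)) n
  | .inl (6, _), l, η => ⨆ m : ℕ, ⨆ _ : η = ordN (m : Ordinal.{0}) ∧ True,
      ⨅ n : ℕ, ⨅ _ : m ≤ n, (XS (fam (l.getD 0 dN)) n ⇨ fam (l.getD 0 dN) (oN (l.getD 1 dN)) n)
  | .inl (7, _), l, η => ⨆ m : ℕ, ⨆ _ : η = ordN (m : Ordinal.{0}) ∧ True,
      ⨅ n : ℕ, ⨅ _ : m ≤ n, (XS (fam (l.getD 0 dN)) n ⇨ (fam (l.getD 0 dN) (oN (l.getD 1 dN)) n)ᶜ)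
  | .inl (8, _), l, η => ⨆ m : ℕ, ⨆ _ : η = ordN (m : Ordinal.{0}) ∧ True,
      (⨆ n : ℕ, ⨆ _ : m ≤ n, fam (l.getD 0 dN) (oN (l.getD 1 dN)) n)ᶜ
  | .inl (9, m), l, η => ⨆ n : ℕ, ⨆ _ : η = ordN (n : Ordinal.{0}) ∧ m ≤ n,
      fam' (l.getD 0 dN) (oN (l.getD 1 dN)) n ⊓ SR (fam' (l.getD 0 dN)) n
  | .inl (10, m), l, η => ⨆ n : ℕ, ⨆ _ : η = ordN (n : Ordinal.{0}) ∧ m ≤ n,
      fam' (l.getD 0 dN) (oN (l.getD 1 dN)) n ⊓ (SR (fam' (l.getD 0 dN)) n)ᶜ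
  | .inl (_ + 11, _), _, _ => ⊥
  | .inr ⟨n, φ⟩, l, η => bval φ (Fin.cons η (argv l n))

end

/-- the countable transitive model -/
theorem exists_model [Nontrivial B] (hB : CCC B) {θ₁ θ₂ : Ordinal.{0}} (h₁ : RegO θ₁)
    (h₂ : RegO θ₂) (h₁₂ : θ₁ < θ₂) (XS SR : (Ordinal.{0} → ℕ → B) → ℕ → B)
    (hXS1 : ∀ F m, (⨆ n : ℕ, ⨆ _ : m ≤ n, XS F n) = ⊤)
    (hXS2 : ∀ F, ∀ k < θ₂, (⨆ m : ℕ, ⨅ n : ℕ, ⨅ _ : m ≤ n, (XS F n ⇨ F k n)) ⊔
      (⨆ m : ℕ, ⨅ n : ℕ, ⨅ _ : m ≤ n, (XS F n ⇨ (F k n)ᶜ)) = ⊤)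
    (hSR : ∀ F : Ordinal.{0} → ℕ → B, (∀ k m, (⨆ n : ℕ, ⨆ _ : m ≤ n, F k n) = ⊤) → ∀ k < θ₂, ∀ m,
      (⨆ n : ℕ, ⨆ _ : m ≤ n, F k n ⊓ SR F n) = ⊤ ∧
      (⨆ n : ℕ, ⨆ _ : m ≤ n, F k n ⊓ (SR F n)ᶜ) = ⊤) :
    ∃ M : Set ZFSet.{0}, M.Countable ∧ Model M ∧ ∃ κ μ, Reg M κ ∧ Reg M μ ∧ μ ∈ κ ∧
      Sp M κ ∧ Rp M κ := by
  haveI : Nonempty (Nm B) := ⟨dN⟩
  obtain ⟨X, hXc, hXop, G, hG, hTk⟩ := exists_hull (opF hB h₁ h₂ XS SR) (tkF XS SR)
  have op1 : ∀ (k : OpK) (a : Nm B), a ∈ X → opF hB h₁ h₂ XS SR k [a] ∈ X := by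
    intro k a ha
    exact hXop k [a] (by simpa using ha)
  have op2 : ∀ (k : OpK) (a b : Nm B), a ∈ X → b ∈ X → opF hB h₁ h₂ XS SR k [a, b] ∈ X := by
    intro k a b ha hb
    exact hXop k [a, b] (by simp [ha, hb])
  have op0 : ∀ (k : OpK), opF hB h₁ h₂ XS SR k [] ∈ X := by
    intro k
    exact hXop k [] (by simp)
  have hfn : ∀ {n : ℕ} (v : Fin n → Nm B), (∀ i, v i ∈ X) → ∀ x ∈ List.ofFn v, x ∈ X := by
    intro n v hv x hx
    obtain ⟨i, rfl⟩ := (List.mem_ofFn' _ _).1 hx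
    exact hv i
  have hX : Hull X := by
    refine ⟨?_, ?_, ?_, ?_, ?_, ?_, ?_, ?_, ?_, ?_, ?_, ?_, ?_, ?_⟩
    · exact fun σ hσ τ hτ => op2 (.inl 0) σ τ hσ hτ
    · exact fun σ hσ => op1 (.inl 1) σ hσ
    · exact fun σ hσ τ hτ => op2 (.inl 2) σ τ hσ hτ
    · exact fun σ hσ => op1 (.inl 3) σ hσ
    · intro n φ σ hσ v hv
      have := hXop (.inr (.inl ⟨n, φ⟩)) (σ :: List.ofFn v) (by
        intro x hx
        rcases List.mem_cons.1 hx with rfl | hx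
        · exact hσ
        · exact hfn v hv x hx)
      simpa [opF, argv_ofFn] using this
    · intro n φ x hx y hy v hv
      have := hXop (.inr (.inr (.inl ⟨n, φ⟩))) (x :: y :: List.ofFn v) (by
        intro z hz
        rcases List.mem_cons.1 hz with rfl | hz
        · exact hx
        rcases List.mem_cons.1 hz with rfl | hz
        · exact hy
        · exact hfn v hv z hz)
      simpa [opF, argv_ofFn] using this
    · intro n φ σ hσ v hv
      have := hXop (.inr (.inr (.inr (.inl ⟨n, φ⟩)))) (σ :: List.ofFn v) (by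
        intro x hx
        rcases List.mem_cons.1 hx with rfl | hx
        · exact hσ
        · exact hfn v hv x hx)
      simpa [opF, argv_ofFn] using this
    · exact fun n => op0 (.inr (.inr (.inr (.inr n))))
    · exact op0 (.inl 4)
    · exact fun σ hσ => op1 (.inl 5) σ hσ
    · exact fun σ hσ => op1 (.inl 6) σ hσ
    · exact fun σ hσ τ hτ => op2 (.inl 7) σ τ hσ hτ
    · exact fun σ hσ => op1 (.inl 8) σ hσ
    · exact fun σ hσ => op1 (.inl 9) σ hσ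
  have hGen : Gen X G := by
    refine ⟨hG, ?_, ?_, ?_, ?_, ?_⟩
    · intro σ hσ τ hτ h
      exact hTk (.inl (0, 0)) [σ, τ] (by simp [hσ, hτ]) h
    · intro σ hσ ρ hρ h
      exact hTk (.inl (1, 0)) [σ, ρ] (by simp [hσ, hρ]) h
    · intro σ hσ τ hτ h
      exact hTk (.inl (2, 0)) [σ, τ] (by simp [hσ, hτ]) h
    · intro σ hσ τ hτ h
      exact hTk (.inl (3, 0)) [σ, τ] (by simp [hσ, hτ]) h
    · intro n φ v hv h
      have h1 := hTk (.inr ⟨n, φ⟩) (List.ofFn v) (hfn v hv)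
      simp only [tkF, argv_ofFn] at h1
      exact h1 h
  have hpair : ∀ c ∈ X, ∀ k : Ordinal.{0}, ordN k ∈ X → ∀ x ∈ [c, ordN k], x ∈ X := by
    intro c hc k hk
    simp [hc, hk]
  refine ⟨Mod X G, ?_, mod_model hGen hX, ev X G (ordN θ₂), ev X G (ordN θ₁), ?_, ?_, ?_, ?_, ?_⟩
  · have : Mod X G = (ev X G) '' X := by
      ext x
      simp [Mod]
    rw [this]
    exact hXc.image _
  · refine reg_of hGen hX hB h₂ (op0 (.inl 11)) ?_ ?_
    · intro f hf a ha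
      have := op2 (.inl 13) f (ordN a) hf ha
      simpa [opF, oN_ordN] using this
    · intro f hf g hg δ hδ h
      have h1 := hTk (.inl (4, 0)) [f, g, ordN δ] (by simp [hf, hg, hδ])
      simp only [tkF, List.getD_cons_zero, List.getD_cons_succ, oN_ordN] at h1
      exact sup_inj ordN ordN_injective (fun δ' => δ' ≠ δ) (fun δ' => bmem (pairN g (ordN δ')) f)
        hG h1 h
  · refine reg_of hGen hX hB h₁ (op0 (.inl 10)) ?_ ?_
    · intro f hf a ha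
      have := op2 (.inl 12) f (ordN a) hf ha
      simpa [opF, oN_ordN] using this
    · intro f hf g hg δ hδ h
      have h1 := hTk (.inl (4, 0)) [f, g, ordN δ] (by simp [hf, hg, hδ])
      simp only [tkF, List.getD_cons_zero, List.getD_cons_succ, oN_ordN] at h1
      exact sup_inj ordN ordN_injective (fun δ' => δ' ≠ δ) (fun δ' => bmem (pairN g (ordN δ')) f)
        hG h1 h
  · exact ev_ordN_lt hG (op0 (.inl 10)) h₁₂
  · refine sp_of hGen hX XS hXS1 hXS2 (fun c hc => op1 (.inl 14) c hc) ?_ ?_ ?_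
    · intro c hc m h
      have h1 := hTk (.inl (5, m)) [c] (by simpa using hc)
      simp only [tkF, List.getD_cons_zero] at h1
      obtain ⟨n, _, h2, h3⟩ := sup_inj (fun n : ℕ => (ordN (n : Ordinal.{0}) : Nm B))
        natN_injective (fun n => m ≤ n) (fun n => XS (fam c) n) hG h1 h
      exact ⟨n, h2, h3⟩
    · intro c hc k hk h
      have h1 := hTk (.inl (6, 0)) [c, ordN k] (hpair c hc k hk)
      simp only [tkF, List.getD_cons_zero, List.getD_cons_succ, oN_ordN] at h1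
      obtain ⟨m, _, _, h3⟩ := sup_inj (fun n : ℕ => (ordN (n : Ordinal.{0}) : Nm B))
        natN_injective (fun _ => True)
        (fun m => ⨅ n : ℕ, ⨅ _ : m ≤ n, (XS (fam c) n ⇨ fam c k n)) hG h1 (by simpa using h)
      exact ⟨m, h3⟩
    · intro c hc k hk h
      have h1 := hTk (.inl (7, 0)) [c, ordN k] (hpair c hc k hk)
      simp only [tkF, List.getD_cons_zero, List.getD_cons_succ, oN_ordN] at h1
      obtain ⟨m, _, _, h3⟩ := sup_inj (fun n : ℕ => (ordN (n : Ordinal.{0}) : Nm B))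
        natN_injective (fun _ => True)
        (fun m => ⨅ n : ℕ, ⨅ _ : m ≤ n, (XS (fam c) n ⇨ (fam c k n)ᶜ)) hG h1 (by simpa using h)
      exact ⟨m, h3⟩
  · refine rp_of hGen hX SR hSR (fun c hc => op1 (.inl 15) c hc) ?_ ?_ ?_
    · intro c hc k hk h
      have h1 := hTk (.inl (8, 0)) [c, ordN k] (hpair c hc k hk)
      simp only [tkF, List.getD_cons_zero, List.getD_cons_succ, oN_ordN] at h1
      obtain ⟨m, _, _, h3⟩ := sup_inj (fun n : ℕ => (ordN (n : Ordinal.{0}) : Nm B))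
        natN_injective (fun _ => True)
        (fun m => (⨆ n : ℕ, ⨆ _ : m ≤ n, fam c k n)ᶜ) hG h1 (by simpa using h)
      exact ⟨m, h3⟩
    · intro c hc k hk m h
      have h1 := hTk (.inl (9, m)) [c, ordN k] (hpair c hc k hk)
      simp only [tkF, List.getD_cons_zero, List.getD_cons_succ, oN_ordN] at h1
      obtain ⟨n, _, h2, h3⟩ := sup_inj (fun n : ℕ => (ordN (n : Ordinal.{0}) : Nm B))
        natN_injective (fun n => m ≤ n) (fun n => fam' c k n ⊓ SR (fam' c) n) hG h1 h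
      exact ⟨n, h2, h3⟩
    · intro c hc k hk m h
      have h1 := hTk (.inl (10, m)) [c, ordN k] (hpair c hc k hk)
      simp only [tkF, List.getD_cons_zero, List.getD_cons_succ, oN_ordN] at h1
      obtain ⟨n, _, h2, h3⟩ := sup_inj (fun n : ℕ => (ordN (n : Ordinal.{0}) : Nm B))
        natN_injective (fun n => m ≤ n) (fun n => fam' c k n ⊓ (SR (fam' c) n)ᶜ) hG h1 h
      exact ⟨n, h2, h3⟩

end Pool.Agent.Work.MP_6efb98_lc
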