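import Pool.Agent.Work.MP_6efb98_lc.Pos

/-!
`Model M` implies `IsModel M` (replacement and choice).
-/

namespace Pool.Agent.Work.MP_6efb98_lc

open ZFSet

theorem Model.isModel {M : Set ZFSet.{0}} (hM : Model M) : IsModel M := by
  refine ⟨hM.transitive, hM.infinity, hM.pairing, hM.union, hM.powerset, hM.separation, ?_, ?_⟩
  · intro n φ v hv a ha h
    obtain ⟨b, hb, h1⟩ := hM.collection n φ v hv a ha (fun x hx => by
      obtain ⟨y, ⟨hy, h2⟩, _⟩ := h x hx
      exact ⟨y, hy, h2⟩)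
    let g : Fin (n + 2) → Fin (n + 3) := Fin.cons 1 (Fin.cons 0 (fun i => i.succ.succ.succ))
    let ψ : Fm ((n + 1) + 1) := .ex (.and (.mem 0 2) (φ.rename g))
    have hsat : ∀ y, Sat M ψ (Fin.cons y (Fin.cons a v)) ↔
        ∃ x ∈ a, Sat M φ (Fin.cons y (Fin.cons x v)) := by
      intro y
      simp only [ψ, Sat, sat_rename]
      constructor
      · rintro ⟨x, _, h2, h3⟩
        refine ⟨x, h2, ?_⟩
        convert h3 using 2 with i
        refine Fin.cases ?_ (fun i => Fin.cases ?_ (fun i => ?_) i) i <;> simp [g]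
      · rintro ⟨x, h2, h3⟩
        refine ⟨x, hM.transitive a ha x h2, h2, ?_⟩
        convert h3 using 2 with i
        refine Fin.cases ?_ (fun i => Fin.cases ?_ (fun i => ?_) i) i <;> simp [g]
    have h2 := hM.separation (n + 1) ψ (Fin.cons a v) (by
      intro i
      refine Fin.cases ?_ (fun i => ?_) i
      · exact ha
      · exact hv i) b hb
    refine ⟨_, h2, fun y => ?_⟩
    rw [mem_sep, hsat]
    constructor
    · rintro ⟨h3, h4⟩
      exact ⟨hM.transitive b hb y h3, h4⟩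
    · rintro ⟨hy, x, hx, h3⟩
      refine ⟨?_, x, hx, h3⟩
      obtain ⟨y', hy', h4⟩ := h1 x hx
      rw [(h x hx).unique ⟨hy, h3⟩ ⟨hM.transitive b hb y' hy', h4⟩]
      exact hy'
  · intro a ha hne hdisj
    have hai : InM M a := inM_zf.2 ha
    obtain ⟨α, hα, hαo, f, hf, h1, h2, h3⟩ := hM.wo (⋃₀ a : ZFSet) (hM.union a ha)
    have hfi : InM M f := inM_zf.2 hf
    have hαi : InM M α := inM_zf.2 hα
    have hd : Dfn M (fun a' : ZFSet.{0} => ZFSet.sep (fun y => BEx a' (fun x => y ∈ x ∧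
        BEx α (fun β => pair β y ∈ f ∧ BAll β (fun γ => BAll x (fun z => ¬ pair γ z ∈ f)))))
          (⋃₀ a' : ZFSet)) := by
      fun_prop (disch := assumption)
    refine ⟨_, inM_zf.1 (hd.1 a hai), fun x hx => ?_⟩
    -- the least index
    have hS : (ZFSet.sep (fun β => ∃ y ∈ x, pair β y ∈ f) α).Nonempty := by
      have : x.Nonempty := by
        rcases eq_empty_or_nonempty x with h | h
        · exact absurd h (hne x hx)
        · exact h
      obtain ⟨y, hy⟩ := this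
      obtain ⟨β, hβ⟩ := h3 y (mem_sUnion.2 ⟨x, hx, hy⟩)
      obtain ⟨β', hβ', y', h4⟩ := h1 _ hβ
      exact ⟨β, mem_sep.2 ⟨(pair_inj.1 h4).1 ▸ hβ', y, hy, hβ⟩⟩
    obtain ⟨h4, h5⟩ := sInter_mem_of_ordinals hS (fun y hy => hαo.mem (mem_sep.1 hy).1)
    set β : ZFSet.{0} := ⋂₀ (ZFSet.sep (fun β => ∃ y ∈ x, pair β y ∈ f) α) with hβ
    obtain ⟨hβα, y, hy, hβy⟩ := mem_sep.1 h4
    have hleast : ∀ γ ∈ β, ∀ z ∈ x, ¬ pair γ z ∈ f := by
      intro γ hγ z hz h6
      have := h5 γ (mem_sep.2 ⟨hαo.mem_trans hγ hβα, z, hz, h6⟩)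
      exact mem_irrefl _ (this hγ)
    refine ⟨y, ⟨hy, mem_sep.2 ⟨mem_sUnion.2 ⟨x, hx, hy⟩, x, hx, hy, β, hβα, hβy, hleast⟩⟩, ?_⟩
    rintro y' ⟨hy', h6⟩
    obtain ⟨_, x', hx', h7, β', hβ', h8, h9⟩ := mem_sep.1 h6
    have hxx : x' = x := by
      by_contra hcon
      have := hdisj x' hx' x hx hcon
      have h10 : y' ∈ x' ∩ x := mem_inter.2 ⟨h7, hy'⟩
      rw [this] at h10
      exact notMem_empty _ h10
    subst hxx
    have hββ : β' = β := by
      rcases (hαo.mem hβ').mem_trichotomous (hαo.mem hβα) with h10 | h10 | h10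
      · exact absurd h8 (hleast _ h10 _ hy')
      · exact h10
      · exact absurd hβy (h9 _ h10 _ hy)
    rw [hββ] at h8
    exact h2 _ _ _ h8 hβy

end Pool.Agent.Work.MP_6efb98_lc
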