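import Pool.Agent.Work.MP_6efb98_lc.Neg

/-!
The polarized relation fails in the extension by the Levy collapse: the main argument.
-/

namespace Pool.Agent.Work.MP_6efb98_lc

open ZFSet

universe u v w
variable {M : Set ZFSet.{0}} [hM : Model M]

/-- a transitive set that contains `κ × δ` -/
theorem exists_trans {κ δ : ZFSet.{0}} (hκ : κ ∈ M) (hκo : κ.IsOrdinal) (hδ : δ ⊆ κ) :
    ∃ Z ∈ M, Z.IsTransitive ∧ prod κ δ ⊆ Z := by
  have hZ : Dfn M (fun κ : ZFSet.{0} => κ ∪ (pw M κ ∪ pw M (pw M κ))) := by fun_prop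
  refine ⟨_, inM_zf.1 (hZ.1 κ (inM_zf.2 hκ)), ?_, ?_⟩
  · intro x hx y hy
    rw [mem_union, mem_union, mem_pw, mem_pw] at hx
    rcases hx with hx | ⟨hx, _⟩ | ⟨hx, _⟩
    · exact mem_union.2 (Or.inl (hκo.mem_trans hy hx))
    · exact mem_union.2 (Or.inl (hx hy))
    · exact mem_union.2 (Or.inr (mem_union.2 (Or.inl (hx hy))))
  · intro z hz
    obtain ⟨x, hx, y, hy, rfl⟩ := mem_prod.1 hz
    have hxM := trans_mem hκ hx
    have hyM := trans_mem hκ (hδ hy)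
    refine mem_union.2 (Or.inr (mem_union.2 (Or.inr ?_)))
    rw [mem_pw]
    refine ⟨?_, ?_⟩
    · intro w hw
      rw [pair, mem_pair] at hw
      rcases hw with rfl | rfl
      · refine mem_pw.2 ⟨?_, singleton_mem hxM⟩
        intro u hu
        rw [mem_singleton.1 hu]
        exact hx
      · refine mem_pw.2 ⟨?_, upair_mem hxM hyM⟩
        intro u hu
        rcases mem_pair.1 hu with rfl | rfl
        · exact hx
        · exact hδ hy
    · have : Dfn M (fun q : ZFSet.{0} × ZFSet.{0} => pair q.1 q.2) := by fun_prop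
      exact inM_zf.1 (this.1 (x, y) (by simp [hxM, hyM]))

/-- second coordinate -/
noncomputable def sndZ (z : ZFSet.{0}) : ZFSet.{0} :=
  ⋃₀ (ZFSet.sep (fun y => BEx (fld {z}) (fun x => z = pair x y)) (fld {z}))

theorem dfn_sndZ : Dfn M sndZ := by
  unfold sndZ
  fun_prop

omit hM in
theorem sndZ_pair (x y : ZFSet.{0}) : sndZ (pair x y) = y := by
  have h0 : pair x y ∈ ({pair x y} : ZFSet.{0}) := mem_singleton.2 rfl
  have : ZFSet.sep (fun y' => BEx (fld {pair x y}) (fun x' => pair x y = pair x' y'))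
      (fld {pair x y}) = {y} := by
    ext z
    simp only [mem_sep, mem_singleton, BEx, pair_inj]
    constructor
    · rintro ⟨_, _, _, _, h⟩
      exact h.symm
    · rintro rfl
      exact ⟨right_mem_fld h0, x, left_mem_fld h0, rfl, rfl⟩
  rw [sndZ, this, sUnion_singleton]

variable {κ l : ZFSet.{0}} {G : Set ZFSet.{0}}

/-- subsets of `ω` in the extension are in `M` -/
theorem real_mem (hκ : Reg M κ) (hl : l ∈ M) (hG : IsGeneric M {x | x ∈ LV M κ l} G)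
    {B : ZFSet.{0}} (hB : B ∈ Ext M G) (hBω : B ⊆ omega) : B ∈ M := by
  obtain ⟨τ, hτ, rfl⟩ := hB
  have h1 := no_new hκ hl hG hκ.omega_mem (S := omega) (Z := omega) omega_mem omega_mem
    omega_transitive subset_rfl (π := fun x => x) (by fun_prop) (fun z hz => hz) hτ
    (fun z _ z' _ _ _ h => h)
  convert h1 using 1
  ext x
  rw [mem_sep]
  exact ⟨fun h => ⟨hBω h, h⟩, fun h => h.2⟩

/-- in the extension, sets of size `κ` are unbounded in `κ` -/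
theorem not_bounded (hκ : Reg M κ) (hl : l ∈ M) (hG : IsGeneric M {x | x ∈ LV M κ l} G)
    {A : ZFSet.{0}} (hA : Equinum (Ext M G) κ A) {δ : ZFSet.{0}} (hδ : δ ∈ κ) :
    ¬ A ⊆ δ := by
  intro hAδ
  obtain ⟨f, ⟨τ, hτ, rfl⟩, h1, h2⟩ := hA
  have hδM := trans_mem hκ.mem hδ
  have hδκ : δ ⊆ κ := hκ.ord.subset_of_mem hδ
  obtain ⟨Z, hZ, hZt, hZ2⟩ := exists_trans hκ.mem hκ.ord hδκ
  have hSM : prod κ δ ∈ M := by
    have : Dfn M (fun q : ZFSet.{0} × ZFSet.{0} => prod q.1 q.2) := by fun_prop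
    exact inM_zf.1 (this.1 (κ, δ) (by simp [hκ.mem, hδM]))
  have hinjf : ∀ x y z, pair x z ∈ val G τ → pair y z ∈ val G τ → x = y := by
    intro x y z hx hy
    have hzA := (pair_mem_prod.1 (h1.1 hx)).2
    exact (h2 z hzA).unique ⟨(pair_mem_prod.1 (h1.1 hx)).1, hx⟩ ⟨(pair_mem_prod.1 (h1.1 hy)).1, hy⟩
  have h3 := no_new hκ hl hG hδ hSM hZ hZt hZ2 dfn_sndZ (by
    intro z hz
    obtain ⟨x, _, y, hy, rfl⟩ := mem_prod.1 hz
    rw [sndZ_pair]
    exact hy) hτ (by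
    intro z hz z' hz' hzv hzv' h
    obtain ⟨x, _, y, hy, rfl⟩ := mem_prod.1 hz
    obtain ⟨x', _, y', hy', rfl⟩ := mem_prod.1 hz'
    rw [sndZ_pair, sndZ_pair] at h
    subst h
    rw [hinjf _ _ _ hzv hzv'])
  have h4 : ZFSet.sep (fun z => z ∈ val G τ) (prod κ δ) = val G τ := by
    ext z
    rw [mem_sep]
    refine ⟨fun h => h.2, fun h => ⟨?_, h⟩⟩
    obtain ⟨x, hx, y, hy, rfl⟩ := mem_prod.1 (h1.1 h)
    exact pair_mem_prod.2 ⟨hx, hAδ hy⟩
  rw [h4] at h3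
  set f := val G τ with hf
  have hg : Dfn M (fun f : ZFSet.{0} => ZFSet.sep (fun w => BEx (fld f) (fun x =>
      BEx (fld f) (fun y => w = pair y x ∧ pair x y ∈ f))) (prod (fld f) (fld f))) := by
    fun_prop
  have hgM := inM_zf.1 (hg.1 f (inM_zf.2 h3))
  set g := ZFSet.sep (fun w => BEx (fld f) (fun x =>
      BEx (fld f) (fun y => w = pair y x ∧ pair x y ∈ f))) (prod (fld f) (fld f)) with hgdef
  have hgm : ∀ x y, pair y x ∈ g ↔ pair x y ∈ f := by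
    intro x y
    rw [hgdef]
    simp only [mem_sep, pair_mem_prod]
    constructor
    · rintro ⟨_, a, _, b, _, h7, h8⟩
      obtain ⟨rfl, rfl⟩ := pair_inj.1 h7
      exact h8
    · intro h7
      exact ⟨⟨right_mem_fld h7, left_mem_fld h7⟩, x, left_mem_fld h7, y, right_mem_fld h7, rfl,
        h7⟩
  obtain ⟨β, hβ, h7⟩ := hκ.bdd δ hδ g hgM (by
    intro x y z hy hz
    rw [hgm] at hy hz
    exact hinjf _ _ _ hy hz) (by
    intro y hy
    obtain ⟨x, hx⟩ := mem_dom.1 hy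
    rw [hgm] at hx
    exact hAδ (pair_mem_prod.1 (h1.1 hx)).2) (by
    intro x hx
    obtain ⟨y, hy⟩ := mem_ran.1 hx
    rw [hgm] at hy
    exact (pair_mem_prod.1 (h1.1 hy)).1)
  have h8 : β ∈ ran g := by
    obtain ⟨y, hy, _⟩ := h1.2 β hβ
    exact mem_ran.2 ⟨y, (hgm _ _).2 hy⟩
  exact mem_irrefl _ (h7 h8)

omit hM in
theorem empty_ne : ({∅} : ZFSet.{0}) ≠ ∅ := by
  intro h
  have := mem_singleton.2 (rfl : (∅ : ZFSet.{0}) = ∅)
  rw [h] at this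
  exact notMem_empty _ this

/-- the main theorem on the extension -/
theorem not_polarized (hκ : Reg M κ) (hR : Rp M κ) (hl : l ∈ M) (h0 : ∅ ∈ l)
    (hc : Equinum M l (pw M omega)) (hG : IsGeneric M {x | x ∈ LV M κ l} G) :
    ¬ Polarized (Ext M G) κ := by
  classical
  obtain ⟨h, hhM, hh1, hh2⟩ := hc
  have hPM : LV M κ l ∈ M := LV_mem hκ.mem hl
  have hPi : InM M (LV M κ l) := inM_zf.2 hPM
  have hhi : InM M h := inM_zf.2 hhM
  have hωi : InM M omega := inM_omega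
  have hei : InM M (∅ : ZFSet.{0}) := inM_empty
  have hκi : InM M κ := inM_zf.2 hκ.mem
  have hhsv : Sv h := (isFunc_iff'.1 hh1).2.1
  have hpωM : pw M omega ∈ M := inM_zf.1 ((dfn_pw (dfn_id (α := ZFSet.{0}))).1 omega inM_omega)
  have hpωi : InM M (pw M omega) := inM_zf.2 hpωM
  -- the splitting sets
  set Good : ZFSet.{0} → ZFSet.{0} → Prop := fun p S =>
    BAll (dom p) (fun β => Imp (Unb (app h (app p β)))
      (BEx (app h (app p β)) (fun n => n ∈ S) ∧ BEx (app h (app p β)) (fun n => ¬ n ∈ S)))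
    with hGood
  have hGd : Dfn M (fun q : ZFSet.{0} × ZFSet.{0} => Good q.1 q.2) := by
    rw [hGood]
    fun_prop (disch := assumption)
  have happ : ∀ p ∈ LV M κ l, ∀ β ∈ dom p, app h (app p β) ⊆ omega ∧
      app h (app p β) ∈ pw M omega ∧ pair β (app p β) ∈ p ∧
      pair (app p β) (app h (app p β)) ∈ h := by
    intro p hp β hβ
    obtain ⟨y, hy⟩ := mem_dom.1 hβ
    have hy2 : y ∈ l := (pair_mem_prod.1 ((mem_LV.1 hp).2.1 hy)).2
    rw [(mem_LV.1 hp).2.2.1.app_eq hy]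
    obtain ⟨z, hz⟩ := mem_dom.1 ((isFunc_iff'.1 hh1).2.2.1 ▸ hy2 : y ∈ dom h)
    rw [hhsv.app_eq hz]
    have := (isFunc_iff'.1 hh1).2.2.2 (mem_ran.2 ⟨y, hz⟩)
    exact ⟨(mem_pw.1 this).1, this, hy, hz⟩
  have hex : ∀ p ∈ LV M κ l, ∃ S ∈ pw M omega, Good p S := by
    intro p hp
    have hpM := (mem_LV.1 hp).1
    have hf : Dfn M (fun p : ZFSet.{0} => ZFSet.sep (fun w => BEx (dom p) (fun β =>
        BEx (app h (app p β)) (fun n => w = pair β n))) (prod (dom p) omega)) := by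
      fun_prop (disch := assumption)
    obtain ⟨S, hSM, hSω, hS⟩ := hR _ (inM_zf.1 (hf.1 p (inM_zf.2 hpM)))
    have hmem : ∀ β ∈ dom p, ∀ n, pair β n ∈ ZFSet.sep (fun w => BEx (dom p) (fun β =>
        BEx (app h (app p β)) (fun n => w = pair β n))) (prod (dom p) omega) ↔
        n ∈ app h (app p β) := by
      intro β hβ n
      simp only [mem_sep, pair_mem_prod]
      constructor
      · rintro ⟨_, β', _, n', hn', h1⟩
        obtain ⟨rfl, rfl⟩ := pair_inj.1 h1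
        exact hn'
      · intro hn
        exact ⟨⟨hβ, (happ p hp β hβ).1 hn⟩, β, hβ, n, hn, rfl⟩
    refine ⟨S, mem_pw.2 ⟨hSω, hSM⟩, fun β hβ hunb => ?_⟩
    have hβκ : β ∈ κ := by
      obtain ⟨y, hy⟩ := mem_dom.1 hβ
      exact (pair_mem_prod.1 ((mem_LV.1 hp).2.1 hy)).1
    obtain ⟨⟨n, _, _, hn1, hn2⟩, ⟨n', _, _, hn1', hn2'⟩⟩ := hS β hβκ (by
      intro m hm
      obtain ⟨n, hn, hmn⟩ := hunb m hm
      exact ⟨n, (happ p hp β hβ).1 hn, hmn, (hmem β hβ n).2 hn⟩) ∅ omega_zero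
    exact ⟨⟨n, (hmem β hβ n).1 hn1, hn2⟩, ⟨n', (hmem β hβ n').1 hn1', hn2'⟩⟩
  obtain ⟨pick, hpick, hpick2⟩ := exists_pick hpωM
  set Φ : ZFSet.{0} → ZFSet.{0} := fun p => pick (ZFSet.sep (fun S => Good p S) (pw M omega))
    with hΦ
  have hΦd : Dfn M Φ := by
    rw [hΦ]
    refine dfn_comp hpick (dfn_sep (dfn_const hpωi) ?_)
    exact dfn_comp (f := fun q : ZFSet.{0} × ZFSet.{0} => (q.2, q.1)) hGd (by fun_prop)
  have hΦ2 : ∀ p ∈ LV M κ l, Good p (Φ p) := by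
    intro p hp
    obtain ⟨S, hS, hS2⟩ := hex p hp
    have := hpick2 (ZFSet.sep (fun S => Good p S) (pw M omega)) sep_subset
      ⟨S, mem_sep.2 ⟨hS, hS2⟩⟩
    exact (mem_sep.1 this).2
  -- the pieces of the colouring
  set C : ZFSet.{0} → ZFSet.{0} := fun p => ZFSet.sep (fun w => BEx omega (fun n =>
    (n ∈ Φ p ∧ w = pair (pair (dom p) n) {∅}) ∨ (¬ n ∈ Φ p ∧ w = pair (pair (dom p) n) ∅)))
    (prod (prod {dom p} omega) {∅, {∅}}) with hC
  have hCd : Dfn M C := by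
    rw [hC]
    fun_prop (disch := assumption)
  have hCmem : ∀ p w, w ∈ C p ↔ ∃ n ∈ omega, (n ∈ Φ p ∧ w = pair (pair (dom p) n) {∅}) ∨
      (n ∉ Φ p ∧ w = pair (pair (dom p) n) ∅) := by
    intro p w
    rw [hC]
    simp only [mem_sep, BEx]
    constructor
    · exact fun h => h.2
    · rintro ⟨n, hn, h1⟩
      refine ⟨?_, n, hn, h1⟩
      rcases h1 with ⟨_, rfl⟩ | ⟨_, rfl⟩
      · exact pair_mem_prod.2 ⟨pair_mem_prod.2 ⟨mem_singleton.2 rfl, hn⟩, by simp⟩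
      · exact pair_mem_prod.2 ⟨pair_mem_prod.2 ⟨mem_singleton.2 rfl, hn⟩, by simp⟩
  -- the name of the colouring
  have hchk : Dfn M check := dfn_check
  have hτd : Dfn M (fun P : ZFSet.{0} => (⋃₀ (img (fun p => img (fun w => pair (check w) p) (C p))
      (ZFSet.sep (fun p => dom p ∈ κ) P)) : ZFSet)) := by
    fun_prop (disch := assumption)
  set τ : ZFSet.{0} := ⋃₀ (img (fun p => img (fun w => pair (check w) p) (C p))
      (ZFSet.sep (fun p => dom p ∈ κ) (LV M κ l))) with hτ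
  have hτM : τ ∈ M := inM_zf.1 (hτd.1 _ hPi)
  have hemG : ∅ ∈ G := by
    obtain ⟨p, hp⟩ := hG.nonempty
    exact hG.upward p hp ∅ (empty_mem_LV hκ) (empty_subset _)
  have hcmem : ∀ w, w ∈ val G τ ↔ ∃ p ∈ G, dom p ∈ κ ∧ w ∈ C p := by
    intro w
    rw [mem_val]
    constructor
    · rintro ⟨σ, p, hp, h1, rfl⟩
      obtain ⟨y, hy, h2⟩ := mem_sUnion.1 h1
      obtain ⟨p', hp', rfl⟩ := mem_img.1 hy
      obtain ⟨w, hw, h3⟩ := mem_img.1 h2
      obtain ⟨rfl, rfl⟩ := pair_inj.1 h3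
      rw [val_check hemG]
      exact ⟨p', hp, (mem_sep.1 hp').2, hw⟩
    · rintro ⟨p, hp, h1, h2⟩
      refine ⟨check w, p, hp, ?_, val_check hemG w⟩
      exact mem_sUnion.2 ⟨_, mem_img.2 ⟨p, mem_sep.2 ⟨hG.subset hp, h1⟩, rfl⟩,
        mem_img.2 ⟨w, h2, rfl⟩⟩
  have huniq : ∀ p ∈ G, ∀ q ∈ G, dom p = dom q → p = q := by
    intro p hp q hq hpq
    obtain ⟨_, hp1, _, _⟩ := mem_LV.1 (hG.subset hp)
    obtain ⟨_, hq1, _, _⟩ := mem_LV.1 (hG.subset hq)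
    ext z
    constructor
    · intro hz
      obtain ⟨x, _, y, _, rfl⟩ := mem_prod.1 (hp1 hz)
      obtain ⟨y', hy'⟩ := mem_dom.1 (hpq ▸ mem_dom.2 ⟨y, hz⟩ : x ∈ dom q)
      rw [compat hG hp hq hz hy']
      exact hy'
    · intro hz
      obtain ⟨x, _, y, _, rfl⟩ := mem_prod.1 (hq1 hz)
      obtain ⟨y', hy'⟩ := mem_dom.1 (hpq ▸ mem_dom.2 ⟨y, hz⟩ : x ∈ dom p)
      rw [compat hG hq hp hz hy']
      exact hy'
  -- values of the colouring
  have hval : ∀ p ∈ G, dom p ∈ κ → ∀ n ∈ omega, ∀ i, pair (pair (dom p) n) i ∈ val G τ ↔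
      (n ∈ Φ p ∧ i = {∅}) ∨ (n ∉ Φ p ∧ i = ∅) := by
    intro p hp hpκ n hn i
    rw [hcmem]
    constructor
    · rintro ⟨q, hq, _, h2⟩
      obtain ⟨n', hn', h3⟩ := (hCmem q _).1 h2
      rcases h3 with ⟨h3, h4⟩ | ⟨h3, h4⟩
      · obtain ⟨h5, rfl⟩ := pair_inj.1 h4
        obtain ⟨h6, rfl⟩ := pair_inj.1 h5
        rw [huniq p hp q hq h6]
        exact Or.inl ⟨h3, rfl⟩
      · obtain ⟨h5, rfl⟩ := pair_inj.1 h4
        obtain ⟨h6, rfl⟩ := pair_inj.1 h5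
        rw [huniq p hp q hq h6]
        exact Or.inr ⟨h3, rfl⟩
    · intro h1
      refine ⟨p, hp, hpκ, (hCmem p _).2 ⟨n, hn, ?_⟩⟩
      rcases h1 with ⟨h1, rfl⟩ | ⟨h1, rfl⟩
      · exact Or.inl ⟨h1, rfl⟩
      · exact Or.inr ⟨h1, rfl⟩
  intro hpol
  obtain ⟨A, _, hAκ, hAcard, B, hBN, hBω, hBinf, i, hconst⟩ := hpol (val G τ) ⟨τ, hτM, rfl⟩ (by
    rw [isFunc_iff']
    refine ⟨?_, ?_, ?_, ?_⟩
    · intro w hw
      obtain ⟨p, _, _, h1⟩ := (hcmem w).1 hw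
      obtain ⟨n, _, ⟨_, h2⟩ | ⟨_, h2⟩⟩ := (hCmem p w).1 h1
      · exact ⟨_, _, h2⟩
      · exact ⟨_, _, h2⟩
    · intro x y z hy hz
      obtain ⟨p, hp, hpκ, h1⟩ := (hcmem _).1 hy
      have hx : ∃ n ∈ omega, x = pair (dom p) n := by
        obtain ⟨n, hn, ⟨_, h2⟩ | ⟨_, h2⟩⟩ := (hCmem p _).1 h1
        · exact ⟨n, hn, (pair_inj.1 h2).1⟩
        · exact ⟨n, hn, (pair_inj.1 h2).1⟩
      obtain ⟨n, hn, rfl⟩ := hx
      rcases (hval p hp hpκ n hn y).1 hy with ⟨h2, rfl⟩ | ⟨h2, rfl⟩ <;>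
        rcases (hval p hp hpκ n hn z).1 hz with ⟨h3, rfl⟩ | ⟨h3, rfl⟩
      · rfl
      · exact absurd h2 h3
      · exact absurd h3 h2
      · rfl
    · ext x
      rw [mem_dom]
      constructor
      · rintro ⟨y, hy⟩
        obtain ⟨p, hp, hpκ, h1⟩ := (hcmem _).1 hy
        obtain ⟨n, hn, ⟨_, h2⟩ | ⟨_, h2⟩⟩ := (hCmem p _).1 h1
        · rw [(pair_inj.1 h2).1]
          exact pair_mem_prod.2 ⟨hpκ, hn⟩
        · rw [(pair_inj.1 h2).1]
          exact pair_mem_prod.2 ⟨hpκ, hn⟩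
      · intro hx
        obtain ⟨α, hα, n, hn, rfl⟩ := mem_prod.1 hx
        obtain ⟨p, hp, rfl⟩ := exists_dom hκ hl h0 hG hα
        by_cases h1 : n ∈ Φ p
        · exact ⟨{∅}, (hval p hp hα n hn _).2 (Or.inl ⟨h1, rfl⟩)⟩
        · exact ⟨∅, (hval p hp hα n hn _).2 (Or.inr ⟨h1, rfl⟩)⟩
    · intro y hy
      obtain ⟨x, hx⟩ := mem_ran.1 hy
      obtain ⟨p, hp, hpκ, h1⟩ := (hcmem _).1 hx
      obtain ⟨n, hn, ⟨_, h2⟩ | ⟨_, h2⟩⟩ := (hCmem p _).1 h1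
      · rw [(pair_inj.1 h2).2]
        simp
      · rw [(pair_inj.1 h2).2]
        simp)
  have hBM := real_mem hκ hl hG hBN hBω
  -- `B` is enumerated
  obtain ⟨ξ, ⟨hξ, hξB⟩, _⟩ := hh2 B (mem_pw.2 ⟨hBω, hBM⟩)
  obtain ⟨p1, hp1, β, hβ, hβξ⟩ := exists_val hκ hl hG hξ
  obtain ⟨γ, hγ, hβγ⟩ := hκ.succ_mem hβ
  have hnb := not_bounded hκ hl hG hAcard hγ
  obtain ⟨α, hαA, hαγ⟩ : ∃ α ∈ A, α ∉ γ := by
    by_contra hcon
    push Not at hcon
    exact hnb hcon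
  have hακ := hAκ hαA
  have hβα : β ∈ α :=
    ((hκ.ord.mem hακ).notMem_iff_subset (hκ.ord.mem hγ)).1 hαγ hβγ
  obtain ⟨p, hp, rfl⟩ := exists_dom hκ hl h0 hG hακ
  have hpP := hG.subset hp
  obtain ⟨h1, h2, h3, h4⟩ := happ p hpP β hβα
  have h5 : app p β = ξ := compat hG hp hp1 h3 hβξ
  have h6 : app h (app p β) = B := by
    rw [h5] at h4 ⊢
    exact hhsv _ _ _ h4 hξB
  have hgood := hΦ2 p hpP β hβα
  beta_reduce at hgood
  rw [h6] at hgood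
  obtain ⟨⟨n, hn1, hn2⟩, ⟨n', hn1', hn2'⟩⟩ := hgood (unb_of_infinite hBω hBinf)
  have h7 := (hval p hp hακ n (hBω hn1) i).1 (hconst _ hαA n hn1)
  have h8 := (hval p hp hακ n' (hBω hn1') i).1 (hconst _ hαA n' hn1')
  rcases h7 with ⟨_, rfl⟩ | ⟨h7, _⟩
  · rcases h8 with ⟨h8, _⟩ | ⟨_, h8⟩
    · exact hn2' h8
    · exact empty_ne h8
  · exact h7 hn2

end Pool.Agent.Work.MP_6efb98_lc
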