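import Pool.Agent.Work.MP_6efb98_lc.Alg
import Pool.Agent.Work.MP_6efb98_lc.Assemble
import Pool.Agent.Work.MP_6efb98_lc.Neg2
import Pool.Agent.Work.MP_6efb98_lc.ModelZFC

/-!
The main theorem.
-/

namespace Pool.Agent.Work.MP_6efb98_lc

open ZFSet Cardinal

theorem regO_ord {c : Cardinal.{0}} (hc : c.IsRegular) (h : ℵ₀ < c) : RegO c.ord := by
  refine ⟨?_, ?_, ?_⟩
  · rw [← ord_aleph0]
    exact ord_strictMono h
  · rw [hc.cof_ord]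
    exact h
  · intro a ha
    rw [hc.cof_ord]
    exact lt_ord.1 ha

/-- Rasiowa–Sikorski -/
theorem exists_generic {M P : Set ZFSet.{0}} (hM : M.Countable) (hne : M.Nonempty)
    {p0 : ZFSet.{0}} (hp0 : p0 ∈ P) : ∃ G, IsGeneric M P G := by
  classical
  obtain ⟨e, he⟩ := hM.exists_eq_range hne
  have hstep : ∀ (n : ℕ) (p : {p // p ∈ P}), ∃ q : {p // p ∈ P}, p.1 ⊆ q.1 ∧
      ((∃ r ∈ e n, r ∈ P ∧ p.1 ⊆ r) → q.1 ∈ e n) := by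
    intro n p
    by_cases h : ∃ r ∈ e n, r ∈ P ∧ p.1 ⊆ r
    · obtain ⟨r, hr, hrP, hpr⟩ := h
      exact ⟨⟨r, hrP⟩, hpr, fun _ => hr⟩
    · exact ⟨p, fun _ h => h, fun h' => absurd h' h⟩
  choose st hst1 hst2 using hstep
  let s : ℕ → {p // p ∈ P} := fun n => Nat.rec ⟨p0, hp0⟩ (fun n p => st n p) n
  have hs : ∀ n, s (n + 1) = st n (s n) := fun n => rfl
  have hmono : ∀ m n, m ≤ n → (s m).1 ⊆ (s n).1 := by
    intro m n h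
    induction n, h using Nat.le_induction with
    | base => exact fun _ h => h
    | succ n _ ih =>
      intro x hx
      rw [hs]
      exact hst1 n (s n) (ih hx)
  refine ⟨{q | q ∈ P ∧ ∃ n, q ⊆ (s n).1}, ?_, ?_, ?_, ?_, ?_⟩
  · exact fun q hq => hq.1
  · exact ⟨p0, hp0, 0, fun _ h => h⟩
  · rintro p ⟨_, n, hn⟩ q hq hqp
    exact ⟨hq, n, fun x hx => hn (hqp hx)⟩
  · rintro p ⟨_, n, hn⟩ q ⟨_, m, hm⟩
    refine ⟨(s (max n m)).1, ⟨(s (max n m)).2, max n m, fun _ h => h⟩, ?_, ?_⟩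
    · exact fun x hx => hmono _ _ (le_max_left _ _) (hn hx)
    · exact fun x hx => hmono _ _ (le_max_right _ _) (hm hx)
  · intro D hD hDP hDd
    rw [he] at hD
    obtain ⟨n, rfl⟩ := hD
    obtain ⟨q, hq, hpq⟩ := hDd (s n).1 (s n).2
    have h1 : (s (n + 1)).1 ∈ e n := by
      rw [hs]
      exact hst2 n (s n) ⟨q, hq, hDP q hq, hpq⟩
    exact ⟨(s (n + 1)).1, ⟨(s (n + 1)).2, n + 1, fun _ h => h⟩, h1⟩

section

variable {M : Set ZFSet.{0}} [hM : Model M]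

/-- first coordinate -/
noncomputable def fstZ (z : ZFSet.{0}) : ZFSet.{0} :=
  ⋃₀ (ZFSet.sep (fun x => BEx (fld {z}) (fun y => z = pair x y)) (fld {z}))

theorem dfn_fstZ : Dfn M fstZ := by
  unfold fstZ
  fun_prop

omit hM in
theorem fstZ_pair (x y : ZFSet.{0}) : fstZ (pair x y) = x := by
  have h0 : pair x y ∈ ({pair x y} : ZFSet.{0}) := mem_singleton.2 rfl
  have : ZFSet.sep (fun x' => BEx (fld {pair x y}) (fun y' => pair x y = pair x' y'))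
      (fld {pair x y}) = {x} := by
    ext z
    simp only [mem_sep, mem_singleton, BEx, pair_inj]
    constructor
    · rintro ⟨_, _, _, h, _⟩
      exact h.symm
    · rintro rfl
      exact ⟨left_mem_fld h0, y, right_mem_fld h0, rfl, rfl⟩
  rw [fstZ, this, sUnion_singleton]

/-- `κ` is still a cardinal in the extension -/
theorem isCardinal_ext {κ l : ZFSet.{0}} {G : Set ZFSet.{0}} (hκ : Reg M κ) (hl : l ∈ M)
    (hG : IsGeneric M {x | x ∈ LV M κ l} G) : IsCardinal (Ext M G) κ := by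
  have hempty : (∅ : ZFSet.{0}) ∈ G := by
    obtain ⟨p, hp⟩ := hG.nonempty
    exact hG.upward p hp ∅ (empty_mem_LV hκ) (ZFSet.empty_subset p)
  refine ⟨⟨check κ, inM_zf.1 (dfn_check.1 κ (inM_zf.2 hκ.mem)), val_check hempty κ⟩, hκ.ord,
    hκ.ord.subset_of_mem hκ.omega_mem, ?_⟩
  rintro α hα ⟨f, ⟨τ, hτ, rfl⟩, h1, h2⟩
  have hακ : α ⊆ κ := hκ.ord.subset_of_mem hα
  have hαM := trans_mem hκ.mem hα
  obtain ⟨Z, hZ, hZt, hZ2⟩ := exists_trans hκ.mem hκ.ord (subset_rfl : κ ⊆ κ)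
  have hSM : prod α κ ∈ M := by
    have : Dfn M (fun q : ZFSet.{0} × ZFSet.{0} => prod q.1 q.2) := by fun_prop
    exact inM_zf.1 (this.1 (α, κ) (by simp [hκ.mem, hαM]))
  have h3 := no_new hκ hl hG hα hSM hZ hZt (by
    intro z hz
    obtain ⟨x, hx, y, hy, rfl⟩ := mem_prod.1 hz
    exact hZ2 (pair_mem_prod.2 ⟨hακ hx, hy⟩)) dfn_fstZ (by
    intro z hz
    obtain ⟨x, hx, y, _, rfl⟩ := mem_prod.1 hz
    rw [fstZ_pair]
    exact hx) hτ (by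
    intro z hz z' hz' hzv hzv' h
    obtain ⟨x, hx, y, _, rfl⟩ := mem_prod.1 hz
    obtain ⟨x', hx', y', _, rfl⟩ := mem_prod.1 hz'
    rw [fstZ_pair, fstZ_pair] at h
    subst h
    rw [(h1.2 x hx).unique hzv hzv'])
  have h4 : ZFSet.sep (fun z => z ∈ val G τ) (prod α κ) = val G τ := by
    ext z
    rw [mem_sep]
    exact ⟨fun h => h.2, fun h => ⟨h1.1 h, h⟩⟩
  rw [h4] at h3
  exact (hκ.isCardinal).2.2.2 α hα ⟨_, h3, h1, h2⟩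

end

/-- the model in which `ω₂ < 𝔰` and `ω₂ < 𝔯` -/
theorem exists_good_model : ∃ M : Set ZFSet.{0}, M.Countable ∧ Model M ∧ ∃ κ μ, Reg M κ ∧
    Reg M μ ∧ μ ∈ κ ∧ Sp M κ ∧ Rp M κ := by
  classical
  have h₁ : RegO (ℵ_ (0 + 1)).ord :=
    regO_ord (isRegular_aleph_add_one 0) (by rw [← aleph_zero]; exact aleph_lt_aleph.2 (by simp))
  have h₂ : RegO (ℵ_ (1 + 1)).ord :=
    regO_ord (isRegular_aleph_add_one 1) (by rw [← aleph_zero]; exact aleph_lt_aleph.2 (by simp))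
  have h₁₂ : (ℵ_ (0 + 1)).ord < (ℵ_ (1 + 1)).ord := by
    apply ord_strictMono
    exact aleph_lt_aleph.2 (by simp)
  generalize (ℵ_ (0 + 1)).ord = θ₁ at h₁ h₁₂
  generalize (ℵ_ (1 + 1)).ord = θ₂ at h₂ h₁₂
  let K := θ₂.ToType
  have hXS : ∀ F : Ordinal.{0} → ℕ → RO (Cd (K ⊕ ℕ)), ∃ X : ℕ → RO (Cd (K ⊕ ℕ)),
      (∀ m, (⨆ n : ℕ, ⨆ _ : m ≤ n, X n) = ⊤) ∧ ∀ k < θ₂,
      (⨆ m : ℕ, ⨅ n : ℕ, ⨅ _ : m ≤ n, (X n ⇨ F k n)) ⊔
        (⨆ m : ℕ, ⨅ n : ℕ, ⨅ _ : m ≤ n, (X n ⇨ (F k n)ᶜ)) = ⊤ := by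
    intro F
    obtain ⟨X, hX1, hX2⟩ := exists_unsplit (K := K ⊕ ℕ)
      (Sum.elim (fun k : K => F (Ordinal.ToType.mk.symm k).1) (fun _ _ => ⊤))
    refine ⟨X, hX1, fun k hk => ?_⟩
    have := hX2 (Sum.inl (Ordinal.ToType.mk ⟨k, hk⟩))
    simpa using this
  have hSR : ∀ F : Ordinal.{0} → ℕ → RO (Cd (K ⊕ ℕ)), ∃ X : ℕ → RO (Cd (K ⊕ ℕ)),
      (∀ k m, (⨆ n : ℕ, ⨆ _ : m ≤ n, F k n) = ⊤) → ∀ k < θ₂, ∀ m,
      (⨆ n : ℕ, ⨆ _ : m ≤ n, F k n ⊓ X n) = ⊤ ∧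
      (⨆ n : ℕ, ⨆ _ : m ≤ n, F k n ⊓ (X n)ᶜ) = ⊤ := by
    intro F
    by_cases hF : ∀ k m, (⨆ n : ℕ, ⨆ _ : m ≤ n, F k n) = ⊤
    · obtain ⟨X, hX⟩ := exists_split (K := K) (fun k : K => F (Ordinal.ToType.mk.symm k).1)
        (fun k m => hF _ m)
      refine ⟨X, fun _ k hk m => ?_⟩
      have := hX (Ordinal.ToType.mk ⟨k, hk⟩) m
      simpa using this
    · exact ⟨fun _ => ⊥, fun h => absurd h hF⟩
  choose XS hXS1 hXS2 using hXS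
  choose SR hSR1 using hSR
  exact exists_model (B := RO (Cd (K ⊕ ℕ))) ro_ccc h₁ h₂ h₁₂ XS SR hXS1 hXS2 hSR1

/-- the main theorem -/
theorem main : ∃ M : Set ZFSet.{0}, M.Countable ∧ IsModel M ∧ ∃ κ l : ZFSet.{0},
    IsCardinal M κ ∧ (∃ μ ∈ κ, omega ∈ μ ∧ IsCardinal M μ) ∧
    (∀ α ∈ κ, ∀ f ∈ M, IsFunc α κ f → ∃ β ∈ κ, IsFunc α β f) ∧
    κ ∈ l ∧ IsContinuum M l ∧ Polarized M κ ∧
    (∃ G, IsGeneric M (Levy M κ l) G) ∧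
    ∀ G, IsGeneric M (Levy M κ l) G → IsCardinal (Ext M G) κ ∧ ¬ Polarized (Ext M G) κ := by
  obtain ⟨M, hMc, hM, κ, μ, hκ, hμ, hμκ, hS, hR⟩ := exists_good_model
  obtain ⟨l, hl, hκl, hc⟩ := exists_continuum hκ hS hR
  refine ⟨M, hMc, Model.isModel hM, κ, l, hκ.isCardinal, ⟨μ, hμκ, hμ.omega_mem, hμ.isCardinal⟩,
    ?_, hκl, hc, polarized_of_sp hκ hS, ?_, ?_⟩
  · intro α hα f hf h
    obtain ⟨h1, h2, h3, h4⟩ := isFunc_iff'.1 h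
    obtain ⟨β, hβ, h5⟩ := hκ.bdd α hα f hf h2 (by rw [h3]) h4
    exact ⟨β, hβ, isFunc_iff'.2 ⟨h1, h2, h3, h5⟩⟩
  · rw [Levy_eq hκ]
    exact exists_generic hMc ⟨κ, hκ.mem⟩ (p0 := ∅) (empty_mem_LV hκ)
  · intro G hG
    rw [Levy_eq hκ] at hG
    have h0 : (∅ : ZFSet.{0}) ∈ l := hc.1.2.1.mem_trans (subset_omega_of_mem hκ) hκl
    exact ⟨isCardinal_ext hκ hl hG, not_polarized hκ hR hl h0 hc.2 hG⟩

end Pool.Agent.Work.MP_6efb98_lc
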