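import Pool.Agent.Work.MP_6efb98_lc.Ccc

/-!
Pseudo-intersections, splitting sets and ultrafilters in the regular open algebra.
-/

namespace Pool.Agent.Work.MP_6efb98_lc

open Cd

section

variable {K : Type}

/-- the generic set at an index -/
noncomputable def gs (i : Ix K) (n : ℕ) : RO (Cd K) :=
  RO.mk' (fun p => n ∈ p.s i) (fun _ _ h hq => (hq i).1 h)

theorem mem_gs {i : Ix K} {n : ℕ} {p : Cd K} : p ∈ gs i n ↔ ∀ q ≤ p, ∃ r ≤ q, n ∈ r.s i := Iff.rfl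

theorem mem_gs_of {i : Ix K} {n : ℕ} {p : Cd K} (h : n ∈ p.s i) : p ∈ gs i n :=
  fun q hq => ⟨q, le_rfl, (hq i).1 h⟩

/-- finitely many extensions -/
theorem exists_forces {d0 : K → ℕ → Prop} {fl : Prop} {d : K → ℕ → ℕ → Prop}
    {c : K → ℕ → ℕ → Cd K} {F : K → ℕ → RO (Cd K)}
    (h2 : ∀ γ n, ∀ q ∈ F γ n, ∃ r ≤ q, ∃ j, d γ n j ∧ r ≤ c γ n j) (hfl : fl)
    (n : ℕ) (Γ : Finset K) (q : Cd K) (hq : ∀ γ ∈ Γ, q ∈ F γ n) :
    ∃ r ≤ q, ∀ γ ∈ Γ, Force r (code d0 fl d c) γ n := by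
  classical
  induction Γ using Finset.induction_on with
  | empty => exact ⟨q, le_rfl, fun γ h => absurd h (Finset.notMem_empty _)⟩
  | insert a Γ ha ih =>
    obtain ⟨r, hr, h3⟩ := ih (fun γ h => hq γ (Finset.mem_insert_of_mem h))
    obtain ⟨r', hr', j, hj, hj'⟩ := h2 a n r (RO.down (hq a (Finset.mem_insert_self a Γ)) hr)
    refine ⟨r', hr'.trans hr, fun γ hγ => ?_⟩
    rcases Finset.mem_insert.1 hγ with rfl | hγ
    · exact force_code.2 (Or.inr ⟨hfl, j, hj, hj'⟩)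
    · exact (h3 γ hγ).mono hr'

/-- families with the strong finite intersection property have a pseudo-intersection -/
theorem exists_pseudo (F : K → ℕ → RO (Cd K))
    (hF : ∀ (Γ : Finset K) (m : ℕ) (p : Cd K), ∃ q ≤ p, ∃ n, m ≤ n ∧ ∀ γ ∈ Γ, q ∈ F γ n) :
    ∃ X : ℕ → RO (Cd K), (∀ m, (⨆ n : ℕ, ⨆ _ : m ≤ n, X n) = ⊤) ∧
      ∀ γ, (⨆ m : ℕ, ⨅ n : ℕ, ⨅ _ : m ≤ n, (X n ⇨ F γ n)) = ⊤ := by
  classical
  choose d c h1 h2 using fun γ n => exists_name (F γ n)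
  let i : Ix K := code (fun _ _ => False) True d c
  have hforce : ∀ q γ n, Force q i γ n → q ∈ F γ n := by
    intro q γ n h
    rcases force_code.1 h with h | ⟨_, j, hj, hq⟩
    · exact h.elim
    · exact RO.down (h1 γ n j hj) hq
  refine ⟨gs i, fun m => ?_, fun γ => ?_⟩
  · rw [RO.eq_top_iff']
    intro p
    refine RO.mem_iSup₂.2 fun p' _ => ?_
    obtain ⟨q, hq, n, hn, h3⟩ := hF (p'.g i) m p'
    obtain ⟨r, hr, h4⟩ := exists_forces (d0 := fun _ _ => False) (fl := True) h2 trivial n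
      (p'.g i) q h3
    have h5 : am p' r (Below i) ≤ p' := am_le (hr.trans hq) i
    have h6 : ∀ γ ∈ (am p' r (Below i)).g i, Force (am p' r (Below i)) i γ n := by
      intro γ hγ
      rw [am_g_of_notMem (Below.irrefl i)] at hγ
      exact (h4 γ hγ).local (am_agree p' r (Below i)).symm
    have h7 : upd (am p' r (Below i)) i (insert n ((am p' r (Below i)).s i))
        ((am p' r (Below i)).g i) ≤ am p' r (Below i) := by
      refine upd_le (Finset.subset_insert _ _) (fun _ h => h) fun n' hn' hn'' γ hγ => ?_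
      rcases Finset.mem_insert.1 hn' with rfl | h
      · exact h6 γ hγ
      · exact absurd h hn''
    refine ⟨_, h7.trans h5, n, hn, mem_gs_of ?_⟩
    rw [upd_s_self]
    exact Finset.mem_insert_self _ _
  · rw [RO.eq_top_iff']
    intro p
    refine RO.mem_iSup.2 fun q _ => ?_
    have h3 : upd q i (q.s i) (insert γ (q.g i)) ≤ q :=
      upd_le (fun _ h => h) (Finset.subset_insert _ _) (fun n h h' => absurd h h')
    refine ⟨_, h3, (q.s i).sup id + 1, RO.mem_iInf.2 fun n => RO.mem_iInf.2 fun hn =>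
      RO.mem_himp.2 fun r hr hrX => RO.mem_iff.2 fun r' hr' => ?_⟩
    obtain ⟨t, ht, hnt⟩ := mem_gs.1 hrX r' hr'
    refine ⟨t, ht, hforce t γ n ?_⟩
    refine ((ht.trans hr').trans hr i).2.2 n hnt ?_ γ ?_
    · rw [upd_s_self]
      intro h
      have : n ≤ (q.s i).sup id := Finset.le_sup (f := id) h
      omega
    · rw [upd_g_self]
      exact Finset.mem_insert_self _ _

/-- families of infinite sets have a splitting set -/
theorem exists_split (F : K → ℕ → RO (Cd (K ⊕ ℕ)))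
    (hF : ∀ k m, (⨆ n : ℕ, ⨆ _ : m ≤ n, F k n) = ⊤) :
    ∃ X : ℕ → RO (Cd (K ⊕ ℕ)), ∀ k m, (⨆ n : ℕ, ⨆ _ : m ≤ n, F k n ⊓ X n) = ⊤ ∧
      (⨆ n : ℕ, ⨆ _ : m ≤ n, F k n ⊓ (X n)ᶜ) = ⊤ := by
  classical
  choose d c h1 h2 using fun (γ : K ⊕ ℕ) n => exists_name (Sum.elim F (fun _ _ => ⊤) γ n)
  let i : Ix (K ⊕ ℕ) := code (fun γ n => ∀ m, γ = Sum.inr m → n ≠ m) False d c
  have key : ∀ k m (p : Cd (K ⊕ ℕ)), ∃ q ≤ p, ∃ n, m ≤ n ∧ n ∉ q.s i ∧ Sum.inr n ∉ q.g i ∧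
      q ∈ F k n := by
    intro k m p
    obtain ⟨m', hm', hm1, hm2⟩ : ∃ m', m ≤ m' ∧ (∀ n ∈ p.s i, n < m') ∧
        ∀ n, Sum.inr n ∈ p.g i → n < m' := by
      refine ⟨m + ((p.s i).sup id + 1) + ((p.g i).sup (Sum.elim (fun _ => 0) id) + 1), by omega,
        fun n hn => ?_, fun n hn => ?_⟩
      · have : n ≤ (p.s i).sup id := Finset.le_sup (f := id) hn
        omega
      · have : n ≤ (p.g i).sup (Sum.elim (fun _ => 0) id) :=
          Finset.le_sup (f := Sum.elim (fun _ => 0) id) hn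
        omega
    have h3 : p ∈ (⨆ n : ℕ, ⨆ _ : m' ≤ n, F k n) := by
      rw [hF k m']
      exact RO.mem_top p
    obtain ⟨r, hr, n, hn, h4⟩ := RO.mem_iSup₂.1 h3 p le_rfl
    obtain ⟨r', hr', j, hj, h5⟩ := h2 (Sum.inl k) n r h4
    refine ⟨am p r' (Below i), am_le (hr'.trans hr) i, n, hm'.trans hn, ?_, ?_, ?_⟩
    · rw [am_s_of_notMem (Below.irrefl i)]
      intro h
      have := hm1 n h
      omega
    · rw [am_g_of_notMem (Below.irrefl i)]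
      intro h
      have := hm2 n h
      omega
    · exact RO.down (h1 (Sum.inl k) n j hj) (le_of_agree (fun j' hj' => mem_below_code hj')
        (am_agree p r' (Below i)).symm h5)
  refine ⟨gs i, fun k m => ⟨?_, ?_⟩⟩
  · rw [RO.eq_top_iff']
    intro p
    refine RO.mem_iSup₂.2 fun p' _ => ?_
    obtain ⟨q, hq, n, hn, h3, h4, h5⟩ := key k m p'
    have h6 : upd q i (insert n (q.s i)) (q.g i) ≤ q := by
      refine upd_le (Finset.subset_insert _ _) (fun _ h => h) fun n' hn' hn'' γ hγ => ?_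
      rcases Finset.mem_insert.1 hn' with rfl | h
      · refine force_code.2 (Or.inl ?_)
        rintro m' rfl rfl
        exact h4 hγ
      · exact absurd h hn''
    refine ⟨_, h6.trans hq, n, hn, RO.mem_inf.2 ⟨RO.down h5 h6, mem_gs_of ?_⟩⟩
    rw [upd_s_self]
    exact Finset.mem_insert_self _ _
  · rw [RO.eq_top_iff']
    intro p
    refine RO.mem_iSup₂.2 fun p' _ => ?_
    obtain ⟨q, hq, n, hn, h3, h4, h5⟩ := key k m p'
    have h6 : upd q i (q.s i) (insert (Sum.inr n) (q.g i)) ≤ q :=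
      upd_le (fun _ h => h) (Finset.subset_insert _ _) (fun n h h' => absurd h h')
    refine ⟨_, h6.trans hq, n, hn, RO.mem_inf.2 ⟨RO.down h5 h6, RO.mem_compl.2 fun r hr hrX => ?_⟩⟩
    obtain ⟨t, ht, hnt⟩ := mem_gs.1 hrX r le_rfl
    have h7 := ((ht.trans hr) i).2.2 n hnt (by rw [upd_s_self]; exact h3) (Sum.inr n)
      (by rw [upd_g_self]; exact Finset.mem_insert_self _ _)
    rcases force_code.1 h7 with h8 | h8
    · exact h8 n rfl rfl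
    · exact h8.1

end

section

variable {B : Type} [CompleteBooleanAlgebra B]

/-- filters on `ℕ → B` -/
structure FilB (S : Set (ℕ → B)) : Prop where
  up : ∀ x ∈ S, ∀ y, x ≤ y → y ∈ S
  inf : ∀ x ∈ S, ∀ y ∈ S, x ⊓ y ∈ S
  cof : ∀ m : ℕ, (fun n => ⨆ _ : m ≤ n, (⊤ : B)) ∈ S
  con : ∀ c : B, (fun _ => c) ∈ S → c = ⊤

theorem exists_maxFil : ∃ S : Set (ℕ → B), Maximal FilB S := by
  have h0 : FilB {x : ℕ → B | ∃ m, ∀ n, m ≤ n → x n = ⊤} := by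
    refine ⟨?_, ?_, ?_, ?_⟩
    · rintro x ⟨m, hm⟩ y hxy
      exact ⟨m, fun n hn => top_le_iff.1 ((hm n hn).symm.trans_le (hxy n))⟩
    · rintro x ⟨m, hm⟩ y ⟨m', hm'⟩
      refine ⟨max m m', fun n hn => ?_⟩
      rw [Pi.inf_apply, hm n (le_of_max_le_left hn), hm' n (le_of_max_le_right hn), inf_idem]
    · exact fun m => ⟨m, fun n hn => by simp [hn]⟩
    · rintro c ⟨m, hm⟩
      exact hm m le_rfl
  obtain ⟨S, _, hS⟩ := zorn_subset_nonempty {S : Set (ℕ → B) | FilB S} (by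
    intro C hC hch hne
    refine ⟨⋃₀ C, ⟨?_, ?_, ?_, ?_⟩, fun s hs => Set.subset_sUnion_of_mem hs⟩
    · rintro x ⟨s, hs, hx⟩ y hxy
      exact ⟨s, hs, (hC hs).up x hx y hxy⟩
    · rintro x ⟨s, hs, hx⟩ y ⟨t, ht, hy⟩
      rcases hch.total hs ht with h | h
      · exact ⟨t, ht, (hC ht).inf x (h hx) y hy⟩
      · exact ⟨s, hs, (hC hs).inf x hx y (h hy)⟩
    · intro m
      obtain ⟨s, hs⟩ := hne
      exact ⟨s, hs, (hC hs).cof m⟩
    · rintro c ⟨s, hs, hc⟩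
      exact (hC hs).con c hc) _ h0
  exact ⟨S, hS⟩

/-- extension of a maximal filter -/
theorem mem_of_maximal {S : Set (ℕ → B)} (hS : Maximal FilB S) {x : ℕ → B}
    (h : ∀ y ∈ S, ∀ c : B, (∀ n, y n ⊓ x n ≤ c) → c = ⊤) : x ∈ S := by
  have hF := hS.prop
  have h1 : FilB {z : ℕ → B | ∃ y ∈ S, y ⊓ x ≤ z} := by
    refine ⟨?_, ?_, ?_, ?_⟩
    · rintro z ⟨y, hy, h1⟩ w hw
      exact ⟨y, hy, h1.trans hw⟩
    · rintro z ⟨y, hy, h1⟩ w ⟨y', hy', h2⟩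
      refine ⟨y ⊓ y', hF.inf y hy y' hy', le_inf ?_ ?_⟩
      · exact (inf_le_inf_right x inf_le_left).trans h1
      · exact (inf_le_inf_right x inf_le_right).trans h2
    · exact fun m => ⟨_, hF.cof m, inf_le_left⟩
    · rintro c ⟨y, hy, h1⟩
      exact h y hy c fun n => h1 n
  have h2 : x ∈ {z : ℕ → B | ∃ y ∈ S, y ⊓ x ≤ z} := ⟨_, hF.cof 0, inf_le_right⟩
  exact hS.le_of_ge h1 (fun y hy => ⟨y, hy, inf_le_left⟩) h2

/-- a `B`-valued ultrafilter on `ℕ` -/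
theorem exists_ultraB : ∃ U : (ℕ → B) → B, ∀ (T : Finset (ℕ → B)) (m : ℕ),
    (⨆ n : ℕ, ⨆ _ : m ≤ n, T.inf (fun x => (x n ⊔ (U x)ᶜ) ⊓ ((x n)ᶜ ⊔ U x))) = ⊤ := by
  obtain ⟨S, hS⟩ := exists_maxFil (B := B)
  have hF := hS.prop
  let U : (ℕ → B) → B := fun x => sSup {b | (fun n => x n ⊔ bᶜ) ∈ S}
  have h1 : ∀ x, (fun n => x n ⊔ (U x)ᶜ) ∈ S := by
    intro x
    refine mem_of_maximal hS fun y hy c hc => ?_
    have h2 : U x ≤ c := by
      refine sSup_le fun b hb => ?_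
      have h3 := hF.inf _ hy _ hb
      have h4 : (fun _ => c ⊔ bᶜ) ∈ S := by
        refine hF.up _ h3 _ fun n => ?_
        have h5 : y n ⊓ x n ≤ c ⊔ bᶜ := by
          have h6 : y n ⊓ x n ≤ y n ⊓ (x n ⊔ (U x)ᶜ) := inf_le_inf_left _ le_sup_left
          exact (h6.trans (hc n)).trans le_sup_left
        calc (y ⊓ fun n => x n ⊔ bᶜ) n = y n ⊓ (x n ⊔ bᶜ) := rfl
          _ = y n ⊓ x n ⊔ y n ⊓ bᶜ := inf_sup_left _ _ _
          _ ≤ c ⊔ bᶜ := sup_le h5 (inf_le_right.trans le_sup_right)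
      have h5 := hF.con _ h4
      calc b = b ⊓ (c ⊔ bᶜ) := by rw [h5, inf_top_eq]
        _ = b ⊓ c ⊔ b ⊓ bᶜ := inf_sup_left _ _ _
        _ ≤ c := by
          rw [inf_compl_self, sup_bot_eq]
          exact inf_le_right
    refine hF.con c (hF.up y hy _ fun n => ?_)
    have h3 : y n ⊓ (U x)ᶜ ≤ c := (inf_le_inf_left _ le_sup_right).trans (hc n)
    calc y n = y n ⊓ (U x ⊔ (U x)ᶜ) := by rw [sup_compl_eq_top, inf_top_eq]
      _ = y n ⊓ U x ⊔ y n ⊓ (U x)ᶜ := inf_sup_left _ _ _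
      _ ≤ c := sup_le (inf_le_right.trans h2) h3
  have h2 : ∀ x, (fun n => (x n)ᶜ ⊔ U x) ∈ S := by
    intro x
    refine mem_of_maximal hS fun y hy c hc => ?_
    have h3 : cᶜ ≤ U x := by
      refine le_sSup (hF.up y hy _ fun n => ?_)
      have h4 : y n ⊓ (x n)ᶜ ≤ c := (inf_le_inf_left _ le_sup_left).trans (hc n)
      rw [compl_compl]
      calc y n = y n ⊓ (x n ⊔ (x n)ᶜ) := by rw [sup_compl_eq_top, inf_top_eq]
        _ = y n ⊓ x n ⊔ y n ⊓ (x n)ᶜ := inf_sup_left _ _ _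
        _ ≤ x n ⊔ c := sup_le_sup inf_le_right h4
    have h4 : ∀ n, y n ⊓ U x ≤ c := fun n => (inf_le_inf_left _ le_sup_right).trans (hc n)
    refine hF.con c (hF.up y hy _ fun n => ?_)
    have h5 : y n ⊓ (U x)ᶜ ≤ c := inf_le_right.trans (compl_le_iff_compl_le.1 h3)
    calc y n = y n ⊓ (U x ⊔ (U x)ᶜ) := by rw [sup_compl_eq_top, inf_top_eq]
      _ = y n ⊓ U x ⊔ y n ⊓ (U x)ᶜ := inf_sup_left _ _ _
      _ ≤ c := sup_le (h4 n) h5
  refine ⟨U, fun T m => ?_⟩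
  have h3 : (fun n => T.inf (fun x => (x n ⊔ (U x)ᶜ) ⊓ ((x n)ᶜ ⊔ U x))) ∈ S := by
    classical
    induction T using Finset.induction_on with
    | empty => exact hF.up _ (hF.cof 0) _ fun n => by simp
    | insert a T ha ih =>
      refine hF.up _ (hF.inf _ (hF.inf _ (h1 a) _ (h2 a)) _ ih) _ fun n => ?_
      simp only [Finset.inf_insert, Pi.inf_apply]
      exact le_rfl
  refine hF.con _ (hF.up _ (hF.inf _ (hF.cof m) _ h3) _ fun n => ?_)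
  rw [Pi.inf_apply, iSup_inf_eq]
  refine iSup_le fun hn => ?_
  rw [top_inf_eq]
  exact le_iSup₂_of_le n hn le_rfl

end

/-- unreaped sets: a set which is not split by `K` many sets -/
theorem exists_unsplit {K : Type} [Nonempty K] (F : K → ℕ → RO (Cd K)) :
    ∃ X : ℕ → RO (Cd K), (∀ m, (⨆ n : ℕ, ⨆ _ : m ≤ n, X n) = ⊤) ∧
      ∀ k, (⨆ m : ℕ, ⨅ n : ℕ, ⨅ _ : m ≤ n, (X n ⇨ F k n)) ⊔
        (⨆ m : ℕ, ⨅ n : ℕ, ⨅ _ : m ≤ n, (X n ⇨ (F k n)ᶜ)) = ⊤ := by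
  classical
  obtain ⟨U, hU⟩ := exists_ultraB (B := RO (Cd K))
  obtain ⟨X, hX1, hX2⟩ := exists_pseudo
    (fun k n => (F k n ⊔ (U (F k))ᶜ) ⊓ ((F k n)ᶜ ⊔ U (F k))) (by
    intro Γ m p
    have h1 : p ∈ (⨆ n : ℕ, ⨆ _ : m ≤ n, (Γ.image F).inf
        (fun x => (x n ⊔ (U x)ᶜ) ⊓ ((x n)ᶜ ⊔ U x))) := by
      rw [hU]
      exact RO.mem_top p
    obtain ⟨q, hq, n, hn, h2⟩ := RO.mem_iSup₂.1 h1 p le_rfl
    refine ⟨q, hq, n, hn, fun γ hγ => ?_⟩
    have h3 : (Γ.image F).inf (fun x => (x n ⊔ (U x)ᶜ) ⊓ ((x n)ᶜ ⊔ U x)) ≤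
        (F γ n ⊔ (U (F γ))ᶜ) ⊓ ((F γ n)ᶜ ⊔ U (F γ)) :=
      Finset.inf_le (f := fun x : ℕ → RO (Cd K) => (x n ⊔ (U x)ᶜ) ⊓ ((x n)ᶜ ⊔ U x))
        (Finset.mem_image_of_mem F hγ)
    exact h3 q h2)
  refine ⟨X, hX1, fun k => ?_⟩
  rw [RO.eq_top_iff']
  intro p
  refine RO.mem_sup.2 fun q hq => ?_
  have h1 : q ∈ (⨆ m : ℕ, ⨅ n : ℕ, ⨅ _ : m ≤ n,
      (X n ⇨ (F k n ⊔ (U (F k))ᶜ) ⊓ ((F k n)ᶜ ⊔ U (F k)))) := by
    rw [hX2 k]
    exact RO.mem_top q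
  obtain ⟨r, hr, m, h2⟩ := RO.mem_iSup.1 h1 q le_rfl
  simp only [RO.mem_iInf] at h2
  have h3 : r ∈ U (F k) ⊔ (U (F k))ᶜ := by
    rw [sup_compl_eq_top]
    exact RO.mem_top r
  obtain ⟨t, ht, h4 | h4⟩ := RO.mem_sup.1 h3 r le_rfl
  · refine ⟨t, ht.trans hr, Or.inl (RO.mem_iSup.2 fun t' ht' => ⟨t', le_rfl, m, ?_⟩)⟩
    simp only [RO.mem_iInf]
    intro n hn
    refine RO.mem_himp.2 fun u hu huX => ?_
    have h5 := RO.mem_himp.1 (h2 n hn) u ((hu.trans ht').trans ht) huX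
    have h6 : (F k n ⊔ (U (F k))ᶜ) ⊓ U (F k) ≤ F k n := by
      rw [inf_sup_right, compl_inf_self, sup_bot_eq]
      exact inf_le_left
    exact h6 u (RO.mem_inf.2 ⟨(RO.mem_inf.1 h5).1, RO.down h4 (hu.trans ht')⟩)
  · refine ⟨t, ht.trans hr, Or.inr (RO.mem_iSup.2 fun t' ht' => ⟨t', le_rfl, m, ?_⟩)⟩
    simp only [RO.mem_iInf]
    intro n hn
    refine RO.mem_himp.2 fun u hu huX => ?_
    have h5 := RO.mem_himp.1 (h2 n hn) u ((hu.trans ht').trans ht) huX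
    have h6 : ((F k n)ᶜ ⊔ U (F k)) ⊓ (U (F k))ᶜ ≤ (F k n)ᶜ := by
      rw [inf_sup_right, inf_compl_self, sup_bot_eq]
      exact inf_le_left
    exact h6 u (RO.mem_inf.2 ⟨(RO.mem_inf.1 h5).2, RO.down h4 (hu.trans ht')⟩)

end Pool.Agent.Work.MP_6efb98_lc
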