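import Pool.Agent.Work.MP_6efb98_lc.Poset

/-!
Countable chain condition and coding of names.
-/

namespace Pool.Agent.Work.MP_6efb98_lc

namespace Cd

variable {K : Type}

open MeasureTheory in
/-- an antichain is countable -/
theorem countable_of_incompatible (A : Set (Cd K))
    (h : ∀ p ∈ A, ∀ q ∈ A, p ≠ q → ¬ ∃ r, r ≤ p ∧ r ≤ q) : A.Countable := by
  let μ₀ : Measure ℕ := (Measure.count : Measure ℕ).toFinite
  have hμ₀ : ∀ n : ℕ, μ₀ {n} ≠ 0 := by
    intro n h0
    have h1 : (Measure.count : Measure ℕ) {n} = 0 := by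
      exact toFinite_apply_eq_zero_iff.1 h0
    simp at h1
  have : IsProbabilityMeasure μ₀ := by
    have : NeZero (Measure.count : Measure ℕ) := ⟨by
      intro h0
      have := congrArg (fun ν => ν {0}) h0
      simp at this⟩
    infer_instance
  let μ : Measure (Ix K → ℕ) := Measure.infinitePi (fun _ => μ₀)
  let box : A → Set (Ix K → ℕ) := fun p =>
    Set.pi (p.1.fin.toFinset : Set (Ix K)) (fun i => {Encodable.encode (p.1.s i)})
  have hpos : ∀ p, 0 < μ (box p) := by
    intro p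
    have : μ (box p) = ∏ i ∈ p.1.fin.toFinset, μ₀ {Encodable.encode (p.1.s i)} :=
      Measure.infinitePi_pi _ (fun i _ => measurableSet_singleton _)
    rw [this, pos_iff_ne_zero, Finset.prod_ne_zero_iff]
    exact fun i _ => hμ₀ _
  have hmeas : ∀ p, MeasurableSet (box p) := fun p =>
    MeasurableSet.pi (Finset.countable_toSet _) (fun i _ => measurableSet_singleton _)
  have hdisj : Pairwise (Function.onFun Disjoint box) := by
    intro p q hpq
    rw [Function.onFun, Set.disjoint_left]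
    intro x hx hx'
    refine h p.1 p.2 q.1 q.2 (fun h => hpq (Subtype.ext h)) ⟨un p.1 q.1, un_le fun i hi hi' => ?_⟩
    have h1 := hx i (by simpa using hi)
    have h2 := hx' i (by simpa using hi')
    simp only [Set.mem_singleton_iff] at h1 h2
    exact Encodable.encode_injective (h1.symm.trans h2)
  have h1 := Measure.countable_meas_pos_of_disjoint_iUnion (μ := μ) hmeas hdisj
  have h2 : {p : A | 0 < μ (box p)} = Set.univ := Set.eq_univ_of_forall hpos
  rw [h2, Set.countable_univ_iff, Set.countable_coe_iff] at h1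
  exact h1

/-- the list of the support -/
noncomputable def sl (p : Cd K) : List (Ix K) := p.fin.toFinset.toList

theorem mem_sl {p : Cd K} {i : Ix K} : i ∈ sl p ↔ p.s i ≠ ∅ ∨ p.g i ≠ ∅ := by
  simp [sl]

theorem le_iff_sl {p q : Cd K} : q ≤ p ↔ ∀ l < (sl p).length,
    p.s ((sl p).getD l .base) ⊆ q.s ((sl p).getD l .base) ∧
    p.g ((sl p).getD l .base) ⊆ q.g ((sl p).getD l .base) ∧
    ∀ n' ∈ q.s ((sl p).getD l .base), n' ∉ p.s ((sl p).getD l .base) →
      ∀ γ' ∈ p.g ((sl p).getD l .base), Force q ((sl p).getD l .base) γ' n' := by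
  constructor
  · exact fun h l _ => h _
  · intro h i
    by_cases hi : i ∈ sl p
    · obtain ⟨l, hl, rfl⟩ := List.getElem_of_mem hi
      have := h l hl
      rw [List.getD_eq_getElem _ _ hl] at this
      exact this
    · rw [mem_sl] at hi
      push Not at hi
      rw [hi.1, hi.2]
      exact ⟨Finset.empty_subset _, Finset.empty_subset _,
        fun n _ _ γ h => absurd h (Finset.notMem_empty _)⟩

/-- index coding a family of sequences of conditions -/
noncomputable def code (d0 : K → ℕ → Prop) (fl : Prop) (d : K → ℕ → ℕ → Prop)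
    (c : K → ℕ → ℕ → Cd K) : Ix K :=
  .mk (fun γ n k => match k with
        | 0 => d0 γ n
        | j + 1 => fl ∧ d γ n j)
      (fun γ n k => match k with
        | 0 => 0
        | j + 1 => (sl (c γ n j)).length)
      (fun γ n k l => match k with
        | 0 => .base
        | j + 1 => (sl (c γ n j)).getD l .base)
      (fun γ n k l => match k with
        | 0 => ∅
        | j + 1 => (c γ n j).s ((sl (c γ n j)).getD l .base))
      (fun γ n k l => match k with
        | 0 => ∅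
        | j + 1 => (c γ n j).g ((sl (c γ n j)).getD l .base))

theorem force_code {d0 : K → ℕ → Prop} {fl : Prop} {d : K → ℕ → ℕ → Prop}
    {c : K → ℕ → ℕ → Cd K} {q : Cd K} {γ : K} {n : ℕ} :
    Force q (code d0 fl d c) γ n ↔ d0 γ n ∨ (fl ∧ ∃ j, d γ n j ∧ q ≤ c γ n j) := by
  rw [code, Force]
  constructor
  · rintro ⟨k, hk, h⟩
    match k with
    | 0 => exact Or.inl hk
    | j + 1 => exact Or.inr ⟨hk.1, j, hk.2, le_iff_sl.2 h⟩
  · rintro (h | ⟨hfl, j, hj, h⟩)
    · exact ⟨0, h, fun l hl => absurd hl (Nat.not_lt_zero _)⟩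
    · exact ⟨j + 1, ⟨hfl, hj⟩, le_iff_sl.1 h⟩

theorem mem_below_code {d0 : K → ℕ → Prop} {fl : Prop} {d : K → ℕ → ℕ → Prop}
    {c : K → ℕ → ℕ → Cd K} {γ : K} {n j : ℕ} {i : Ix K}
    (h : (c γ n j).s i ≠ ∅ ∨ (c γ n j).g i ≠ ∅) : i ∈ Below (code d0 fl d c) := by
  rw [code, Below]
  obtain ⟨l, hl, h1⟩ := List.getElem_of_mem (mem_sl.2 h)
  refine ⟨γ, n, j + 1, l, hl, Or.inl ?_⟩
  show i = (sl (c γ n j)).getD l .base
  rw [List.getD_eq_getElem _ _ hl, h1]

theorem le_of_agree {q r c : Cd K} {i : Ix K} (hc : ∀ j, (c.s j ≠ ∅ ∨ c.g j ≠ ∅) → j ∈ Below i)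
    (h : Agree (Below i) r q) (hr : r ≤ c) : q ≤ c := by
  intro j
  by_cases hj : j ∈ Below i
  · obtain ⟨h1, h2, h3⟩ := hr j
    obtain ⟨h4, h5⟩ := h j hj
    rw [h4] at h1 h3
    rw [h5] at h2
    exact ⟨h1, h2, fun n hn hn' γ hγ => (h3 n hn hn' γ hγ).local
      (fun k hk => h k (Below.trans hk hj))⟩
  · have h1 : ¬ (c.s j ≠ ∅ ∨ c.g j ≠ ∅) := fun h => hj (hc j h)
    push Not at h1
    rw [h1.1, h1.2]
    exact ⟨Finset.empty_subset _, Finset.empty_subset _,
      fun n _ _ γ h => absurd h (Finset.notMem_empty _)⟩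

/-- countable names for regular open sets -/
theorem exists_name (U : RO (Cd K)) : ∃ (d : ℕ → Prop) (c : ℕ → Cd K),
    (∀ j, d j → c j ∈ U) ∧ ∀ q ∈ U, ∃ r ≤ q, ∃ j, d j ∧ r ≤ c j := by
  obtain ⟨A, hA⟩ := zorn_subset {A : Set (Cd K) | (∀ p ∈ A, p ∈ U) ∧
      ∀ p ∈ A, ∀ q ∈ A, p ≠ q → ¬ ∃ r, r ≤ p ∧ r ≤ q} (by
    intro C hC hch
    refine ⟨⋃₀ C, ⟨?_, ?_⟩, fun s hs => Set.subset_sUnion_of_mem hs⟩
    · rintro p ⟨s, hs, hp⟩
      exact (hC hs).1 p hp
    · rintro p ⟨s, hs, hp⟩ q ⟨t, ht, hq⟩ hpq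
      rcases hch.total hs ht with h | h
      · exact (hC ht).2 p (h hp) q hq hpq
      · exact (hC hs).2 p hp q (h hq) hpq)
  have hcount : A.Countable := countable_of_incompatible A hA.prop.2
  have hpre : ∀ q ∈ U, ∃ r ≤ q, ∃ a ∈ A, r ≤ a := by
    intro q hq
    by_contra hcon
    push Not at hcon
    have h1 : insert q A ∈ {A : Set (Cd K) | (∀ p ∈ A, p ∈ U) ∧
      ∀ p ∈ A, ∀ q ∈ A, p ≠ q → ¬ ∃ r, r ≤ p ∧ r ≤ q} := by
      refine ⟨?_, ?_⟩
      · intro p hp
        rcases Set.mem_insert_iff.1 hp with rfl | hp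
        · exact hq
        · exact hA.prop.1 p hp
      · intro p hp p' hp' hne ⟨r, hr, hr'⟩
        rcases Set.mem_insert_iff.1 hp with h1 | h1
        · rcases Set.mem_insert_iff.1 hp' with h2 | h2
          · exact hne (h1.trans h2.symm)
          · exact hcon r (h1 ▸ hr) p' h2 hr'
        · rcases Set.mem_insert_iff.1 hp' with h2 | h2
          · exact hcon r (h2 ▸ hr') p h1 hr
          · exact hA.prop.2 p h1 p' h2 hne ⟨r, hr, hr'⟩
    have h2 : q ∈ A := hA.le_of_ge h1 (Set.subset_insert q A) (Set.mem_insert q A)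
    exact hcon q le_rfl q h2 le_rfl
  rcases Set.eq_empty_or_nonempty A with hE | hE
  · obtain ⟨p0⟩ : Nonempty (Cd K) := inferInstance
    refine ⟨fun _ => False, fun _ => p0, fun j h => h.elim, fun q hq => ?_⟩
    obtain ⟨r, _, a, ha, _⟩ := hpre q hq
    rw [hE] at ha
    exact absurd ha (Set.notMem_empty _)
  · obtain ⟨e, he⟩ := hcount.exists_eq_range hE
    refine ⟨fun _ => True, e, fun j _ => hA.prop.1 _ (he ▸ Set.mem_range_self j), fun q hq => ?_⟩
    obtain ⟨r, hr, a, ha, hra⟩ := hpre q hq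
    rw [he] at ha
    obtain ⟨j, rfl⟩ := ha
    exact ⟨r, hr, j, trivial, hra⟩

end Cd

open Cd

/-- the regular open algebra is ccc -/
theorem ro_ccc {K : Type} (A : Set (RO (Cd K))) (h0 : ∀ a ∈ A, a ≠ ⊥)
    (h1 : ∀ a ∈ A, ∀ b ∈ A, a ≠ b → a ⊓ b = ⊥) : A.Countable := by
  have h2 : ∀ a : A, ∃ p, p ∈ a.1 := by
    intro a
    by_contra h
    push Not at h
    exact h0 a.1 a.2 (RO.ext fun p => ⟨fun hp => absurd hp (h p),
      fun hp => absurd hp (RO.notMem_bot p)⟩)
  choose f hf using h2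
  have h3 : ∀ a b : A, a ≠ b → ¬ ∃ r, r ≤ f a ∧ r ≤ f b := by
    rintro a b hab ⟨r, hr, hr'⟩
    have h4 : r ∈ a.1 ⊓ b.1 := RO.mem_inf.2 ⟨RO.down (hf a) hr, RO.down (hf b) hr'⟩
    rw [h1 a.1 a.2 b.1 b.2 (fun h => hab (Subtype.ext h))] at h4
    exact RO.notMem_bot r h4
  have h4 : (Set.range f).Countable := by
    apply countable_of_incompatible
    rintro _ ⟨a, rfl⟩ _ ⟨b, rfl⟩ hab
    exact h3 a b (fun h => hab (by rw [h]))
  have h5 : Function.Injective f := by
    intro a b hab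
    by_contra hne
    exact h3 a b hne ⟨f a, le_rfl, hab ▸ le_rfl⟩
  have h6 : (Set.univ : Set A).Countable := by
    apply Set.countable_of_injective_of_countable_image (f := f) h5.injOn
    rw [Set.image_univ]
    exact h4
  exact Set.countable_coe_iff.1 (Set.countable_univ_iff.1 h6)

end Pool.Agent.Work.MP_6efb98_lc
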