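import Mathlib

/-!
# Transitive models of ZFC, the Levy collapse, generic extensions, the strong polarized relation

Everything is about sets in the sense of Mathlib's `ZFSet.{0}`.
-/

namespace Pool.Agent.Work.MP_6efb98_lc

open ZFSet

/-- First-order formulas of the language of set theory whose free variables are indexed by
`Fin n`; in `ex φ` the quantified variable has index `0` in `φ`. -/
inductive Fm : ℕ → Type
  | mem {n : ℕ} (i j : Fin n) : Fm n
  | eq {n : ℕ} (i j : Fin n) : Fm n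
  | neg {n : ℕ} (φ : Fm n) : Fm n
  | and {n : ℕ} (φ ψ : Fm n) : Fm n
  | ex {n : ℕ} (φ : Fm (n + 1)) : Fm n

/-- Satisfaction of a formula in the structure `(M, ∈)` under the assignment `v`. -/
def Sat (M : Set ZFSet.{0}) : {n : ℕ} → Fm n → (Fin n → ZFSet.{0}) → Prop
  | _, .mem i j, v => v i ∈ v j
  | _, .eq i j, v => v i = v j
  | _, .neg φ, v => ¬ Sat M φ v
  | _, .and φ ψ, v => Sat M φ v ∧ Sat M ψ v
  | _, .ex φ, v => ∃ x ∈ M, Sat M φ (Fin.cons x v)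

/-- `M` is a transitive model of `ZFC` (for a transitive class the axioms of extensionality and
foundation hold automatically; the other axioms are listed in their relativised form). -/
structure IsModel (M : Set ZFSet.{0}) : Prop where
  /-- `M` is transitive -/
  transitive : ∀ x ∈ M, ∀ y ∈ x, y ∈ M
  /-- infinity: `ω ∈ M` -/
  infinity : omega ∈ M
  /-- pairing -/
  pairing : ∀ x ∈ M, ∀ y ∈ M, ({x, y} : ZFSet) ∈ M
  /-- union -/
  union : ∀ x ∈ M, (⋃₀ x : ZFSet) ∈ M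
  /-- power set: the set of all subsets of `x` that lie in `M` is in `M` -/
  powerset : ∀ x ∈ M, ZFSet.sep (fun y => y ∈ M) (ZFSet.powerset x) ∈ M
  /-- the separation scheme -/
  separation : ∀ (n : ℕ) (φ : Fm (n + 1)) (v : Fin n → ZFSet), (∀ i, v i ∈ M) → ∀ a ∈ M,
    ZFSet.sep (fun x => Sat M φ (Fin.cons x v)) a ∈ M
  /-- the replacement scheme -/
  replacement : ∀ (n : ℕ) (φ : Fm (n + 2)) (v : Fin n → ZFSet), (∀ i, v i ∈ M) → ∀ a ∈ M,
    (∀ x ∈ a, ∃! y, y ∈ M ∧ Sat M φ (Fin.cons y (Fin.cons x v))) →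
    ∃ b ∈ M, ∀ y, y ∈ b ↔ y ∈ M ∧ ∃ x ∈ a, Sat M φ (Fin.cons y (Fin.cons x v))
  /-- choice: every set of nonempty pairwise disjoint sets has a transversal -/
  choice : ∀ a ∈ M, (∀ x ∈ a, x ≠ ∅) → (∀ x ∈ a, ∀ y ∈ a, x ≠ y → x ∩ y = ∅) →
    ∃ c ∈ M, ∀ x ∈ a, ∃! y, y ∈ x ∧ y ∈ c

/-- In `N` there is a bijection from `x` onto `y`. -/
def Equinum (N : Set ZFSet.{0}) (x y : ZFSet.{0}) : Prop :=
  ∃ f ∈ N, IsFunc x y f ∧ ∀ w ∈ y, ∃! z, z ∈ x ∧ pair z w ∈ f

/-- `κ` is an infinite cardinal in the sense of `N`: an ordinal `≥ ω` that `N` does not map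
bijectively onto a smaller ordinal. -/
def IsCardinal (N : Set ZFSet.{0}) (κ : ZFSet.{0}) : Prop :=
  κ ∈ N ∧ κ.IsOrdinal ∧ omega ⊆ κ ∧ ∀ α ∈ κ, ¬ Equinum N α κ

/-- `d` has cardinality less than the cardinal `κ` in `M`: there is, in `M`, an injective function
from `d` into some `α ∈ κ`. -/
def CardLT (M : Set ZFSet.{0}) (d κ : ZFSet.{0}) : Prop :=
  ∃ α ∈ κ, ∃ f ∈ M, IsFunc d α f ∧ ∀ x y z, pair x z ∈ f → pair y z ∈ f → x = y

/-- `λ` is the cardinality of the continuum in `M`. -/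
def IsContinuum (M : Set ZFSet.{0}) (l : ZFSet.{0}) : Prop :=
  IsCardinal M l ∧ Equinum M l (ZFSet.sep (fun y => y ∈ M) (ZFSet.powerset omega))

/-- The strong polarized relation `(κ, ω) → (κ, ω)^{1,1}_2` in `N`: for every colouring
`c : κ × ω → 2` in `N` there are, in `N`, a set `A ⊆ κ` of cardinality `κ` and an infinite set
`B ⊆ ω` such that `c` is constant on `A × B`. -/
def Polarized (N : Set ZFSet.{0}) (κ : ZFSet.{0}) : Prop :=
  ∀ c ∈ N, IsFunc (prod κ omega) {∅, {∅}} c →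
    ∃ A ∈ N, A ⊆ κ ∧ Equinum N κ A ∧ ∃ B ∈ N, B ⊆ omega ∧ (B : Set ZFSet).Infinite ∧
      ∃ i, ∀ α ∈ A, ∀ n ∈ B, pair (pair α n) i ∈ c

/-- The forcing `Levy(κ, λ)` of `M`: all `p ∈ M` that are functions from a set `d ⊆ κ` of
cardinality less than `κ` (in `M`) to `λ`. The order is reverse inclusion. -/
def Levy (M : Set ZFSet.{0}) (κ l : ZFSet.{0}) : Set ZFSet.{0} :=
  {p | p ∈ M ∧ ∃ d, d ⊆ κ ∧ CardLT M d κ ∧ IsFunc d l p}

/-- `G` is a filter on the poset `P` (ordered by reverse inclusion) that meets all dense subsets of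
`P` that are in `M`. -/
structure IsGeneric (M P G : Set ZFSet.{0}) : Prop where
  subset : G ⊆ P
  nonempty : G.Nonempty
  upward : ∀ p ∈ G, ∀ q ∈ P, q ⊆ p → q ∈ G
  directed : ∀ p ∈ G, ∀ q ∈ G, ∃ r ∈ G, p ⊆ r ∧ q ⊆ r
  generic : ∀ D ∈ M, (∀ p ∈ D, p ∈ P) → (∀ p ∈ P, ∃ q ∈ D, p ⊆ q) → ∃ p ∈ G, p ∈ D

/-- The value of the name `τ` with respect to `G`: the set of the values of `σ` for all `σ` such
that `(σ, p) ∈ τ` for some `p ∈ G`. -/
noncomputable def val (G : Set ZFSet.{0}) (τ : ZFSet.{0}) : ZFSet.{0} :=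
  ZFSet.range (fun x : {x : (⋃₀ (⋃₀ τ : ZFSet) : ZFSet) // ∃ p ∈ G, pair x.1 p ∈ τ} => val G x.1.1)
termination_by τ.rank
decreasing_by
  obtain ⟨y, hy, hxy⟩ := mem_sUnion.1 x.1.2
  obtain ⟨z, hz, hyz⟩ := mem_sUnion.1 hy
  exact (rank_lt_of_mem hxy).trans ((rank_lt_of_mem hyz).trans (rank_lt_of_mem hz))

/-- The generic extension `M[G]`. -/
def Ext (M G : Set ZFSet.{0}) : Set ZFSet.{0} := {x | ∃ τ ∈ M, val G τ = x}

end Pool.Agent.Work.MP_6efb98_lc
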