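import Pool.Agent.Work.MP_6efb98_lc.Engine

/-!
Definable functions between tuple types, closed under composition; `fun_prop` set-up.
-/

namespace Pool.Agent.Work.MP_6efb98_lc

open ZFSet

/-- transitive models of ZF with the collection scheme and a form of the well-ordering theorem -/
class Model (M : Set ZFSet.{0}) : Prop where
  transitive : ∀ x ∈ M, ∀ y ∈ x, y ∈ M
  infinity : omega ∈ M
  pairing : ∀ x ∈ M, ∀ y ∈ M, ({x, y} : ZFSet) ∈ M
  union : ∀ x ∈ M, (⋃₀ x : ZFSet) ∈ M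
  powerset : ∀ x ∈ M, ZFSet.sep (fun y => y ∈ M) (ZFSet.powerset x) ∈ M
  separation : ∀ (n : ℕ) (φ : Fm (n + 1)) (v : Fin n → ZFSet), (∀ i, v i ∈ M) → ∀ a ∈ M,
    ZFSet.sep (fun x => Sat M φ (Fin.cons x v)) a ∈ M
  collection : ∀ (n : ℕ) (φ : Fm (n + 2)) (v : Fin n → ZFSet), (∀ i, v i ∈ M) → ∀ a ∈ M,
    (∀ x ∈ a, ∃ y ∈ M, Sat M φ (Fin.cons y (Fin.cons x v))) →
    ∃ b ∈ M, ∀ x ∈ a, ∃ y ∈ b, Sat M φ (Fin.cons y (Fin.cons x v))
  wo : ∀ a ∈ M, ∃ α ∈ M, α.IsOrdinal ∧ ∃ f ∈ M, (∀ z ∈ f, ∃ β ∈ α, ∃ x, z = pair β x) ∧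
    (∀ β x y, pair β x ∈ f → pair β y ∈ f → x = y) ∧ ∀ x ∈ a, ∃ β, pair β x ∈ f

/-- tuple types -/
class DT.{u} (α : Type u) where
  ι : Type
  crd : α → ι → ZFSet.{0}
  fin : Finite ι

open Classical in
noncomputable instance : DT ZFSet.{0} := ⟨Unit, fun x _ => x, inferInstance⟩
noncomputable instance {α β : Type*} [DT α] [DT β] : DT (α × β) :=
  ⟨DT.ι α ⊕ DT.ι β, fun p => Sum.elim (DT.crd p.1) (DT.crd p.2),
    haveI := DT.fin (α := α); haveI := DT.fin (α := β); inferInstance⟩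
open Classical in
noncomputable instance : DT Prop := ⟨Unit, fun p _ => if p then {∅} else ∅, inferInstance⟩
noncomputable instance : DT Unit := ⟨Empty, fun _ => Empty.elim, inferInstance⟩

universe u v w
variable {M : Set ZFSet.{0}} {α : Type u} {β : Type v} {γ : Type w} [DT α] [DT β] [DT γ]

/-- all coordinates are in `M` -/
def InM (M : Set ZFSet.{0}) (a : α) : Prop := ∀ i, DT.crd a i ∈ M

@[simp] theorem inM_zf {x : ZFSet.{0}} : InM M x ↔ x ∈ M := ⟨fun h => h (), fun h _ => h⟩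
@[simp] theorem inM_prod {p : α × β} : InM M p ↔ InM M p.1 ∧ InM M p.2 :=
  ⟨fun h => ⟨fun i => h (.inl i), fun i => h (.inr i)⟩, fun h i => i.casesOn h.1 h.2⟩
@[simp] theorem inM_unit {x : Unit} : InM M x := fun i => i.elim

/-- definable predicates -/
def DP (M : Set ZFSet.{0}) (P : α → Prop) : Prop :=
  ∃ R : (DT.ι α → ZFSet.{0}) → Prop, DefS M R ∧ ∀ a, InM M a → (P a ↔ R (DT.crd a))

/-- definable functions -/
@[fun_prop]
def Dfn (M : Set ZFSet.{0}) (f : α → β) : Prop :=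
  (∀ a, InM M a → InM M (f a)) ∧ ∀ j : DT.ι β, DP M (fun p : ZFSet.{0} × α => p.1 = DT.crd (f p.2) j)

theorem DP.congr {P Q : α → Prop} (hP : DP M P) (h : ∀ a, InM M a → (Q a ↔ P a)) : DP M Q := by
  obtain ⟨R, hR, h1⟩ := hP
  exact ⟨R, hR, fun a ha => (h a ha).trans (h1 a ha)⟩

theorem DP.neg {P : α → Prop} (hP : DP M P) : DP M (fun a => ¬ P a) := by
  obtain ⟨R, hR, h1⟩ := hP
  exact ⟨_, hR.neg, fun a ha => not_congr (h1 a ha)⟩

theorem DP.and {P Q : α → Prop} (hP : DP M P) (hQ : DP M Q) : DP M (fun a => P a ∧ Q a) := by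
  obtain ⟨R, hR, h1⟩ := hP
  obtain ⟨S, hS, h2⟩ := hQ
  exact ⟨_, hR.and hS, fun a ha => and_congr (h1 a ha) (h2 a ha)⟩

theorem DP.or {P Q : α → Prop} (hP : DP M P) (hQ : DP M Q) : DP M (fun a => P a ∨ Q a) := by
  obtain ⟨R, hR, h1⟩ := hP
  obtain ⟨S, hS, h2⟩ := hQ
  exact ⟨_, hR.or hS, fun a ha => or_congr (h1 a ha) (h2 a ha)⟩

theorem DP.imp {P Q : α → Prop} (hP : DP M P) (hQ : DP M Q) : DP M (fun a => P a → Q a) := by
  obtain ⟨R, hR, h1⟩ := hP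
  obtain ⟨S, hS, h2⟩ := hQ
  exact ⟨_, hR.imp hS, fun a ha => imp_congr (h1 a ha) (h2 a ha)⟩

theorem DP.ex {P : ZFSet.{0} × α → Prop} (hP : DP M P) : DP M (fun a => ∃ x ∈ M, P (x, a)) := by
  obtain ⟨R, hR, h1⟩ := hP
  have h2 : DefS M (fun v : Option (DT.ι α) → ZFSet.{0} =>
      R (fun i => v (Sum.elim (fun _ => none) some i))) := hR.reindex' _
  refine ⟨_, h2.ex, fun a ha => ?_⟩
  refine exists_congr fun x => and_congr_right fun hx => ?_
  rw [h1 _ (by simp [hx, ha])]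
  rw [iff_iff_eq]
  congr 1
  funext i
  rcases i with i | i
  · rfl
  · rfl

theorem DP.all {P : ZFSet.{0} × α → Prop} (hP : DP M P) : DP M (fun a => ∀ x ∈ M, P (x, a)) :=
  hP.neg.ex.neg.congr fun a _ => by simp

/-- tuple-valued existential quantification, on the level of relations -/
theorem DP.ofRel {R : (DT.ι α → ZFSet.{0}) → Prop} (hR : DefS M R) :
    DP M (fun a : α => R (DT.crd a)) := ⟨R, hR, fun _ _ => Iff.rfl⟩

/-- substitution of a definable function in a definable predicate -/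
theorem DP.comp {P : β → Prop} (hP : DP M P) {f : α → β} (hf : Dfn M f)
    (hne : Nonempty (DefS M (fun _ : DT.ι α ⊕ DT.ι β → ZFSet.{0} => True))) :
    DP M (fun a => P (f a)) := by
  obtain ⟨R, hR, h1⟩ := hP
  obtain ⟨hf1, hf2⟩ := hf
  choose S hS hS2 using hf2
  have := DT.fin (α := β)
  have h3 : DefS M (fun v : DT.ι α ⊕ DT.ι β → ZFSet.{0} =>
      ∀ j : DT.ι β, S j (fun i => v (Sum.elim (fun _ => .inr j) .inl i))) :=
    DefS.all_fin (fun j => (hS j).reindex' _) hne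
  have h4 : DefS M (fun v : DT.ι α ⊕ DT.ι β → ZFSet.{0} => R (fun i => v (.inr i))) :=
    hR.reindex' _
  refine ⟨_, (h3.and h4).exTuple, fun a ha => ?_⟩
  have key : ∀ (w : DT.ι β → ZFSet.{0}) (j : DT.ι β), w j ∈ M →
      (S j (fun i => (Sum.elim (DT.crd a) w) (Sum.elim (fun _ => .inr j) .inl i)) ↔
        w j = DT.crd (f a) j) := by
    intro w j hw
    rw [show w j = DT.crd (f a) j ↔ _ from hS2 j (w j, a) (by simp [hw, ha])]
    rw [iff_iff_eq]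
    congr 1
    funext i
    rcases i with i | i
    · rfl
    · rfl
  constructor
  · intro h
    refine ⟨DT.crd (f a), hf1 a ha, ?_, ?_⟩
    · intro j
      exact (key _ j (hf1 a ha j)).2 rfl
    · exact (h1 _ (hf1 a ha)).1 h
  · rintro ⟨w, hw, h5, h6⟩
    have : w = DT.crd (f a) := funext fun j => (key w j (hw j)).1 (h5 j)
    subst this
    exact (h1 _ (hf1 a ha)).2 h6


section basic

/-- reindexing of coordinates -/
theorem DP.eq_crd (i : DT.ι α) : DP M (fun p : ZFSet.{0} × α => p.1 = DT.crd p.2 i) :=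
  ⟨fun v => v (.inl ()) = v (.inr i), DefS.eq _ _, fun _ _ => Iff.rfl⟩

@[fun_prop]
theorem dfn_id : Dfn M (fun a : α => a) := ⟨fun _ ha => ha, fun j => DP.eq_crd j⟩

theorem DP.param {P : ZFSet.{0} × α → Prop} (hP : DP M P) {c : ZFSet.{0}} (hc : c ∈ M) :
    DP M (fun a => P (c, a)) := by
  obtain ⟨R, hR, h1⟩ := hP
  refine ⟨_, hR.reindex (κ := DT.ι α) (Sum.elim (fun _ => .inr ⟨c, hc⟩) .inl), fun a ha => ?_⟩
  beta_reduce
  rw [h1 _ (by simp [hc, ha])]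
  rw [iff_iff_eq]
  congr 1
  funext i
  rcases i with i | i
  · rfl
  · rfl

theorem DP.weaken {P : α → Prop} (hP : DP M P) : DP M (fun p : β × α => P p.2) := by
  obtain ⟨R, hR, h1⟩ := hP
  exact ⟨_, hR.reindex' Sum.inr, fun a ha => h1 _ (inM_prod.1 ha).2⟩

theorem DP.weaken' {P : α → Prop} (hP : DP M P) : DP M (fun p : α × β => P p.1) := by
  obtain ⟨R, hR, h1⟩ := hP
  exact ⟨_, hR.reindex' Sum.inl, fun a ha => h1 _ (inM_prod.1 ha).1⟩

/-- change of the tuple of variables -/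
theorem DP.reindex {P : β → Prop} (hP : DP M P) (f : α → β) (g : DT.ι β → DT.ι α)
    (h : ∀ a i, DT.crd (f a) i = DT.crd a (g i)) : DP M (fun a => P (f a)) := by
  obtain ⟨R, hR, h1⟩ := hP
  refine ⟨_, hR.reindex' g, fun a ha => ?_⟩
  beta_reduce
  rw [h1 _ (fun i => by rw [h]; exact ha _)]
  rw [iff_iff_eq]
  congr 1
  funext i
  exact h _ _

@[fun_prop]
theorem dfn_fst : Dfn M (fun p : α × β => p.1) :=
  ⟨fun _ ha => (inM_prod.1 ha).1, fun j => (DP.eq_crd (α := α × β) (Sum.inl j)).congr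
    fun _ _ => Iff.rfl⟩

@[fun_prop]
theorem dfn_snd : Dfn M (fun p : α × β => p.2) :=
  ⟨fun _ ha => (inM_prod.1 ha).2, fun j => (DP.eq_crd (α := α × β) (Sum.inr j)).congr
    fun _ _ => Iff.rfl⟩

@[fun_prop]
theorem dfn_mk {f : α → β} {g : α → γ} (hf : Dfn M f) (hg : Dfn M g) :
    Dfn M (fun a => (f a, g a)) :=
  ⟨fun a ha => inM_prod.2 ⟨hf.1 a ha, hg.1 a ha⟩, fun j => j.casesOn hf.2 hg.2⟩

theorem dfn_zf {f : α → ZFSet.{0}} : Dfn M f ↔
    (∀ a, InM M a → f a ∈ M) ∧ DP M (fun p : ZFSet.{0} × α => p.1 = f p.2) :=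
  ⟨fun h => ⟨fun a ha => inM_zf.1 (h.1 a ha), h.2 ()⟩,
    fun h => ⟨fun a ha => inM_zf.2 (h.1 a ha), fun _ => h.2⟩⟩

@[fun_prop]
theorem dfn_const {c : β} (hc : InM M c) : Dfn M (fun _ : α => c) := by
  refine ⟨fun _ _ => hc, fun j => ?_⟩
  have h : DP M (fun p : ZFSet.{0} × (ZFSet.{0} × α) => p.2.1 = p.1) :=
    ⟨fun v => v (.inr (.inl ())) = v (.inl ()), DefS.eq _ _, fun _ _ => Iff.rfl⟩
  exact (h.param (hc j)).congr fun _ _ => Iff.rfl

variable [hM : Model M]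

theorem trans_mem {x y : ZFSet.{0}} (hy : y ∈ M) (hx : x ∈ y) : x ∈ M := hM.transitive y hy x hx

theorem omega_mem : omega ∈ M := hM.infinity

theorem empty_mem : (∅ : ZFSet.{0}) ∈ M := trans_mem omega_mem omega_zero

theorem upair_mem {x y : ZFSet.{0}} (hx : x ∈ M) (hy : y ∈ M) : ({x, y} : ZFSet) ∈ M :=
  hM.pairing x hx y hy

theorem singleton_mem {x : ZFSet.{0}} (hx : x ∈ M) : ({x} : ZFSet) ∈ M := by
  simpa using upair_mem hx hx

theorem defS_true {ι : Type} : DefS M (fun _ : ι → ZFSet.{0} => True) :=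
  ⟨1, .eq 0 0, ![.inr ⟨omega, omega_mem⟩], fun v _ => by simp [Sat]⟩

theorem DP.true : DP M (fun _ : α => True) := ⟨_, defS_true, fun _ _ => Iff.rfl⟩

theorem DP.comp' {P : β → Prop} (hP : DP M P) {f : α → β} (hf : Dfn M f) :
    DP M (fun a => P (f a)) := hP.comp hf ⟨defS_true⟩

@[fun_prop]
theorem dfn_comp {g : β → γ} {f : α → β} (hg : Dfn M g) (hf : Dfn M f) :
    Dfn M (fun a => g (f a)) := by
  refine ⟨fun a ha => hg.1 _ (hf.1 a ha), fun j => ?_⟩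
  have h1 : Dfn M (fun p : ZFSet.{0} × α => (p.1, f p.2)) := by
    refine ⟨fun p hp => inM_prod.2 ⟨(inM_prod.1 hp).1, hf.1 _ (inM_prod.1 hp).2⟩, fun j => ?_⟩
    rcases j with j | j
    · exact (dfn_fst (α := ZFSet.{0}) (β := α)).2 j
    · exact (hf.2 j).reindex (α := ZFSet.{0} × (ZFSet.{0} × α)) (fun p => (p.1, p.2.2))
        (Sum.elim .inl (fun i => .inr (.inr i))) (by rintro a (i | i) <;> rfl)
  exact (hg.2 j).comp' h1

open Classical in
theorem inM_Prop {p : Prop} : InM M p := by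
  intro _
  change (if p then {∅} else ∅) ∈ M
  split
  · exact singleton_mem empty_mem
  · exact empty_mem

open Classical in
theorem crd_Prop {p : Prop} {i} : DT.crd p i = if p then {∅} else ∅ := rfl

theorem dfn_dp {P : α → Prop} : Dfn M P ↔ DP M P := by
  classical
  constructor
  · intro h
    refine ((h.2 ()).param (singleton_mem empty_mem)).congr fun a _ => ?_
    rw [crd_Prop]
    split
    · simp [*]
    · rename_i h1
      have h2 : ({∅} : ZFSet.{0}) ≠ ∅ := fun h3 => by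
        have := ZFSet.mem_singleton.2 (rfl : (∅ : ZFSet.{0}) = ∅)
        rw [h3] at this
        exact notMem_empty _ this
      simpa [h2] using h1
  · intro h
    refine ⟨fun _ _ => inM_Prop, fun j => ?_⟩
    have h1 : DP M (fun p : ZFSet.{0} × α => p.1 = {∅}) :=
      (dfn_const (α := α) (c := ({∅} : ZFSet)) (inM_zf.2 (singleton_mem empty_mem))).2 ()
    have h2 : DP M (fun p : ZFSet.{0} × α => p.1 = ∅) :=
      (dfn_const (α := α) (c := (∅ : ZFSet)) (inM_zf.2 empty_mem)).2 ()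
    refine ((h.weaken.and h1).or (h.weaken.neg.and h2)).congr fun p _ => ?_
    rw [crd_Prop]
    split <;> simp [*]

@[fun_prop]
theorem dfn_and {P Q : α → Prop} (hP : Dfn M P) (hQ : Dfn M Q) : Dfn M (fun a => P a ∧ Q a) :=
  dfn_dp.2 ((dfn_dp.1 hP).and (dfn_dp.1 hQ))

@[fun_prop]
theorem dfn_or {P Q : α → Prop} (hP : Dfn M P) (hQ : Dfn M Q) : Dfn M (fun a => P a ∨ Q a) :=
  dfn_dp.2 ((dfn_dp.1 hP).or (dfn_dp.1 hQ))

@[fun_prop]
theorem dfn_not {P : α → Prop} (hP : Dfn M P) : Dfn M (fun a => ¬ P a) :=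
  dfn_dp.2 ((dfn_dp.1 hP).neg)

theorem dfn_imp {P Q : α → Prop} (hP : Dfn M P) (hQ : Dfn M Q) : Dfn M (fun a => P a → Q a) :=
  dfn_dp.2 ((dfn_dp.1 hP).imp (dfn_dp.1 hQ))

@[fun_prop]
theorem dfn_iff {P Q : α → Prop} (hP : Dfn M P) (hQ : Dfn M Q) : Dfn M (fun a => P a ↔ Q a) := by
  simp only [iff_iff_implies_and_implies]
  exact dfn_and (dfn_imp hP hQ) (dfn_imp hQ hP)

@[fun_prop]
theorem dfn_mem {f g : α → ZFSet.{0}} (hf : Dfn M f) (hg : Dfn M g) :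
    Dfn M (fun a => f a ∈ g a) :=
  dfn_dp.2 (DP.comp' (P := fun p : ZFSet.{0} × ZFSet.{0} => p.1 ∈ p.2)
    ⟨fun v => v (Sum.inl ()) ∈ v (Sum.inr ()), DefS.mem _ _, fun _ _ => Iff.rfl⟩ (dfn_mk hf hg))

@[fun_prop]
theorem dfn_eq {f g : α → ZFSet.{0}} (hf : Dfn M f) (hg : Dfn M g) :
    Dfn M (fun a => f a = g a) :=
  dfn_dp.2 (DP.comp' (P := fun p : ZFSet.{0} × ZFSet.{0} => p.1 = p.2)
    ⟨fun v => v (Sum.inl ()) = v (Sum.inr ()), DefS.eq _ _, fun _ _ => Iff.rfl⟩ (dfn_mk hf hg))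

theorem dfn_ex {P : ZFSet.{0} → α → Prop} (hP : Dfn M (fun p : ZFSet.{0} × α => P p.1 p.2)) :
    Dfn M (fun a => ∃ x ∈ M, P x a) :=
  dfn_dp.2 ((dfn_dp.1 hP).ex)

theorem dfn_all {P : ZFSet.{0} → α → Prop} (hP : Dfn M (fun p : ZFSet.{0} × α => P p.1 p.2)) :
    Dfn M (fun a => ∀ x ∈ M, P x a) :=
  dfn_dp.2 ((dfn_dp.1 hP).all)

end basic

/-- quantifiers over `M` and bounded quantifiers, as constants (for automation) -/
def MEx (M : Set ZFSet.{0}) (p : ZFSet.{0} → Prop) : Prop := ∃ x ∈ M, p x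
def MAll (M : Set ZFSet.{0}) (p : ZFSet.{0} → Prop) : Prop := ∀ x ∈ M, p x
def BEx (s : ZFSet.{0}) (p : ZFSet.{0} → Prop) : Prop := ∃ x ∈ s, p x
def BAll (s : ZFSet.{0}) (p : ZFSet.{0} → Prop) : Prop := ∀ x ∈ s, p x
def Imp (p q : Prop) : Prop := p → q

section

variable [hM : Model M]

@[fun_prop]
theorem dfn_Imp {P Q : α → Prop} (hP : Dfn M P) (hQ : Dfn M Q) : Dfn M (fun a => Imp (P a) (Q a)) :=
  dfn_imp hP hQ

@[fun_prop]
theorem dfn_MEx {P : α → ZFSet.{0} → Prop} (hP : Dfn M (fun p : ZFSet.{0} × α => P p.2 p.1)) :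
    Dfn M (fun a => MEx M (P a)) := dfn_ex (P := fun x a => P a x) hP

@[fun_prop]
theorem dfn_MAll {P : α → ZFSet.{0} → Prop} (hP : Dfn M (fun p : ZFSet.{0} × α => P p.2 p.1)) :
    Dfn M (fun a => MAll M (P a)) := dfn_all (P := fun x a => P a x) hP

@[fun_prop]
theorem dfn_BEx {P : α → ZFSet.{0} → Prop} {f : α → ZFSet.{0}} (hf : Dfn M f)
    (hP : Dfn M (fun p : ZFSet.{0} × α => P p.2 p.1)) :
    Dfn M (fun a => BEx (f a) (P a)) := by
  have : Dfn M (fun a => MEx M (fun x => x ∈ f a ∧ P a x)) :=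
    dfn_MEx (dfn_and (dfn_mem dfn_fst (dfn_comp hf dfn_snd)) hP)
  refine dfn_dp.2 ((dfn_dp.1 this).congr fun a ha => ?_)
  constructor
  · rintro ⟨x, hx, h⟩
    exact ⟨x, trans_mem (inM_zf.1 (hf.1 a ha)) hx, hx, h⟩
  · rintro ⟨x, _, hx, h⟩
    exact ⟨x, hx, h⟩

@[fun_prop]
theorem dfn_BAll {P : α → ZFSet.{0} → Prop} {f : α → ZFSet.{0}} (hf : Dfn M f)
    (hP : Dfn M (fun p : ZFSet.{0} × α => P p.2 p.1)) :
    Dfn M (fun a => BAll (f a) (P a)) := by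
  have : Dfn M (fun a => ¬ BEx (f a) (fun x => ¬ P a x)) := dfn_not (dfn_BEx hf (dfn_not hP))
  refine dfn_dp.2 ((dfn_dp.1 this).congr fun a ha => ?_)
  simp [BAll, BEx]

example {c : ZFSet.{0}} (hc : InM M c) : Dfn M (fun p : ZFSet × ZFSet => p.1 ∈ c ∧ p.2 = p.1) := by
  fun_prop (disch := assumption)

example {c : ZFSet.{0}} (hc : InM M c) : Dfn M (fun p : ZFSet × ZFSet =>
    BEx p.1 (fun x => p.2 ∈ x ∧ MAll M (fun y => y = x ∨ p.1 ∈ c))) := by
  fun_prop (disch := assumption)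

end

end Pool.Agent.Work.MP_6efb98_lc
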