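import Pool.Agent.Work.MP_6efb98_lc.Forcing

/-!
The Levy collapse in `M` is `<κ`-distributive; hence no new small sets are added.
-/

namespace Pool.Agent.Work.MP_6efb98_lc

open ZFSet

universe u v w
variable {M : Set ZFSet.{0}}

/-- `κ` is a regular uncountable cardinal of `M`: an ordinal above `ω` such that every (partial)
function in `M` from some `α ∈ κ` to `κ` is bounded -/
structure Reg (M : Set ZFSet.{0}) (κ : ZFSet.{0}) : Prop where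
  mem : κ ∈ M
  ord : κ.IsOrdinal
  omega_mem : omega ∈ κ
  bdd : ∀ α ∈ κ, ∀ f ∈ M, Sv f → dom f ⊆ α → ran f ⊆ κ → ∃ β ∈ κ, ran f ⊆ β

/-- least element of a nonempty set of ordinals -/
theorem sInter_mem_of_ordinals {X : ZFSet.{0}} (hX : X.Nonempty) (h : ∀ x ∈ X, x.IsOrdinal) :
    (⋂₀ X : ZFSet) ∈ X ∧ ∀ x ∈ X, (⋂₀ X : ZFSet) ⊆ x := by
  have h1 : ∀ x ∈ X, (⋂₀ X : ZFSet) ⊆ x := fun x hx y hy => mem_of_mem_sInter hy hx
  refine ⟨?_, h1⟩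
  obtain ⟨x0, hx0⟩ := hX
  obtain ⟨m, hm, hmin⟩ := mem_wf.has_min {x | x ∈ X} ⟨x0, hx0⟩
  have : (⋂₀ X : ZFSet) = m := by
    apply subset_antisymm (h1 m hm)
    intro y hy
    rw [mem_sInter ⟨m, hm⟩]
    intro z hz
    have h2 : z ∉ m := hmin z hz
    exact ((h z hz).notMem_iff_subset (h m hm)).1 h2 hy
  rw [this]
  exact hm

@[fun_prop]
theorem dfn_sInter {α : Type u} [DT α] [Model M] {f : α → ZFSet.{0}} (hf : Dfn M f) :
    Dfn M (fun a => (⋂₀ (f a) : ZFSet)) := by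
  have : Dfn M (fun a => ZFSet.sep (fun y => BAll (f a) (fun z => y ∈ z)) (⋃₀ (f a) : ZFSet)) := by
    fun_prop
  exact this

variable [hM : Model M]

/-- definable choice from the nonempty subsets of a set -/
theorem exists_pick {P : ZFSet.{0}} (hP : P ∈ M) : ∃ pick : ZFSet.{0} → ZFSet.{0}, Dfn M pick ∧
    ∀ s, s ⊆ P → s.Nonempty → pick s ∈ s := by
  obtain ⟨α, hα, hαo, f, hf, hf1, hf2, hf3⟩ := hM.wo P hP
  have hαi : InM M α := inM_zf.2 hα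
  have hfi : InM M f := inM_zf.2 hf
  refine ⟨fun s => app f (⋂₀ (ZFSet.sep (fun ξ => BEx s (fun x => pair ξ x ∈ f)) α) : ZFSet),
    by fun_prop (disch := assumption), ?_⟩
  intro s hs hne
  set X := ZFSet.sep (fun ξ => BEx s (fun x => pair ξ x ∈ f)) α with hX
  have hXne : X.Nonempty := by
    obtain ⟨x, hx⟩ := hne
    obtain ⟨β, hβ⟩ := hf3 x (hs hx)
    obtain ⟨β', hβ', x', h⟩ := hf1 _ hβ
    obtain ⟨rfl, rfl⟩ := pair_inj.1 h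
    exact ⟨β, mem_sep.2 ⟨hβ', x, hx, hβ⟩⟩
  obtain ⟨h1, _⟩ := sInter_mem_of_ordinals hXne (fun x hx => hαo.mem (mem_sep.1 hx).1)
  obtain ⟨_, x, hx, h2⟩ := mem_sep.1 h1
  change app f (⋂₀ X : ZFSet) ∈ s
  rw [show app f (⋂₀ X : ZFSet) = x from Sv.app_eq (fun a b c => hf2 a b c) h2]
  exact hx

/-- the Levy collapse, as an element of `M` -/
noncomputable def LV (M : Set ZFSet.{0}) (κ l : ZFSet.{0}) : ZFSet.{0} :=
  ZFSet.sep (fun p => Sv p ∧ BEx κ (fun β => dom p ⊆ β)) (pw M (prod κ l))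

theorem LV_mem {κ l : ZFSet.{0}} (hκ : κ ∈ M) (hl : l ∈ M) : LV M κ l ∈ M := by
  have h1 : InM M κ := inM_zf.2 hκ
  have : Dfn M (fun l : ZFSet.{0} => LV M κ l) := by
    unfold LV
    fun_prop (disch := assumption)
  exact inM_zf.1 (this.1 l (inM_zf.2 hl))

omit hM in
theorem mem_LV {κ l p : ZFSet.{0}} : p ∈ LV M κ l ↔
    p ∈ M ∧ p ⊆ prod κ l ∧ Sv p ∧ ∃ β ∈ κ, dom p ⊆ β := by
  simp only [LV, mem_sep, mem_pw, BEx]
  tauto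

omit hM in
theorem subset_omega_of_mem {κ : ZFSet.{0}} (hκ : Reg M κ) : (∅ : ZFSet.{0}) ∈ κ :=
  hκ.ord.mem_trans omega_zero hκ.omega_mem

theorem empty_mem_LV {κ l : ZFSet.{0}} (hκ : Reg M κ) : (∅ : ZFSet.{0}) ∈ LV M κ l := by
  rw [mem_LV]
  refine ⟨empty_mem, empty_subset _, ?_, ∅, subset_omega_of_mem hκ, ?_⟩
  · intro x y z h
    exact absurd h (notMem_empty _)
  · intro x hx
    obtain ⟨y, hy⟩ := mem_dom.1 hx
    exact absurd hy (notMem_empty _)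

theorem max_mem {κ a b : ZFSet.{0}} (hκ : κ.IsOrdinal) (ha : a ∈ κ) (hb : b ∈ κ) :
    ∃ c ∈ κ, a ⊆ c ∧ b ⊆ c := by
  rcases (hκ.mem ha).subset_total (hκ.mem hb) with h | h
  · exact ⟨b, hb, h, subset_rfl⟩
  · exact ⟨a, ha, subset_rfl, h⟩

/-- unions of short chains of conditions -/
theorem chain_mem {κ l : ZFSet.{0}} (hκ : Reg M κ) (hl : l ∈ M) {β : ZFSet.{0}} (hβ : β ∈ κ)
    {R : ZFSet.{0} → ZFSet.{0}} (hR : Dfn M R) {p0 : ZFSet.{0}} (hp0 : p0 ∈ LV M κ l)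
    (h1 : ∀ γ ∈ β, R γ ∈ LV M κ l ∧ p0 ⊆ R γ) (h2 : ∀ γ ∈ β, ∀ γ' ∈ γ, R γ' ⊆ R γ) :
    p0 ∪ ⋃₀ (img R β) ∈ LV M κ l := by
  have hκi : InM M κ := inM_zf.2 hκ.mem
  have hβM : β ∈ M := trans_mem hκ.mem hβ
  have hp0M : p0 ∈ M := trans_mem (LV_mem hκ.mem hl) hp0
  have hβo : β.IsOrdinal := hκ.ord.mem hβ
  obtain ⟨_, hp01, hp02, b0, hb0, hb01⟩ := mem_LV.1 hp0
  have hchain : ∀ γ ∈ β, ∀ γ' ∈ β, R γ ⊆ R γ' ∨ R γ' ⊆ R γ := by
    intro γ hγ γ' hγ'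
    rcases (hβo.mem hγ).mem_trichotomous (hβo.mem hγ') with h | h | h
    · exact Or.inl (h2 γ' hγ' γ h)
    · rw [h]; exact Or.inl subset_rfl
    · exact Or.inr (h2 γ hγ γ' h)
  rw [mem_LV]
  refine ⟨?_, ?_, ?_, ?_⟩
  · have : Dfn M (fun q : ZFSet.{0} × ZFSet.{0} => q.1 ∪ ⋃₀ (img R q.2)) := by fun_prop
    exact inM_zf.1 (this.1 (p0, β) (by simp [hβM, hp0M]))
  · intro z hz
    rcases mem_union.1 hz with hz | hz
    · exact hp01 hz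
    · obtain ⟨y, hy, hzy⟩ := mem_sUnion.1 hz
      obtain ⟨γ, hγ, rfl⟩ := mem_img.1 hy
      exact (mem_LV.1 (h1 γ hγ).1).2.1 hzy
  · intro x y z hy hz
    rcases mem_union.1 hy with hy | hy <;> rcases mem_union.1 hz with hz | hz
    · exact hp02 x y z hy hz
    · obtain ⟨w, hw, hzw⟩ := mem_sUnion.1 hz
      obtain ⟨γ, hγ, rfl⟩ := mem_img.1 hw
      exact (mem_LV.1 (h1 γ hγ).1).2.2.1 x y z ((h1 γ hγ).2 hy) hzw
    · obtain ⟨w, hw, hyw⟩ := mem_sUnion.1 hy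
      obtain ⟨γ, hγ, rfl⟩ := mem_img.1 hw
      exact (mem_LV.1 (h1 γ hγ).1).2.2.1 x y z hyw ((h1 γ hγ).2 hz)
    · obtain ⟨w, hw, hyw⟩ := mem_sUnion.1 hy
      obtain ⟨γ, hγ, rfl⟩ := mem_img.1 hw
      obtain ⟨w', hw', hzw⟩ := mem_sUnion.1 hz
      obtain ⟨γ', hγ', rfl⟩ := mem_img.1 hw'
      rcases hchain γ hγ γ' hγ' with h | h
      · exact (mem_LV.1 (h1 γ' hγ').1).2.2.1 x y z (h hyw) hzw
      · exact (mem_LV.1 (h1 γ hγ).1).2.2.1 x y z hyw (h hzw)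
  · -- the bound
    have hg : Dfn M (fun γ : ZFSet.{0} => (⋂₀ (ZFSet.sep (fun b => dom (R γ) ⊆ b) κ) : ZFSet)) := by
      fun_prop (disch := assumption)
    have hg2 : Dfn M (fun β : ZFSet.{0} => graph
        (fun γ : ZFSet.{0} => (⋂₀ (ZFSet.sep (fun b => dom (R γ) ⊆ b) κ) : ZFSet)) β) := by
      fun_prop (disch := assumption)
    have hgM := inM_zf.1 (hg2.1 β (inM_zf.2 hβM))
    have hmin : ∀ γ ∈ β, (⋂₀ (ZFSet.sep (fun b => dom (R γ) ⊆ b) κ) : ZFSet) ∈ κ ∧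
        dom (R γ) ⊆ (⋂₀ (ZFSet.sep (fun b => dom (R γ) ⊆ b) κ) : ZFSet) := by
      intro γ hγ
      obtain ⟨b, hb, hb1⟩ := (mem_LV.1 (h1 γ hγ).1).2.2.2
      have := (sInter_mem_of_ordinals (X := ZFSet.sep (fun b => dom (R γ) ⊆ b) κ)
        ⟨b, mem_sep.2 ⟨hb, hb1⟩⟩ (fun x hx => hκ.ord.mem (mem_sep.1 hx).1)).1
      exact mem_sep.1 this
    obtain ⟨b1, hb1, hb2⟩ := hκ.bdd β hβ _ hgM sv_graph (by rw [dom_graph]) (by
      intro y hy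
      obtain ⟨γ, hγ⟩ := mem_ran.1 hy
      obtain ⟨hγ1, rfl⟩ := mem_graph.1 hγ
      exact (hmin γ hγ1).1)
    obtain ⟨b, hb, hb3, hb4⟩ := max_mem hκ.ord hb0 hb1
    refine ⟨b, hb, fun x hx => ?_⟩
    obtain ⟨y, hy⟩ := mem_dom.1 hx
    rcases mem_union.1 hy with hy | hy
    · exact hb3 (hb01 (mem_dom.2 ⟨y, hy⟩))
    · obtain ⟨w, hw, hyw⟩ := mem_sUnion.1 hy
      obtain ⟨γ, hγ, rfl⟩ := mem_img.1 hw
      apply hb4
      have h3 := (hmin γ hγ).2 (mem_dom.2 ⟨y, hyw⟩)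
      have h4 := hb2 (mem_ran.2 ⟨γ, mem_graph.2 ⟨hγ, rfl⟩⟩)
      exact (hκ.ord.mem hb1).mem_trans h3 h4

/-- `<κ`-distributivity in `M` -/
theorem dist {κ l : ZFSet.{0}} (hκ : Reg M κ) (hl : l ∈ M) {δ : ZFSet.{0}} (hδ : δ ∈ κ)
    {D : ZFSet.{0}} (hD : D ∈ M)
    (hdense : ∀ β ∈ δ, ∀ p ∈ LV M κ l, ∃ q ∈ LV M κ l, p ⊆ q ∧ pair β q ∈ D)
    (hopen : ∀ β ∈ δ, ∀ p ∈ LV M κ l, pair β p ∈ D → ∀ q ∈ LV M κ l, p ⊆ q → pair β q ∈ D)
    {p0 : ZFSet.{0}} (hp0 : p0 ∈ LV M κ l) :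
    ∃ r ∈ LV M κ l, p0 ⊆ r ∧ ∀ β ∈ δ, pair β r ∈ D := by
  have hPM : LV M κ l ∈ M := LV_mem hκ.mem hl
  have hPi : InM M (LV M κ l) := inM_zf.2 hPM
  have hDi : InM M D := inM_zf.2 hD
  have hp0i : InM M p0 := inM_zf.2 (trans_mem hPM hp0)
  obtain ⟨pick, hpick, hpick2⟩ := exists_pick hPM
  set F : ZFSet.{0} × ZFSet.{0} → ZFSet.{0} := fun q => pick (ZFSet.sep (fun r =>
    p0 ∪ ⋃₀ (ran q.2) ⊆ r ∧ pair q.1 r ∈ D) (LV M κ l)) with hF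
  have hFd : Dfn M F := by
    rw [hF]
    fun_prop (disch := assumption)
  set R := recF F (fun x => x) (fun _ _ h => rank_lt_of_mem h) with hRdef
  have hRd : Dfn M R := dfn_rec hFd (by fun_prop) (fun _ _ h => rank_lt_of_mem h) (recF_eq _ _ _)
  have hran : ∀ x, ran (graph R x) = img R x := by
    intro x
    ext y
    simp only [mem_ran, mem_graph, mem_img]
    exact exists_congr fun z => and_congr_right fun _ => eq_comm
  have hReq : ∀ x, R x = pick (ZFSet.sep (fun r =>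
    p0 ∪ ⋃₀ (img R x) ⊆ r ∧ pair x r ∈ D) (LV M κ l)) := by
    intro x
    rw [hRdef, recF_eq, ← hRdef, hF]
    simp only [hran]
  have hδo := hκ.ord.mem hδ
  have key : ∀ β ∈ δ, (R β ∈ LV M κ l ∧ p0 ⊆ R β) ∧ (∀ γ ∈ β, R γ ⊆ R β) ∧ pair β (R β) ∈ D := by
    intro β
    induction β using ZFSet.inductionOn with
    | h β ih =>
    intro hβ
    have hβκ : β ∈ κ := hκ.ord.mem_trans hβ hδ
    have hu := chain_mem hκ hl hβκ hRd hp0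
      (fun γ hγ => (ih γ hγ (hδo.mem_trans hγ hβ)).1)
      (fun γ hγ γ' hγ' => (ih γ hγ (hδo.mem_trans hγ hβ)).2.1 γ' hγ')
    obtain ⟨q, hq, hq1, hq2⟩ := hdense β hβ _ hu
    have h1 := hpick2 (ZFSet.sep (fun r => p0 ∪ ⋃₀ (img R β) ⊆ r ∧ pair β r ∈ D) (LV M κ l))
      sep_subset ⟨q, mem_sep.2 ⟨hq, hq1, hq2⟩⟩
    rw [← hReq] at h1
    obtain ⟨h2, h3, h4⟩ := mem_sep.1 h1
    refine ⟨⟨h2, fun x hx => h3 (mem_union.2 (Or.inl hx))⟩, fun γ hγ x hx => ?_, h4⟩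
    exact h3 (mem_union.2 (Or.inr (mem_sUnion.2 ⟨R γ, mem_img.2 ⟨γ, hγ, rfl⟩, hx⟩)))
  have hu := chain_mem hκ hl hδ hRd hp0 (fun γ hγ => (key γ hγ).1)
      (fun γ hγ γ' hγ' => (key γ hγ).2.1 γ' hγ')
  refine ⟨_, hu, fun x hx => mem_union.2 (Or.inl hx), fun β hβ => ?_⟩
  refine hopen β hβ (R β) (key β hβ).1.1 (key β hβ).2.2 _ hu fun x hx => ?_
  exact mem_union.2 (Or.inr (mem_sUnion.2 ⟨R β, mem_img.2 ⟨β, hβ, rfl⟩, hx⟩))

/-- no new small sets -/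
theorem no_new {κ l : ZFSet.{0}} (hκ : Reg M κ) (hl : l ∈ M) {G : Set ZFSet.{0}}
    (hG : IsGeneric M {x | x ∈ LV M κ l} G) {δ : ZFSet.{0}} (hδ : δ ∈ κ)
    {S Z : ZFSet.{0}} (hS : S ∈ M) (hZ : Z ∈ M) (hZt : Z.IsTransitive) (hSZ : S ⊆ Z)
    {π : ZFSet.{0} → ZFSet.{0}} (hπ : Dfn M π) (hπδ : ∀ z ∈ S, π z ∈ δ)
    {τ : ZFSet.{0}} (hτ : τ ∈ M)
    (hinj : ∀ z ∈ S, ∀ z' ∈ S, z ∈ val G τ → z' ∈ val G τ → π z = π z' → z = z') :
    ZFSet.sep (fun z => z ∈ val G τ) S ∈ M := by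
  set P := LV M κ l with hPdef
  have hPM : P ∈ M := LV_mem hκ.mem hl
  have hPi : InM M P := inM_zf.2 hPM
  have hδM : δ ∈ M := trans_mem hκ.mem hδ
  have hδi : InM M δ := inM_zf.2 hδM
  have hSi : InM M S := inM_zf.2 hS
  have hτi : InM M τ := inM_zf.2 hτ
  have hFT := dfn_FT hPM hZ
  have htruth := truth hPM hZ hZt hG
  -- the condition `r` forces `z ∈ τ`
  set E : ZFSet.{0} → ZFSet.{0} → Prop := fun r z =>
    BEx (fld τ) (fun η => BEx P (fun q => pair η q ∈ τ ∧ q ⊆ r ∧ pair r z ∈ FT P Z η)) with hE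
  have hEmono : ∀ r z r', E r z → r ⊆ r' → r' ∈ P → E r' z := by
    rintro r z r' ⟨η, hη, q, hq, h1, h2, h3⟩ hrr' hr'
    exact ⟨η, hη, q, hq, h1, fun x hx => hrr' (h2 hx), FT_mono h3 hrr' hr'⟩
  have hτM' : ∀ η ∈ fld τ, η ∈ M := fun η hη =>
    trans_mem (inM_zf.1 ((dfn_fld (dfn_id (α := ZFSet.{0}))).1 τ hτi)) hη
  have hE1 : ∀ z ∈ Z, (z ∈ val G τ ↔ ∃ r ∈ G, E r z) := by
    intro z hz
    constructor
    · intro h
      obtain ⟨η, q, hq, hηq, rfl⟩ := mem_val.1 h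
      obtain ⟨p, hp, h1⟩ := (htruth η (hτM' η (left_mem_fld hηq)) _ hz).1 rfl
      obtain ⟨r, hr, h2, h3⟩ := hG.directed p hp q hq
      exact ⟨r, hr, η, left_mem_fld hηq, q, hG.subset hq, hηq, h3, FT_mono h1 h2 (hG.subset hr)⟩
    · rintro ⟨r, hr, η, hη, q, hq, h1, h2, h3⟩
      exact mem_val.2 ⟨η, q, hG.upward r hr q hq h2, h1,
        (htruth η (hτM' η hη) z hz).2 ⟨r, hr, h3⟩⟩
  have hDd : Dfn M (fun P' : ZFSet.{0} => ZFSet.sep (fun w => BEx δ (fun β => BEx P' (fun r =>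
      w = pair β r ∧ (BEx S (fun z => π z = β ∧ E r z) ∨
        BAll P' (fun r' => Imp (r ⊆ r') (BAll S (fun z => Imp (π z = β) (¬ E r' z)))))))) (prod δ P')) := by
    rw [hE]
    fun_prop (disch := assumption)
  set D := ZFSet.sep (fun w => BEx δ (fun β => BEx P (fun r =>
      w = pair β r ∧ (BEx S (fun z => π z = β ∧ E r z) ∨
        BAll P (fun r' => Imp (r ⊆ r') (BAll S (fun z => Imp (π z = β) (¬ E r' z)))))))) (prod δ P)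
    with hD
  have hDM : D ∈ M := inM_zf.1 (hDd.1 P hPi)
  have hmemD : ∀ β r, pair β r ∈ D ↔ β ∈ δ ∧ r ∈ P ∧ ((∃ z ∈ S, π z = β ∧ E r z) ∨
      ∀ r' ∈ P, r ⊆ r' → ∀ z ∈ S, π z = β → ¬ E r' z) := by
    intro β r
    rw [hD]
    simp only [mem_sep, pair_mem_prod]
    constructor
    · rintro ⟨⟨h1, h2⟩, β', hβ', r', hr', h3, h4⟩
      obtain ⟨rfl, rfl⟩ := pair_inj.1 h3
      exact ⟨h1, h2, h4⟩
    · rintro ⟨h1, h2, h3⟩
      exact ⟨⟨h1, h2⟩, β, h1, r, h2, rfl, h3⟩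
  -- the intersection of the dense sets
  have hD2 : Dfn M (fun P' : ZFSet.{0} => ZFSet.sep (fun r => BAll δ (fun β => pair β r ∈ D)) P') := by
    have : InM M D := inM_zf.2 hDM
    fun_prop (disch := assumption)
  obtain ⟨r, hr, hrD⟩ := hG.generic _ (inM_zf.1 (hD2.1 P hPi)) (fun q hq => (mem_sep.1 hq).1) (by
    intro p hp
    obtain ⟨r, hr, h1, h2⟩ := dist hκ hl hδ hDM (by
      intro β hβ p hp
      by_cases h : ∃ r' ∈ P, p ⊆ r' ∧ ∃ z ∈ S, π z = β ∧ E r' z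
      · obtain ⟨r', hr', h1, z, hz, h2, h3⟩ := h
        exact ⟨r', hr', h1, (hmemD β r').2 ⟨hβ, hr', Or.inl ⟨z, hz, h2, h3⟩⟩⟩
      · refine ⟨p, hp, subset_rfl, (hmemD β p).2 ⟨hβ, hp, Or.inr ?_⟩⟩
        intro r' hr' h1 z hz h2 h3
        exact h ⟨r', hr', h1, z, hz, h2, h3⟩) (by
      intro β hβ p hp h1 q hq hpq
      obtain ⟨_, _, h2⟩ := (hmemD β p).1 h1
      refine (hmemD β q).2 ⟨hβ, hq, ?_⟩
      rcases h2 with ⟨z, hz, h3, h4⟩ | h2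
      · exact Or.inl ⟨z, hz, h3, hEmono _ _ _ h4 hpq hq⟩
      · exact Or.inr fun r' hr' h3 => h2 r' hr' (fun x hx => h3 (hpq hx))) hp
    exact ⟨r, mem_sep.2 ⟨hr, h2⟩, h1⟩)
  have hrD' : ∀ β ∈ δ, pair β r ∈ D := (mem_sep.1 hrD).2
  have hrP : r ∈ P := hG.subset hr
  -- the set is computed from `r`
  have hfin : Dfn M (fun S' : ZFSet.{0} => ZFSet.sep (fun z => E r z) S') := by
    have : InM M r := inM_zf.2 (trans_mem hPM hrP)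
    rw [hE]
    fun_prop (disch := assumption)
  have : ZFSet.sep (fun z => z ∈ val G τ) S = ZFSet.sep (fun z => E r z) S := by
    ext z
    simp only [mem_sep]
    refine and_congr_right fun hz => ?_
    constructor
    · intro hzv
      obtain ⟨_, _, h1⟩ := (hmemD _ _).1 (hrD' (π z) (hπδ z hz))
      rcases h1 with ⟨z', hz', h2, h3⟩ | h1
      · have h4 : z' ∈ val G τ := (hE1 z' (hSZ hz')).2 ⟨r, hr, h3⟩
        rw [hinj z hz z' hz' hzv h4 h2.symm]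
        exact h3
      · exfalso
        obtain ⟨r1, hr1, h2⟩ := (hE1 z (hSZ hz)).1 hzv
        obtain ⟨r2, hr2, h3, h4⟩ := hG.directed r hr r1 hr1
        exact h1 r2 (hG.subset hr2) h3 z hz rfl (hEmono _ _ _ h2 h4 (hG.subset hr2))
    · intro h
      exact (hE1 z (hSZ hz)).2 ⟨r, hr, h⟩
  rw [this]
  exact inM_zf.1 (hfin.1 S hSi)

end Pool.Agent.Work.MP_6efb98_lc
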