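import Pool.Agent.Work.MP_6efb98_lc.Defs

/-!
Definability over a transitive model, with parameters; automation by `fun_prop`.
-/

namespace Pool.Agent.Work.MP_6efb98_lc

open ZFSet

/-- substitution of variables -/
def Fm.rename : {n : ℕ} → Fm n → {m : ℕ} → (Fin n → Fin m) → Fm m
  | _, .mem i j, _, f => .mem (f i) (f j)
  | _, .eq i j, _, f => .eq (f i) (f j)
  | _, .neg φ, _, f => .neg (φ.rename f)
  | _, .and φ ψ, _, f => .and (φ.rename f) (ψ.rename f)
  | _, .ex φ, _, f => .ex (φ.rename (Fin.cons 0 (fun i => (f i).succ)))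

theorem sat_rename (M : Set ZFSet.{0}) {n : ℕ} (φ : Fm n) : ∀ {m : ℕ} (f : Fin n → Fin m)
    (v : Fin m → ZFSet.{0}), Sat M (φ.rename f) v ↔ Sat M φ (fun i => v (f i)) := by
  induction φ with
  | mem i j => intro m f v; rfl
  | eq i j => intro m f v; rfl
  | neg φ ih => intro m f v; simp only [Fm.rename, Sat, ih]
  | and φ ψ ih1 ih2 => intro m f v; simp only [Fm.rename, Sat, ih1, ih2]
  | ex φ ih =>
    intro m f v
    simp only [Fm.rename, Sat, ih]
    refine exists_congr fun x => and_congr_right fun _ => ?_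
    rw [iff_iff_eq]
    congr 1
    funext i
    refine Fin.cases ?_ (fun i => ?_) i
    · simp
    · simp

variable {M : Set ZFSet.{0}}

/-- definable (with parameters from `M`) sets of tuples -/
def DefS (M : Set ZFSet.{0}) {ι : Type} (R : (ι → ZFSet.{0}) → Prop) : Prop :=
  ∃ (n : ℕ) (φ : Fm n) (s : Fin n → ι ⊕ {x // x ∈ M}), ∀ v : ι → ZFSet.{0}, (∀ i, v i ∈ M) →
    (R v ↔ Sat M φ (fun i => Sum.elim v Subtype.val (s i)))

namespace DefS

variable {ι κ : Type}

theorem congr {R S : (ι → ZFSet.{0}) → Prop} (hR : DefS M R)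
    (h : ∀ v : ι → ZFSet.{0}, (∀ i, v i ∈ M) → (S v ↔ R v)) : DefS M S := by
  obtain ⟨n, φ, s, hs⟩ := hR
  exact ⟨n, φ, s, fun v hv => (h v hv).trans (hs v hv)⟩

theorem mem (i j : ι) : DefS M (fun v => v i ∈ v j) :=
  ⟨2, .mem 0 1, ![.inl i, .inl j], fun v _ => by simp [Sat]⟩

theorem eq (i j : ι) : DefS M (fun v => v i = v j) :=
  ⟨2, .eq 0 1, ![.inl i, .inl j], fun v _ => by simp [Sat]⟩

theorem neg {R : (ι → ZFSet.{0}) → Prop} (hR : DefS M R) : DefS M (fun v => ¬ R v) := by
  obtain ⟨n, φ, s, hs⟩ := hR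
  exact ⟨n, .neg φ, s, fun v hv => not_congr (hs v hv)⟩

theorem and {R S : (ι → ZFSet.{0}) → Prop} (hR : DefS M R) (hS : DefS M S) :
    DefS M (fun v => R v ∧ S v) := by
  obtain ⟨n, φ, s, hs⟩ := hR
  obtain ⟨m, ψ, t, ht⟩ := hS
  refine ⟨n + m, .and (φ.rename (Fin.castAdd m)) (ψ.rename (Fin.natAdd n)), Fin.append s t,
    fun v hv => ?_⟩
  simp only [Sat, sat_rename, Fin.append_left, Fin.append_right]
  exact and_congr (hs v hv) (ht v hv)

theorem or {R S : (ι → ZFSet.{0}) → Prop} (hR : DefS M R) (hS : DefS M S) :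
    DefS M (fun v => R v ∨ S v) :=
  (hR.neg.and hS.neg).neg.congr fun v _ => by tauto

theorem imp {R S : (ι → ZFSet.{0}) → Prop} (hR : DefS M R) (hS : DefS M S) :
    DefS M (fun v => R v → S v) :=
  (hR.and hS.neg).neg.congr fun v _ => by tauto

theorem ex {R : (Option ι → ZFSet.{0}) → Prop} (hR : DefS M R) :
    DefS M (fun v => ∃ x ∈ M, R (fun o => o.elim x v)) := by
  classical
  by_cases hM : ∃ d, d ∈ M
  swap
  · by_cases hι : Nonempty ι
    · obtain ⟨i⟩ := hι
      exact ⟨1, .mem 0 0, ![.inl i], fun v hv => absurd ⟨_, hv i⟩ hM⟩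
    · have : ∀ (v : ι → ZFSet.{0}), ¬ ∃ x ∈ M, R (fun o => o.elim x v) := fun v ⟨x, hx, _⟩ =>
        hM ⟨x, hx⟩
      refine ⟨0, .ex (.eq 0 0), Fin.elim0, fun v _ => ?_⟩
      simp only [this, Sat, false_iff]
      rintro ⟨x, hx, _⟩
      exact hM ⟨x, hx⟩
  obtain ⟨d, hd⟩ := hM
  obtain ⟨n, φ, s, hs⟩ := hR
  let g : Fin n → Fin (n + 1) := fun i => if s i = .inl none then 0 else i.succ
  let u : Option ι ⊕ {x // x ∈ M} → ι ⊕ {x // x ∈ M} :=
    Sum.elim (fun o => o.elim (.inr ⟨d, hd⟩) .inl) .inr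
  let t : Fin n → ι ⊕ {x // x ∈ M} := fun i => u (s i)
  refine ⟨n, .ex (φ.rename g), t, fun v hv => ?_⟩
  simp only [Sat, sat_rename]
  refine exists_congr fun x => and_congr_right fun hx => ?_
  rw [hs _ (by rintro (_ | i); exacts [hx, hv i])]
  rw [iff_iff_eq]
  congr 1
  funext i
  simp only [g, t, u]
  rcases h : s i with (_ | j) | c <;> simp [h]

theorem reindex {R : (ι → ZFSet.{0}) → Prop} (hR : DefS M R) (f : ι → κ ⊕ {x // x ∈ M}) :
    DefS M (fun v : κ → ZFSet.{0} => R (fun i => Sum.elim v Subtype.val (f i))) := by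
  obtain ⟨n, φ, s, hs⟩ := hR
  refine ⟨n, φ, fun i => Sum.elim f Sum.inr (s i), fun v hv => ?_⟩
  beta_reduce
  rw [hs]
  · rw [iff_iff_eq]
    congr 1
    funext i
    rcases s i with j | c <;> simp
  · intro i
    rcases f i with j | c
    · exact hv j
    · exact c.2

theorem reindex' {R : (ι → ZFSet.{0}) → Prop} (hR : DefS M R) (f : ι → κ) :
    DefS M (fun v : κ → ZFSet.{0} => R (fun i => v (f i))) :=
  hR.reindex (fun i => .inl (f i))

/-- quantification over finite tuples -/
theorem exTuple [Finite κ] : ∀ {ι : Type} {R : (ι ⊕ κ → ZFSet.{0}) → Prop}, DefS M R →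
    DefS M (fun v : ι → ZFSet.{0} => ∃ w : κ → ZFSet.{0}, (∀ k, w k ∈ M) ∧ R (Sum.elim v w)) := by
  refine Finite.induction_empty_option (P := fun κ => ∀ {ι : Type}
    {R : (ι ⊕ κ → ZFSet.{0}) → Prop}, DefS M R →
    DefS M (fun v : ι → ZFSet.{0} => ∃ w : κ → ZFSet.{0}, (∀ k, w k ∈ M) ∧ R (Sum.elim v w)))
    ?_ ?_ ?_ κ
  · intro α β e ih ι R hR
    refine (ih (hR.reindex' (Sum.map id e.symm))).congr fun v hv => ?_
    constructor
    · rintro ⟨w, hw, h⟩
      refine ⟨fun k => w (e k), fun k => hw _, ?_⟩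
      convert h using 2 with i
      rcases i with i | k <;> simp
    · rintro ⟨w, hw, h⟩
      refine ⟨fun k => w (e.symm k), fun k => hw _, ?_⟩
      convert h using 2 with i
      rcases i with i | k <;> simp
  · intro ι R hR
    refine (hR.reindex' (Sum.elim id PEmpty.elim)).congr fun v hv => ?_
    constructor
    · rintro ⟨w, _, h⟩
      convert h using 2 with i
      rcases i with i | k
      · rfl
      · exact k.elim
    · intro h
      refine ⟨PEmpty.elim, fun k => k.elim, ?_⟩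
      convert h using 2 with i
      rcases i with i | k
      · rfl
      · exact k.elim
  · intro α _ ih ι R hR
    have h1 := hR.reindex' (κ := (Option ι) ⊕ α) (Sum.elim (fun i => .inl (some i))
      (fun o => o.elim (.inl none) .inr))
    refine (ih h1).ex.congr fun v hv => ?_
    constructor
    · rintro ⟨w, hw, h⟩
      refine ⟨w none, hw none, fun k => w (some k), fun k => hw _, ?_⟩
      convert h using 2 with i
      rcases i with i | (_ | k) <;> simp
    · rintro ⟨x, hx, w, hw, h⟩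
      refine ⟨fun o => o.elim x w, ?_, ?_⟩
      · rintro (_ | k)
        exacts [hx, hw k]
      · convert h using 2 with i
        rcases i with i | (_ | k) <;> simp

/-- finite conjunctions -/
theorem all_fin [Finite κ] {R : κ → (ι → ZFSet.{0}) → Prop} (hR : ∀ k, DefS M (R k))
    (hne : Nonempty (DefS M (fun _ : ι → ZFSet.{0} => True))) :
    DefS M (fun v => ∀ k, R k v) := by
  cases nonempty_fintype κ
  have : ∀ s : Finset κ, DefS M (fun v => ∀ k ∈ s, R k v) := by
    classical
    intro s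
    induction s using Finset.induction_on with
    | empty => exact hne.some.congr fun v _ => by simp
    | insert a s _ ih => exact ((hR a).and ih).congr fun v _ => by simp
  exact (this Finset.univ).congr fun v _ => by simp

end DefS

end Pool.Agent.Work.MP_6efb98_lc
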