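import Pool.Agent.Work.MP_6efb98_lc.Rec

/-!
Forcing with a poset `P ∈ M` of sets ordered by reverse inclusion: a relation, definable in `M`,
that describes when a name is forced to be equal to a given element of a transitive set `Z ∈ M`.
-/

namespace Pool.Agent.Work.MP_6efb98_lc

open ZFSet

universe u v w
variable {M : Set ZFSet.{0}}

theorem rank_lt_of_mem_fld {x y : ZFSet.{0}} (h : y ∈ fld x) : y.rank < x.rank := by
  obtain ⟨z, hz, hyz⟩ := mem_sUnion.1 h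
  obtain ⟨w, hw, hzw⟩ := mem_sUnion.1 hz
  exact (rank_lt_of_mem hyz).trans ((rank_lt_of_mem hzw).trans (rank_lt_of_mem hw))

/-- a function defined by recursion -/
noncomputable def recF (F : ZFSet.{0} × ZFSet.{0} → ZFSet.{0}) (ext : ZFSet.{0} → ZFSet.{0})
    (hr : ∀ x, ∀ y ∈ ext x, y.rank < x.rank) (x : ZFSet.{0}) : ZFSet.{0} :=
  F (x, ZFSet.range (fun y : {y // y ∈ ext x} => pair y.1 (recF F ext hr y.1)))
termination_by x.rank
decreasing_by exact hr x y.1 y.2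

theorem recF_eq (F : ZFSet.{0} × ZFSet.{0} → ZFSet.{0}) (ext : ZFSet.{0} → ZFSet.{0})
    (hr : ∀ x, ∀ y ∈ ext x, y.rank < x.rank) (x : ZFSet.{0}) :
    recF F ext hr x = F (x, graph (recF F ext hr) (ext x)) := by
  rw [recF]
  rfl

theorem mem_val {G : Set ZFSet.{0}} {x τ : ZFSet.{0}} :
    x ∈ val G τ ↔ ∃ σ p, p ∈ G ∧ pair σ p ∈ τ ∧ val G σ = x := by
  rw [val]
  rw [mem_range]
  constructor
  · rintro ⟨⟨⟨σ, h1⟩, p, hp, h2⟩, rfl⟩
    exact ⟨σ, p, hp, h2, rfl⟩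
  · rintro ⟨σ, p, hp, h2, rfl⟩
    exact ⟨⟨⟨σ, left_mem_fld h2⟩, p, hp, h2⟩, rfl⟩

section check

/-- canonical names -/
noncomputable def check : ZFSet.{0} → ZFSet.{0} :=
  recF (fun q => img (fun y => pair (app q.2 y) ∅) q.1) (fun x => x) (fun _ _ h => rank_lt_of_mem h)

theorem check_eq (x : ZFSet.{0}) : check x = img (fun y => pair (check y) ∅) x := by
  rw [check, recF_eq]
  ext p
  simp only [mem_img]
  refine exists_congr fun y => and_congr_right fun hy => ?_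
  rw [app_graph hy]

theorem dfn_check [Model M] : Dfn M check := by
  refine dfn_rec (F := fun q => img (fun y => pair (app q.2 y) ∅) q.1) (ext := fun x => x) ?_
    (by fun_prop) (fun _ _ h => rank_lt_of_mem h) (recF_eq _ _ _)
  have h0 : InM M (∅ : ZFSet.{0}) := inM_empty
  fun_prop (disch := assumption)

theorem val_check {G : Set ZFSet.{0}} (h : ∅ ∈ G) (x : ZFSet.{0}) : val G (check x) = x := by
  induction x using ZFSet.inductionOn with
  | h x ih =>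
    ext y
    rw [mem_val, check_eq]
    simp only [mem_img, pair_inj]
    constructor
    · rintro ⟨σ, p, _, ⟨z, hz, rfl, rfl⟩, rfl⟩
      rw [ih z hz]
      exact hz
    · intro hy
      exact ⟨_, _, h, ⟨y, hy, rfl, rfl⟩, ih y hy⟩

end check

section T

variable (P Z : ZFSet.{0})

/-- first half of the forcing relation -/
def condA (P p z σ t : ZFSet.{0}) : Prop :=
  BAll (fld σ) (fun η => BAll P (fun q => Imp (pair η q ∈ σ) (BAll P (fun r =>
    Imp (p ⊆ r ∧ q ⊆ r) (BEx P (fun r' => r ⊆ r' ∧ BEx z (fun y => pair r' y ∈ app t η)))))))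

/-- second half of the forcing relation -/
def condB (P p z σ t : ZFSet.{0}) : Prop :=
  BAll z (fun y => BAll P (fun r => Imp (p ⊆ r) (BEx P (fun r' => r ⊆ r' ∧
    BEx (fld σ) (fun η => BEx P (fun q => pair η q ∈ σ ∧ q ⊆ r' ∧ pair r' y ∈ app t η))))))

/-- the recursion step of the forcing relation -/
noncomputable def stepT (q : ZFSet.{0} × ZFSet.{0}) : ZFSet.{0} :=
  ZFSet.sep (fun w => BEx P (fun p => BEx Z (fun z => w = pair p z ∧
    condA P p z q.1 q.2 ∧ condB P p z q.1 q.2))) (prod P Z)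

/-- the forcing relation: the set of `(p, z)` such that `p` forces `σ = ž` -/
noncomputable def FT : ZFSet.{0} → ZFSet.{0} :=
  recF (stepT P Z) fld (fun _ _ h => rank_lt_of_mem_fld h)

variable {P Z}

theorem dfn_FT [Model M] (hP : P ∈ M) (hZ : Z ∈ M) : Dfn M (FT P Z) := by
  refine dfn_rec (F := stepT P Z) (ext := fld) ?_ (by fun_prop)
    (fun _ _ h => rank_lt_of_mem_fld h) (recF_eq _ _ _)
  have h1 : InM M P := inM_zf.2 hP
  have h2 : InM M Z := inM_zf.2 hZ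
  unfold stepT condA condB
  fun_prop (disch := assumption)

theorem mem_FT {p z σ : ZFSet.{0}} : pair p z ∈ FT P Z σ ↔ p ∈ P ∧ z ∈ Z ∧
    (∀ η, ∀ q ∈ P, pair η q ∈ σ → ∀ r ∈ P, p ⊆ r → q ⊆ r → ∃ r' ∈ P, r ⊆ r' ∧ ∃ y ∈ z,
      pair r' y ∈ FT P Z η) ∧
    (∀ y ∈ z, ∀ r ∈ P, p ⊆ r → ∃ r' ∈ P, r ⊆ r' ∧ ∃ η, ∃ q ∈ P, pair η q ∈ σ ∧ q ⊆ r' ∧
      pair r' y ∈ FT P Z η) := by
  rw [FT, recF_eq, ← FT, stepT]
  simp only [mem_sep, pair_mem_prod, BEx, pair_inj]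
  have hA : condA P p z σ (graph (FT P Z) (fld σ)) ↔
    (∀ η, ∀ q ∈ P, pair η q ∈ σ → ∀ r ∈ P, p ⊆ r → q ⊆ r → ∃ r' ∈ P, r ⊆ r' ∧ ∃ y ∈ z,
      pair r' y ∈ FT P Z η) := by
    constructor
    · intro h η q hq hσ r hr hpr hqr
      obtain ⟨r', hr', h1, y, hy, h2⟩ := h η (left_mem_fld hσ) q hq hσ r hr ⟨hpr, hqr⟩
      rw [app_graph (left_mem_fld hσ)] at h2
      exact ⟨r', hr', h1, y, hy, h2⟩
    · intro h η hη q hq hσ r hr hpr
      obtain ⟨r', hr', h1, y, hy, h2⟩ := h η q hq hσ r hr hpr.1 hpr.2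
      rw [← app_graph (R := FT P Z) hη] at h2
      exact ⟨r', hr', h1, y, hy, h2⟩
  have hB : condB P p z σ (graph (FT P Z) (fld σ)) ↔
    (∀ y ∈ z, ∀ r ∈ P, p ⊆ r → ∃ r' ∈ P, r ⊆ r' ∧ ∃ η, ∃ q ∈ P, pair η q ∈ σ ∧ q ⊆ r' ∧
      pair r' y ∈ FT P Z η) := by
    constructor
    · intro h y hy r hr hpr
      obtain ⟨r', hr', h1, η, hη, q, hq, hσ, h2, h3⟩ := h y hy r hr hpr
      rw [app_graph hη] at h3
      exact ⟨r', hr', h1, η, q, hq, hσ, h2, h3⟩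
    · intro h y hy r hr hpr
      obtain ⟨r', hr', h1, η, q, hq, hσ, h2, h3⟩ := h y hy r hr hpr
      rw [← app_graph (R := FT P Z) (left_mem_fld hσ)] at h3
      exact ⟨r', hr', h1, η, left_mem_fld hσ, q, hq, hσ, h2, h3⟩
  constructor
  · rintro ⟨⟨hp, hz⟩, p', hp', z', hz', ⟨rfl, rfl⟩, h1, h2⟩
    exact ⟨hp, hz, hA.1 h1, hB.1 h2⟩
  · rintro ⟨hp, hz, h1, h2⟩
    exact ⟨⟨hp, hz⟩, p, hp, z, hz, ⟨rfl, rfl⟩, hA.2 h1, hB.2 h2⟩

theorem FT_mono {p q z σ : ZFSet.{0}} (h : pair p z ∈ FT P Z σ) (hpq : p ⊆ q) (hq : q ∈ P) :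
    pair q z ∈ FT P Z σ := by
  rw [mem_FT] at h ⊢
  obtain ⟨hp, hz, h1, h2⟩ := h
  refine ⟨hq, hz, ?_, ?_⟩
  · intro η s hs hσ r hr hqr hsr
    exact h1 η s hs hσ r hr (fun x hx => hqr (hpq hx)) hsr
  · intro y hy r hr hqr
    exact h2 y hy r hr (fun x hx => hqr (hpq hx))

variable [Model M] {G : Set ZFSet.{0}}

/-- density below a condition -/
theorem generic_below (hP : P ∈ M) (hG : IsGeneric M {x | x ∈ P} G) {D : ZFSet.{0}} (hD : D ∈ M)
    {p : ZFSet.{0}} (hp : p ∈ G)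
    (hd : ∀ r ∈ P, p ⊆ r → ∃ q ∈ D, q ∈ P ∧ r ⊆ q) : ∃ q ∈ G, q ∈ D := by
  have hpP : p ∈ P := hG.subset hp
  have hPi : InM M P := inM_zf.2 hP
  have hDi : InM M D := inM_zf.2 hD
  have hpi : InM M p := inM_zf.2 (trans_mem hP hpP)
  -- `D' = {q ∈ P : q ∈ D, or q is incompatible with p}`
  have h1 : Dfn M (fun p : ZFSet.{0} => ZFSet.sep (fun q => q ∈ D ∨
      ¬ BEx P (fun r => p ⊆ r ∧ q ⊆ r)) P) := by
    fun_prop (disch := assumption)
  have h2 := inM_zf.1 (h1.1 p hpi)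
  obtain ⟨q, hq, hqD⟩ := hG.generic _ h2 (fun q hq => (mem_sep.1 hq).1) (by
    intro r hr
    by_cases h : BEx P (fun s => p ⊆ s ∧ r ⊆ s)
    · obtain ⟨s, hs, h3, h4⟩ := h
      obtain ⟨q, hq, hqP, h5⟩ := hd s hs h3
      exact ⟨q, mem_sep.2 ⟨hqP, Or.inl hq⟩, fun x hx => h5 (h4 hx)⟩
    · exact ⟨r, mem_sep.2 ⟨hr, Or.inr h⟩, fun x hx => hx⟩)
  rcases (mem_sep.1 hqD).2 with h3 | h3
  · exact ⟨q, hq, h3⟩
  · obtain ⟨r, hr, h4, h5⟩ := hG.directed p hp q hq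
    exact absurd ⟨r, hG.subset hr, h4, h5⟩ h3

/-- the truth lemma -/
theorem truth (hP : P ∈ M) (hZ : Z ∈ M) (hZt : Z.IsTransitive) (hG : IsGeneric M {x | x ∈ P} G) :
    ∀ σ ∈ M, ∀ z ∈ Z, val G σ = z ↔ ∃ p ∈ G, pair p z ∈ FT P Z σ := by
  have hPi : InM M P := inM_zf.2 hP
  have hZi : InM M Z := inM_zf.2 hZ
  have hFT := dfn_FT hP hZ
  have main : ∀ o : Ordinal.{0}, ∀ σ ∈ M, σ.rank = o → ∀ z ∈ Z,
      (val G σ = z ↔ ∃ p ∈ G, pair p z ∈ FT P Z σ) := by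
    intro o
    induction o using WellFoundedLT.induction with
    | ind o ih =>
    intro σ hσM hσo z hz
    have ih' : ∀ η q, pair η q ∈ σ → ∀ y ∈ Z,
        (val G η = y ↔ ∃ p ∈ G, pair p y ∈ FT P Z η) := by
      intro η q h y hy
      have h1 : η ∈ fld σ := left_mem_fld h
      have h2 : fld σ ∈ M := inM_zf.1 ((dfn_fld (dfn_id (α := ZFSet.{0}))).1 σ (inM_zf.2 hσM))
      exact ih _ (hσo ▸ rank_lt_of_mem_fld h1) η (trans_mem h2 h1) rfl y hy
    have hσi : InM M σ := inM_zf.2 hσM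
    have hzi : InM M z := inM_zf.2 (trans_mem hZ hz)
    constructor
    · intro hval
      -- the three dense sets
      have hD : Dfn M (fun q : ZFSet.{0} × ZFSet.{0} => ZFSet.sep (fun r =>
          pair r q.2 ∈ FT P Z q.1 ∨
          BEx (fld q.1) (fun η => BEx P (fun s => pair η s ∈ q.1 ∧ s ⊆ r ∧
            BAll P (fun r' => Imp (r ⊆ r') (BAll q.2 (fun y => ¬ pair r' y ∈ FT P Z η))))) ∨
          BEx q.2 (fun y => BAll P (fun r' => Imp (r ⊆ r') (BAll (fld q.1) (fun η =>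
            BAll P (fun s => Imp (pair η s ∈ q.1 ∧ s ⊆ r') (¬ pair r' y ∈ FT P Z η))))))) P) := by
        fun_prop (disch := assumption)
      have hDM := inM_zf.1 (hD.1 (σ, z) (inM_prod.2 ⟨hσi, hzi⟩))
      obtain ⟨p, hp, hpD⟩ := hG.generic _ hDM (fun q hq => (mem_sep.1 hq).1) (by
        intro p hp
        by_cases hA : ∀ η, ∀ q ∈ P, pair η q ∈ σ → ∀ r ∈ P, p ⊆ r → q ⊆ r →
          ∃ r' ∈ P, r ⊆ r' ∧ ∃ y ∈ z, pair r' y ∈ FT P Z η
        · by_cases hB : ∀ y ∈ z, ∀ r ∈ P, p ⊆ r → ∃ r' ∈ P, r ⊆ r' ∧ ∃ η, ∃ q ∈ P,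
            pair η q ∈ σ ∧ q ⊆ r' ∧ pair r' y ∈ FT P Z η
          · exact ⟨p, mem_sep.2 ⟨hp, Or.inl (mem_FT.2 ⟨hp, hz, hA, hB⟩)⟩, fun x hx => hx⟩
          · push Not at hB
            obtain ⟨y, hy, r, hr, hpr, h1⟩ := hB
            refine ⟨r, mem_sep.2 ⟨hr, Or.inr (Or.inr ⟨y, hy, ?_⟩)⟩, hpr⟩
            intro r' hr' hrr' η _ s hs h2
            exact h1 r' hr' hrr' η s hs h2.1 h2.2
        · push Not at hA
          obtain ⟨η, s, hs, hηs, r, hr, hpr, hsr, h1⟩ := hA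
          refine ⟨r, mem_sep.2 ⟨hr, Or.inr (Or.inl ⟨η, left_mem_fld hηs, s, hs, hηs, hsr, ?_⟩)⟩,
            hpr⟩
          intro r' hr' hrr' y hy
          exact h1 r' hr' hrr' y hy)
      rcases (mem_sep.1 hpD).2 with h1 | ⟨η, _, s, hs, hηs, hsp, h1⟩ | ⟨y, hy, h1⟩
      · exact ⟨p, hp, h1⟩
      · exfalso
        have hsG : s ∈ G := hG.upward p hp s hs hsp
        have h2 : val G η ∈ z := hval ▸ mem_val.2 ⟨η, s, hsG, hηs, rfl⟩
        obtain ⟨p', hp', h3⟩ := (ih' η s hηs _ (hZt.mem_trans h2 hz)).1 rfl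
        obtain ⟨r, hr, h4, h5⟩ := hG.directed p hp p' hp'
        exact h1 r (hG.subset hr) h4 _ h2 (FT_mono h3 h5 (hG.subset hr))
      · exfalso
        have h2 : y ∈ val G σ := hval ▸ hy
        obtain ⟨η, q, hq, hηq, rfl⟩ := mem_val.1 h2
        obtain ⟨p', hp', h3⟩ := (ih' η q hηq _ (hZt.mem_trans hy hz)).1 rfl
        obtain ⟨r, hr, h4, h5⟩ := hG.directed p hp p' hp'
        obtain ⟨r', hr', h6, h7⟩ := hG.directed r hr q hq
        exact h1 r' (hG.subset hr') (fun x hx => h6 (h4 hx)) η (left_mem_fld hηq) q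
          (hG.subset hq) ⟨hηq, h7⟩ (FT_mono h3 (fun x hx => h6 (h5 hx)) (hG.subset hr'))
    · rintro ⟨p, hp, hpz⟩
      obtain ⟨hpP, _, hA, hB⟩ := mem_FT.1 hpz
      ext x
      constructor
      · intro hx
        obtain ⟨η, q, hq, hηq, rfl⟩ := mem_val.1 hx
        obtain ⟨r, hr, h4, h5⟩ := hG.directed p hp q hq
        have hηi : InM M η := by
          have h2 : fld σ ∈ M := inM_zf.1 ((dfn_fld (dfn_id (α := ZFSet.{0}))).1 σ hσi)
          exact inM_zf.2 (trans_mem h2 (left_mem_fld hηq))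
        have hD : Dfn M (fun q : ZFSet.{0} × ZFSet.{0} => ZFSet.sep (fun r' =>
          BEx q.2 (fun y => pair r' y ∈ FT P Z q.1)) P) := by
          fun_prop (disch := assumption)
        have hDM := inM_zf.1 (hD.1 (η, z) (inM_prod.2 ⟨hηi, hzi⟩))
        obtain ⟨r', hr', h6⟩ := generic_below hP hG hDM hr (by
          intro r'' hr'' h7
          obtain ⟨r', hr', h8, y, hy, h9⟩ := hA η q (hG.subset hq) hηq r'' hr''
            (fun x hx => h7 (h4 hx)) (fun x hx => h7 (h5 hx))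
          exact ⟨r', mem_sep.2 ⟨hr', y, hy, h9⟩, hr', h8⟩)
        obtain ⟨_, y, hy, h7⟩ := mem_sep.1 h6
        rw [(ih' η q hηq y (hZt.mem_trans hy hz)).2 ⟨r', hr', h7⟩]
        exact hy
      · intro hx
        have hxi : InM M x := inM_zf.2 (trans_mem (inM_zf.1 hzi) hx)
        have hD : Dfn M (fun q : ZFSet.{0} × ZFSet.{0} => ZFSet.sep (fun r' =>
          BEx (fld q.1) (fun η => BEx P (fun s => pair η s ∈ q.1 ∧ s ⊆ r' ∧
            pair r' q.2 ∈ FT P Z η))) P) := by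
          fun_prop (disch := assumption)
        have hDM := inM_zf.1 (hD.1 (σ, x) (inM_prod.2 ⟨hσi, hxi⟩))
        obtain ⟨r', hr', h6⟩ := generic_below hP hG hDM hp (by
          intro r hr h7
          obtain ⟨r', hr', h8, η, s, hs, h9, h10, h11⟩ := hB x hx r hr h7
          exact ⟨r', mem_sep.2 ⟨hr', η, left_mem_fld h9, s, hs, h9, h10, h11⟩, hr', h8⟩)
        obtain ⟨_, η, _, s, hs, h7, h8, h9⟩ := mem_sep.1 h6
        have hsG : s ∈ G := hG.upward r' hr' s hs h8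
        exact mem_val.2 ⟨η, s, hsG, h7, (ih' η s h7 x (hZt.mem_trans hx hz)).2 ⟨r', hr', h9⟩⟩
  intro σ hσ z hz
  exact main _ σ hσ rfl z hz

end T

end Pool.Agent.Work.MP_6efb98_lc
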