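import Mathlib

/-!
Countable hulls and ultrafilters that respect countably many suprema.
-/

namespace Pool.Agent.Work.MP_6efb98_lc

universe u v w

/-- stages of the closure -/
def stage {S : Type u} {K : Type v} (op : K → List S → S) : ℕ → Set S
  | 0 => ∅
  | n + 1 => stage op n ∪
      Set.range (fun p : K × List (stage op n) => op p.1 (p.2.map Subtype.val))

/-- closure under countably many operations is countable -/
theorem exists_closed {S : Type u} {K : Type v} [Countable K] (op : K → List S → S) :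
    ∃ C : Set S, C.Countable ∧ ∀ k l, (∀ x ∈ l, x ∈ C) → op k l ∈ C := by
  have hcount : ∀ n, (stage op n).Countable := by
    intro n
    induction n with
    | zero => exact Set.countable_empty
    | succ n ih =>
      rw [stage]
      have : Countable (stage op n) := ih
      exact ih.union (Set.countable_range _)
  have hmono : Monotone (stage op) := monotone_nat_of_le_succ fun n => by
    rw [stage]
    exact Set.subset_union_left
  refine ⟨⋃ n, stage op n, Set.countable_iUnion hcount, ?_⟩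
  intro k l hl
  obtain ⟨n, hn⟩ : ∃ n, ∀ x ∈ l, x ∈ stage op n := by
    clear k
    induction l with
    | nil => exact ⟨0, by simp⟩
    | cons a l ih =>
      obtain ⟨n, hn⟩ := ih (fun x hx => hl x (List.mem_cons_of_mem _ hx))
      obtain ⟨m, hm⟩ := Set.mem_iUnion.1 (hl a List.mem_cons_self)
      refine ⟨max n m, fun x hx => ?_⟩
      rcases List.mem_cons.1 hx with rfl | hx
      · exact hmono (le_max_right _ _) hm
      · exact hmono (le_max_left _ _) (hn x hx)
  refine Set.mem_iUnion.2 ⟨n + 1, ?_⟩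
  rw [stage]
  refine Or.inr ⟨(k, l.attach.map (fun x => ⟨x.1, hn x.1 x.2⟩)), ?_⟩
  simp

/-- ultrafilters in a Boolean algebra -/
structure IsUltra {B : Type u} [BooleanAlgebra B] (G : Set B) : Prop where
  top_mem : ⊤ ∈ G
  bot_notMem : ⊥ ∉ G
  up : ∀ {a b : B}, a ∈ G → a ≤ b → b ∈ G
  inf : ∀ {a b : B}, a ∈ G → b ∈ G → a ⊓ b ∈ G
  em : ∀ a : B, a ∈ G ∨ aᶜ ∈ G

namespace IsUltra

variable {B : Type u} [BooleanAlgebra B] {G : Set B} (hG : IsUltra G)
include hG

theorem inf_iff {a b : B} : a ⊓ b ∈ G ↔ a ∈ G ∧ b ∈ G :=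
  ⟨fun h => ⟨hG.up h inf_le_left, hG.up h inf_le_right⟩, fun h => hG.inf h.1 h.2⟩

theorem compl_iff {a : B} : aᶜ ∈ G ↔ a ∉ G := by
  constructor
  · intro h h'
    have := hG.inf h' h
    rw [inf_compl_self] at this
    exact hG.bot_notMem this
  · intro h
    exact (hG.em a).resolve_left h

theorem sup_iff {a b : B} : a ⊔ b ∈ G ↔ a ∈ G ∨ b ∈ G := by
  constructor
  · intro h
    by_contra hcon
    push Not at hcon
    have h1 := hG.inf (hG.compl_iff.2 hcon.1) (hG.compl_iff.2 hcon.2)
    rw [← compl_sup] at h1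
    exact hG.compl_iff.1 h1 h
  · rintro (h | h)
    · exact hG.up h le_sup_left
    · exact hG.up h le_sup_right

theorem himp_iff {a b : B} : a ⇨ b ∈ G ↔ (a ∈ G → b ∈ G) := by
  rw [himp_eq, hG.sup_iff, hG.compl_iff]
  tauto

end IsUltra

/-- a decreasing sequence of nonzero elements extends to an ultrafilter -/
theorem exists_ultra {B : Type u} [BooleanAlgebra B] (y : ℕ → B) (hy : ∀ n, y n ≠ ⊥)
    (hanti : Antitone y) : ∃ G : Set B, IsUltra G ∧ ∀ n, y n ∈ G := by
  let F : Order.PFilter B := Order.IsPFilter.toPFilter (F := {a | ∃ n, y n ≤ a})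
    (Order.IsPFilter.of_def ⟨y 0, 0, le_rfl⟩
      (by
        rintro a ⟨n, hn⟩ b ⟨m, hm⟩
        refine ⟨y (max n m), ⟨max n m, le_rfl⟩, ?_, ?_⟩
        · exact (hanti (le_max_left _ _)).trans hn
        · exact (hanti (le_max_right _ _)).trans hm)
      (by
        rintro a b hab ⟨n, hn⟩
        exact ⟨n, hn.trans hab⟩))
  have hF : ∀ a, a ∈ (F : Set B) ↔ ∃ n, y n ≤ a := fun a => Iff.rfl
  have hdisj : Disjoint (F : Set B) ((⊥ : Order.Ideal B) : Set B) := by
    rw [Set.disjoint_left]
    rintro a ha hb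
    obtain ⟨n, hn⟩ := (hF a).1 ha
    have : a = ⊥ := by
      rw [← Order.Ideal.principal_bot] at hb
      exact le_bot_iff.1 (Order.Ideal.mem_principal.1 hb)
    subst this
    exact hy n (le_bot_iff.1 hn)
  obtain ⟨J, hJ, _, hFJ⟩ := DistribLattice.prime_ideal_of_disjoint_filter_ideal hdisj
  have hmemJ : ∀ a, a ∉ J ↔ aᶜ ∈ J := by
    intro a
    constructor
    · intro h
      exact (hJ.mem_or_compl_mem (x := a)).resolve_left h
    · intro h h'
      have : a ⊔ aᶜ ∈ J := J.sup_mem h' h
      rw [sup_compl_eq_top] at this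
      have h2 : (⊤ : B) ∈ (F : Set B) := (hF _).2 ⟨0, le_top⟩
      exact Set.disjoint_left.1 hFJ h2 this
  refine ⟨{a | a ∉ J}, ⟨?_, ?_, ?_, ?_, ?_⟩, ?_⟩
  · change ⊤ ∉ J
    intro h
    exact Set.disjoint_left.1 hFJ ((hF _).2 ⟨0, le_top⟩) h
  · change ¬ (⊥ ∉ J)
    exact fun h => h J.bot_mem
  · intro a b ha hab hb
    exact ha (J.lower hab hb)
  · intro a b ha hb
    change a ⊓ b ∉ J
    intro h
    rcases hJ.mem_or_mem h with h | h
    · exact ha h
    · exact hb h
  · intro a
    by_cases h : a ∈ J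
    · right
      change aᶜ ∉ J
      rw [hmemJ, compl_compl]
      exact h
    · exact Or.inl h
  · intro n
    change y n ∉ J
    intro h
    exact Set.disjoint_left.1 hFJ ((hF _).2 ⟨n, le_rfl⟩) h

/-- generic countable hulls -/
theorem exists_hull {N : Type u} {B : Type v} [CompleteBooleanAlgebra B] [Nontrivial B]
    {K T : Type} [Countable K] [Countable T] [Nonempty N] (O : K → List N → N)
    (F : T → List N → N → B) :
    ∃ X : Set N, X.Countable ∧ (∀ k l, (∀ x ∈ l, x ∈ X) → O k l ∈ X) ∧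
      ∃ G : Set B, IsUltra G ∧ ∀ t l, (∀ x ∈ l, x ∈ X) → (⨆ η, F t l η) ∈ G →
        ∃ η ∈ X, F t l η ∈ G := by
  classical
  -- Skolem functions
  have hsk : ∀ (t : T) (l : List N) (y : B), ∃ η : N, y ⊓ (⨆ η, F t l η) ≠ ⊥ → y ⊓ F t l η ≠ ⊥ := by
    intro t l y
    by_cases h : ∃ η, y ⊓ F t l η ≠ ⊥
    · obtain ⟨η, hη⟩ := h
      exact ⟨η, fun _ => hη⟩
    · refine ⟨Classical.arbitrary N, fun h' => ?_⟩
      exfalso
      apply h'
      rw [inf_iSup_eq]
      rw [iSup_eq_bot]
      intro η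
      by_contra hη
      exact h ⟨η, hη⟩
  choose sk hsk using hsk
  let args : List (N ⊕ B) → List N := fun l => l.filterMap Sum.getLeft?
  let cond : List (N ⊕ B) → B := fun l => (l.filterMap Sum.getRight?).headD ⊤
  let op : (K ⊕ T ⊕ T ⊕ Unit) → List (N ⊕ B) → N ⊕ B := fun k l =>
    match k with
    | .inl k => .inl (O k (args l))
    | .inr (.inl t) => .inl (sk t (args l) (cond l))
    | .inr (.inr (.inl t)) => .inr (cond l ⊓ F t (args l) (sk t (args l) (cond l)))
    | .inr (.inr (.inr _)) => .inr ⊤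
  obtain ⟨C, hC, hCop⟩ := exists_closed op
  let X : Set N := Sum.inl ⁻¹' C
  have hargs : ∀ l : List N, args (l.map Sum.inl) = l := by
    intro l
    simp only [args, List.filterMap_map]
    exact List.filterMap_some
  have hXl : ∀ l : List N, (∀ x ∈ l, x ∈ X) → ∀ x ∈ l.map (Sum.inl (β := B)), x ∈ C := by
    intro l hl x hx
    obtain ⟨y, hy, rfl⟩ := List.mem_map.1 hx
    exact hl y hy
  have hXcount : X.Countable := hC.preimage Sum.inl_injective
  refine ⟨X, hXcount, ?_, ?_⟩
  · intro k l hl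
    have := hCop (.inl k) (l.map .inl) (hXl l hl)
    simp only [op, hargs] at this
    exact this
  -- the generic sequence
  have : Countable X := hXcount
  obtain ⟨e, he⟩ := exists_surjective_nat (Option (T × List X))
  have hargs2 : ∀ (l : List N) (y : B), args (.inr y :: l.map Sum.inl) = l := by
    intro l y
    have : args (.inr y :: l.map Sum.inl) = args (l.map Sum.inl) := by simp [args]
    rw [this, hargs]
  have hcond2 : ∀ (l : List N) (y : B), cond (.inr y :: l.map Sum.inl) = y := by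
    intro l y
    simp [cond]
  let Y : Set B := {y | Sum.inr y ∈ C ∧ y ≠ ⊥}
  have hstep : ∀ (o : Option (T × List X)) (y : Y), ∃ y' : Y, y'.1 ≤ y.1 ∧
      ∀ t l, o = some (t, l) → y.1 ⊓ (⨆ η, F t (l.map Subtype.val) η) ≠ ⊥ →
        ∃ η ∈ X, y'.1 ≤ F t (l.map Subtype.val) η := by
    intro o y
    cases o with
    | none => exact ⟨y, le_rfl, by simp⟩
    | some p =>
      obtain ⟨t, l⟩ := p
      by_cases h : y.1 ⊓ (⨆ η, F t (l.map Subtype.val) η) ≠ ⊥
      swap
      · refine ⟨y, le_rfl, ?_⟩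
        rintro t' l' h1 h2
        cases h1
        exact absurd h2 h
      have h1 := hsk t (l.map Subtype.val) y.1 h
      have hl : ∀ x ∈ (Sum.inr y.1 :: (l.map Subtype.val).map Sum.inl : List (N ⊕ B)), x ∈ C := by
        intro x hx
        rcases List.mem_cons.1 hx with rfl | hx
        · exact y.2.1
        · refine hXl _ ?_ x hx
          intro z hz
          obtain ⟨w, _, rfl⟩ := List.mem_map.1 hz
          exact w.2
      have h2 := hCop (.inr (.inl t)) _ hl
      have h3 := hCop (.inr (.inr (.inl t))) _ hl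
      simp only [op, hargs2, hcond2] at h2 h3
      refine ⟨⟨_, h3, h1⟩, inf_le_left, ?_⟩
      rintro t' l' h4 _
      cases h4
      exact ⟨_, h2, inf_le_right⟩
  choose step hstep1 hstep2 using hstep
  let y : ℕ → Y := fun n => Nat.rec ⟨⊤, by
    have := hCop (.inr (.inr (.inr ()))) [] (by simp)
    exact ⟨this, top_ne_bot⟩⟩ (fun n z => step (e n) z) n
  have hy : ∀ n, y (n + 1) = step (e n) (y n) := fun n => rfl
  obtain ⟨G, hG, hyG⟩ := exists_ultra (fun n => (y n).1) (fun n => (y n).2.2)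
    (antitone_nat_of_succ_le fun n => by rw [hy]; exact hstep1 _ _)
  refine ⟨G, hG, ?_⟩
  intro t l hl hsup
  let l' : List X := l.attach.map (fun x => ⟨x.1, hl x.1 x.2⟩)
  have hl' : l'.map Subtype.val = l := by simp [l']
  obtain ⟨n, hn⟩ := he (some (t, l'))
  have h1 : (y n).1 ⊓ (⨆ η, F t l η) ≠ ⊥ := by
    intro h
    have := hG.inf (hyG n) hsup
    rw [h] at this
    exact hG.bot_notMem this
  rw [← hl'] at h1
  obtain ⟨η, hη, h2⟩ := hstep2 (e n) (y n) t l' hn h1
  rw [hl', ← hy] at h2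
  exact ⟨η, hη, hG.up (hyG (n + 1)) h2⟩

end Pool.Agent.Work.MP_6efb98_lc
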