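import Pool.Agent.Work.MP_6efb98_lc.Dfn

/-!
Closure of a transitive model of ZFC under the usual set operations, with definability.
-/

namespace Pool.Agent.Work.MP_6efb98_lc

open ZFSet

universe u v w
variable {M : Set ZFSet.{0}} {α : Type u} {β : Type v} {γ : Type w} [DT α] [DT β] [DT γ]
variable [hM : Model M]

@[simp] theorem inM_empty : InM M (∅ : ZFSet.{0}) := inM_zf.2 empty_mem
@[simp] theorem inM_omega : InM M omega := inM_zf.2 omega_mem

theorem dfn_of_mem {f : α → ZFSet.{0}} (h1 : ∀ a, InM M a → f a ∈ M)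
    (h2 : Dfn M (fun p : ZFSet.{0} × α => p.1 ∈ f p.2)) : Dfn M f := by
  refine dfn_zf.2 ⟨h1, ?_⟩
  have h3 : Dfn M (fun q : ZFSet.{0} × α => MAll M (fun x => (x ∈ q.1 ↔ x ∈ f q.2))) := by
    refine dfn_MAll (dfn_iff (by fun_prop) ?_)
    exact dfn_comp (f := fun p : ZFSet.{0} × (ZFSet.{0} × α) => (p.1, p.2.2)) h2 (by fun_prop)
  refine (dfn_dp.1 h3).congr fun p hp => ?_
  obtain ⟨hp1, hp2⟩ := inM_prod.1 hp
  constructor
  · rintro h x _
    rw [h]
  · intro h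
    ext x
    constructor
    · intro hx
      exact (h x (trans_mem (inM_zf.1 hp1) hx)).1 hx
    · intro hx
      exact (h x (trans_mem (h1 _ hp2) hx)).2 hx

theorem sep_of_defS {R : (Unit → ZFSet.{0}) → Prop} (hR : DefS M R) {s : ZFSet.{0}} (hs : s ∈ M) :
    ZFSet.sep (fun x => R (fun _ => x)) s ∈ M := by
  classical
  obtain ⟨n, φ, σ, h⟩ := hR
  let g : Fin n → Fin (n + 1) := fun i => if σ i = .inl () then 0 else i.succ
  let v : Fin n → ZFSet.{0} := fun i => Sum.elim (fun _ => ∅) Subtype.val (σ i)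
  have hv : ∀ i, v i ∈ M := by
    intro i
    simp only [v]
    rcases σ i with _ | c
    · exact empty_mem
    · exact c.2
  have := hM.separation n (φ.rename g) v hv s hs
  convert this using 1
  ext x
  simp only [mem_sep]
  refine and_congr_right fun hx => ?_
  rw [h _ (fun _ => trans_mem hs hx), sat_rename]
  rw [iff_iff_eq]
  congr 1
  funext i
  simp only [g, v]
  rcases h : σ i with _ | c <;> simp [h]

theorem sep_mem_of_dp {P : ZFSet.{0} × α → Prop} (hP : DP M P) {a : α} (ha : InM M a)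
    {s : ZFSet.{0}} (hs : s ∈ M) : ZFSet.sep (fun x => P (x, a)) s ∈ M := by
  obtain ⟨R, hR, h⟩ := hP
  have h1 := hR.reindex (κ := Unit) (Sum.elim (fun _ => .inl ()) (fun i => .inr ⟨DT.crd a i, ha i⟩))
  have h2 := sep_of_defS h1 hs
  convert h2 using 1
  ext x
  simp only [mem_sep]
  refine and_congr_right fun hx => ?_
  rw [h _ (inM_prod.2 ⟨inM_zf.2 (trans_mem hs hx), ha⟩)]
  rw [iff_iff_eq]
  congr 1
  funext i
  rcases i with i | i <;> rfl

theorem collection_of_defS {R : (Unit ⊕ Unit → ZFSet.{0}) → Prop} (hR : DefS M R) {s : ZFSet.{0}}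
    (hs : s ∈ M) (h1 : ∀ x ∈ s, ∃ y ∈ M, R (Sum.elim (fun _ => y) (fun _ => x))) :
    ∃ b ∈ M, ∀ x ∈ s, ∃ y ∈ b, R (Sum.elim (fun _ => y) (fun _ => x)) := by
  classical
  obtain ⟨n, φ, σ, h⟩ := hR
  let g : Fin n → Fin (n + 2) := fun i => if σ i = .inl (.inl ()) then 0 else
    if σ i = .inl (.inr ()) then 1 else i.succ.succ
  let v : Fin n → ZFSet.{0} := fun i => Sum.elim (fun _ => ∅) Subtype.val (σ i)
  have hv : ∀ i, v i ∈ M := by
    intro i
    simp only [v]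
    rcases σ i with _ | c
    · exact empty_mem
    · exact c.2
  have key : ∀ x ∈ M, ∀ y ∈ M, (R (Sum.elim (fun _ => y) (fun _ => x)) ↔
      Sat M (φ.rename g) (Fin.cons y (Fin.cons x v))) := by
    intro x hx y hy
    rw [h _ (by rintro (_ | _); exacts [hy, hx]), sat_rename]
    rw [iff_iff_eq]
    congr 1
    funext i
    simp only [g, v]
    rcases h : σ i with (_ | _) | c <;> simp [h]
  obtain ⟨b, hb, h2⟩ := hM.collection n (φ.rename g) v hv s hs (fun x hx => by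
    obtain ⟨y, hy, h3⟩ := h1 x hx
    exact ⟨y, hy, (key x (trans_mem hs hx) y hy).1 h3⟩)
  refine ⟨b, hb, fun x hx => ?_⟩
  obtain ⟨y, hy, h3⟩ := h2 x hx
  exact ⟨y, hy, (key x (trans_mem hs hx) y (trans_mem hb hy)).2 h3⟩

theorem collection_mem {P : ZFSet.{0} × ZFSet.{0} × α → Prop} (hP : Dfn M P) {a : α}
    (ha : InM M a) {s : ZFSet.{0}} (hs : s ∈ M) (h1 : ∀ x ∈ s, ∃ y ∈ M, P (y, x, a)) :
    ∃ b ∈ M, ∀ x ∈ s, ∃ y ∈ b, P (y, x, a) := by
  obtain ⟨R, hR, h⟩ := dfn_dp.1 hP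
  have h3 := hR.reindex (κ := Unit ⊕ Unit) (Sum.elim (fun _ => .inl (.inl ()))
    (Sum.elim (fun _ => .inl (.inr ())) (fun i => .inr ⟨DT.crd a i, ha i⟩)))
  have key : ∀ x ∈ M, ∀ y ∈ M, (P (y, x, a) ↔ R (fun i => Sum.elim
      (Sum.elim (fun _ => y) (fun _ => x)) Subtype.val
      ((Sum.elim (fun _ => .inl (.inl ())) (Sum.elim (fun _ => .inl (.inr ()))
        (fun i => .inr ⟨DT.crd a i, ha i⟩)) : DT.ι (ZFSet.{0} × ZFSet.{0} × α) →
          (Unit ⊕ Unit) ⊕ {x // x ∈ M}) i))) := by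
    intro x hx y hy
    rw [h _ (inM_prod.2 ⟨inM_zf.2 hy, inM_prod.2 ⟨inM_zf.2 hx, ha⟩⟩)]
    rw [iff_iff_eq]
    congr 1
    funext i
    rcases i with i | i | i <;> rfl
  obtain ⟨b, hb, h4⟩ := collection_of_defS h3 hs (fun x hx => by
    obtain ⟨y, hy, h5⟩ := h1 x hx
    exact ⟨y, hy, (key x (trans_mem hs hx) y hy).1 h5⟩)
  refine ⟨b, hb, fun x hx => ?_⟩
  obtain ⟨y, hy, h5⟩ := h4 x hx
  exact ⟨y, hy, (key x (trans_mem hs hx) y (trans_mem hb hy)).2 h5⟩

/-! ### Separation -/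

@[fun_prop]
theorem dfn_sep {P : α → ZFSet.{0} → Prop} {f : α → ZFSet.{0}} (hf : Dfn M f)
    (hP : Dfn M (fun p : ZFSet.{0} × α => P p.2 p.1)) :
    Dfn M (fun a => ZFSet.sep (P a) (f a)) := by
  refine dfn_of_mem (fun a ha => ?_) ?_
  · exact sep_mem_of_dp (dfn_dp.1 hP) ha (inM_zf.1 (hf.1 a ha))
  · simp only [mem_sep]
    exact dfn_and (by fun_prop) hP

/-! ### Basic operations -/

@[fun_prop]
theorem dfn_upair {f g : α → ZFSet.{0}} (hf : Dfn M f) (hg : Dfn M g) :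
    Dfn M (fun a => ({f a, g a} : ZFSet)) := by
  refine dfn_of_mem (fun a ha => upair_mem (inM_zf.1 (hf.1 a ha)) (inM_zf.1 (hg.1 a ha))) ?_
  simp only [mem_pair]
  fun_prop

@[fun_prop]
theorem dfn_singleton {f : α → ZFSet.{0}} (hf : Dfn M f) : Dfn M (fun a => ({f a} : ZFSet)) := by
  refine dfn_of_mem (fun a ha => singleton_mem (inM_zf.1 (hf.1 a ha))) ?_
  simp only [mem_singleton]
  fun_prop

@[fun_prop]
theorem dfn_sUnion {f : α → ZFSet.{0}} (hf : Dfn M f) : Dfn M (fun a => (⋃₀ (f a) : ZFSet)) := by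
  refine dfn_of_mem (fun a ha => hM.union _ (inM_zf.1 (hf.1 a ha))) ?_
  have : Dfn M (fun p : ZFSet.{0} × α => BEx (f p.2) (fun z => p.1 ∈ z)) := by fun_prop
  simp only [mem_sUnion]
  exact this

@[fun_prop]
theorem dfn_union {f g : α → ZFSet.{0}} (hf : Dfn M f) (hg : Dfn M g) :
    Dfn M (fun a => f a ∪ g a) := by
  have : Dfn M (fun a => (⋃₀ ({f a, g a} : ZFSet) : ZFSet)) := by fun_prop
  simpa only [sUnion_pair] using this

@[fun_prop]
theorem dfn_insert {f g : α → ZFSet.{0}} (hf : Dfn M f) (hg : Dfn M g) :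
    Dfn M (fun a => insert (f a) (g a)) := by
  simp only [ZFSet.insert_eq]
  fun_prop

@[fun_prop]
theorem dfn_inter {f g : α → ZFSet.{0}} (hf : Dfn M f) (hg : Dfn M g) :
    Dfn M (fun a => f a ∩ g a) := by
  have : Dfn M (fun a => ZFSet.sep (fun x => x ∈ g a) (f a)) := by fun_prop
  exact this

@[fun_prop]
theorem dfn_sdiff {f g : α → ZFSet.{0}} (hf : Dfn M f) (hg : Dfn M g) :
    Dfn M (fun a => f a \ g a) := by
  have : Dfn M (fun a => ZFSet.sep (fun x => ¬ x ∈ g a) (f a)) := by fun_prop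
  exact this

@[fun_prop]
theorem dfn_subset {f g : α → ZFSet.{0}} (hf : Dfn M f) (hg : Dfn M g) :
    Dfn M (fun a => f a ⊆ g a) := by
  have : Dfn M (fun a => BAll (f a) (fun x => x ∈ g a)) := by fun_prop
  exact this

@[fun_prop]
theorem dfn_pair {f g : α → ZFSet.{0}} (hf : Dfn M f) (hg : Dfn M g) :
    Dfn M (fun a => pair (f a) (g a)) := by
  have : Dfn M (fun a => ({{f a}, {f a, g a}} : ZFSet)) := by fun_prop
  exact this

/-- the power set inside `M` -/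
def pw (M : Set ZFSet.{0}) (x : ZFSet.{0}) : ZFSet.{0} := ZFSet.sep (fun y => y ∈ M) (powerset x)

omit hM in
theorem mem_pw {x y : ZFSet.{0}} : y ∈ pw M x ↔ y ⊆ x ∧ y ∈ M := by simp [pw]

@[fun_prop]
theorem dfn_pw {f : α → ZFSet.{0}} (hf : Dfn M f) : Dfn M (fun a => pw M (f a)) := by
  refine dfn_of_mem (fun a ha => hM.powerset _ (inM_zf.1 (hf.1 a ha))) ?_
  have : Dfn M (fun p : ZFSet.{0} × α => p.1 ⊆ f p.2) := by fun_prop
  refine dfn_dp.2 ((dfn_dp.1 this).congr fun p hp => ?_)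
  simp only [mem_pw]
  exact and_iff_left (inM_zf.1 (inM_prod.1 hp).1)

/-! ### Images (replacement) -/

/-- the image of the set `s` under `F` -/
noncomputable def img (F : ZFSet.{0} → ZFSet.{0}) (s : ZFSet.{0}) : ZFSet.{0} :=
  ZFSet.range (fun x : s => F x.1)

omit hM in
@[simp] theorem mem_img {F : ZFSet.{0} → ZFSet.{0}} {s y : ZFSet.{0}} :
    y ∈ img F s ↔ ∃ x ∈ s, F x = y := by
  simp only [img, mem_range]
  constructor
  · rintro ⟨⟨x, hx⟩, h⟩
    exact ⟨x, hx, h⟩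
  · rintro ⟨x, hx, h⟩
    exact ⟨⟨x, hx⟩, h⟩

@[fun_prop]
theorem dfn_img {F : α → ZFSet.{0} → ZFSet.{0}} {f : α → ZFSet.{0}} (hf : Dfn M f)
    (hF : Dfn M (fun p : ZFSet.{0} × α => F p.2 p.1)) :
    Dfn M (fun a => img (F a) (f a)) := by
  have hF' : Dfn M (fun q : ZFSet.{0} × ZFSet.{0} × α => F q.2.2 q.2.1) :=
    dfn_comp hF dfn_snd
  have h2 : Dfn M (fun p : ZFSet.{0} × α => p.1 ∈ img (F p.2) (f p.2)) := by
    simp only [mem_img]
    have : Dfn M (fun q : ZFSet.{0} × ZFSet.{0} × α => F q.2.2 q.1 = q.2.1) :=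
      dfn_eq (dfn_comp (f := fun q : ZFSet.{0} × ZFSet.{0} × α => (q.1, q.2.2)) hF (by fun_prop))
        (by fun_prop)
    exact dfn_BEx (f := fun p : ZFSet.{0} × α => f p.2)
      (P := fun (p : ZFSet.{0} × α) x => F p.2 x = p.1) (by fun_prop) this
  refine dfn_of_mem (fun a ha => ?_) h2
  have hP : Dfn M (fun q : ZFSet.{0} × ZFSet.{0} × α => q.1 = F q.2.2 q.2.1) :=
    dfn_eq (by fun_prop) hF'
  have hfa := inM_zf.1 (hf.1 a ha)
  obtain ⟨b, hb, h3⟩ := collection_mem hP ha hfa (fun x hx =>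
    ⟨_, inM_zf.1 (hF.1 (x, a) (inM_prod.2 ⟨inM_zf.2 (trans_mem hfa hx), ha⟩)), rfl⟩)
  have h4 : ZFSet.sep (fun y => y ∈ img (F a) (f a)) b ∈ M :=
    sep_mem_of_dp (dfn_dp.1 h2) ha hb
  convert h4 using 1
  ext y
  simp only [mem_sep, mem_img]
  constructor
  · rintro ⟨x, hx, rfl⟩
    refine ⟨?_, x, hx, rfl⟩
    obtain ⟨y, hy, h5⟩ := h3 x hx
    rw [← h5]
    exact hy
  · exact fun h => h.2

end Pool.Agent.Work.MP_6efb98_lc
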