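import Pool.Agent.Work.MP_6efb98_lc.Lib

/-!
Products, domains, ranges, values, restrictions; functions and ordinals, with definability.
-/

namespace Pool.Agent.Work.MP_6efb98_lc

open ZFSet

universe u v w
variable {M : Set ZFSet.{0}} {α : Type u} {β : Type v} {γ : Type w} [DT α] [DT β] [DT γ]
variable [hM : Model M]

@[fun_prop]
theorem dfn_prod {f g : α → ZFSet.{0}} (hf : Dfn M f) (hg : Dfn M g) :
    Dfn M (fun a => prod (f a) (g a)) := by
  have : Dfn M (fun a => (⋃₀ (img (fun x => img (fun y => pair x y) (g a)) (f a)) : ZFSet)) := by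
    fun_prop
  convert this using 2 with a
  ext z
  simp only [mem_prod, mem_sUnion, mem_img]
  constructor
  · rintro ⟨x, hx, y, hy, rfl⟩
    exact ⟨_, ⟨x, hx, rfl⟩, mem_img.2 ⟨y, hy, rfl⟩⟩
  · rintro ⟨_, ⟨x, hx, rfl⟩, h⟩
    obtain ⟨y, hy, rfl⟩ := mem_img.1 h
    exact ⟨x, hx, y, hy, rfl⟩

/-- the field of a relation -/
noncomputable def fld (f : ZFSet.{0}) : ZFSet.{0} := ⋃₀ (⋃₀ f : ZFSet)

omit hM in
theorem left_mem_fld {f x y : ZFSet.{0}} (h : pair x y ∈ f) : x ∈ fld f :=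
  mem_sUnion.2 ⟨{x}, mem_sUnion.2 ⟨_, h, by simp [pair]⟩, by simp⟩

omit hM in
theorem right_mem_fld {f x y : ZFSet.{0}} (h : pair x y ∈ f) : y ∈ fld f :=
  mem_sUnion.2 ⟨{x, y}, mem_sUnion.2 ⟨_, h, by simp [pair]⟩, by simp⟩

@[fun_prop]
theorem dfn_fld {f : α → ZFSet.{0}} (hf : Dfn M f) : Dfn M (fun a => fld (f a)) := by
  simp only [fld]
  fun_prop

/-- domain -/
noncomputable def dom (f : ZFSet.{0}) : ZFSet.{0} :=
  ZFSet.sep (fun x => BEx (fld f) (fun y => pair x y ∈ f)) (fld f)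

/-- range -/
noncomputable def ran (f : ZFSet.{0}) : ZFSet.{0} :=
  ZFSet.sep (fun y => BEx (fld f) (fun x => pair x y ∈ f)) (fld f)

omit hM in
theorem mem_dom {f x : ZFSet.{0}} : x ∈ dom f ↔ ∃ y, pair x y ∈ f := by
  simp only [dom, mem_sep, BEx]
  constructor
  · rintro ⟨_, y, _, h⟩
    exact ⟨y, h⟩
  · rintro ⟨y, h⟩
    exact ⟨left_mem_fld h, y, right_mem_fld h, h⟩

omit hM in
theorem mem_ran {f y : ZFSet.{0}} : y ∈ ran f ↔ ∃ x, pair x y ∈ f := by
  simp only [ran, mem_sep, BEx]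
  constructor
  · rintro ⟨_, x, _, h⟩
    exact ⟨x, h⟩
  · rintro ⟨x, h⟩
    exact ⟨right_mem_fld h, x, left_mem_fld h, h⟩

@[fun_prop]
theorem dfn_dom {f : α → ZFSet.{0}} (hf : Dfn M f) : Dfn M (fun a => dom (f a)) := by
  simp only [dom]
  fun_prop

@[fun_prop]
theorem dfn_ran {f : α → ZFSet.{0}} (hf : Dfn M f) : Dfn M (fun a => ran (f a)) := by
  simp only [ran]
  fun_prop

/-- value of a function -/
noncomputable def app (f x : ZFSet.{0}) : ZFSet.{0} := ⋃₀ (ZFSet.sep (fun y => pair x y ∈ f) (ran f))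

@[fun_prop]
theorem dfn_app {f g : α → ZFSet.{0}} (hf : Dfn M f) (hg : Dfn M g) :
    Dfn M (fun a => app (f a) (g a)) := by
  simp only [app]
  fun_prop

/-- `f` is single valued -/
def Sv (f : ZFSet.{0}) : Prop := ∀ x y z, pair x y ∈ f → pair x z ∈ f → y = z

/-- `f` is injective as a relation -/
def Inj (f : ZFSet.{0}) : Prop := ∀ x y z, pair x z ∈ f → pair y z ∈ f → x = y

/-- `f` consists of pairs -/
def IsRel (f : ZFSet.{0}) : Prop := ∀ z ∈ f, ∃ x y, z = pair x y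

omit hM in
theorem Sv.app_eq {f x y : ZFSet.{0}} (hf : Sv f) (h : pair x y ∈ f) : app f x = y := by
  have : ZFSet.sep (fun y => pair x y ∈ f) (ran f) = {y} := by
    ext z
    simp only [mem_sep, mem_singleton]
    constructor
    · rintro ⟨_, h1⟩
      exact hf _ _ _ h1 h
    · rintro rfl
      exact ⟨mem_ran.2 ⟨_, h⟩, h⟩
  rw [app, this, sUnion_singleton]

omit hM in
theorem sv_iff {f : ZFSet.{0}} : Sv f ↔ BAll (fld f) (fun x => BAll (fld f) (fun y =>
    BAll (fld f) (fun z => Imp (pair x y ∈ f ∧ pair x z ∈ f) (y = z)))) := by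
  constructor
  · intro h x _ y _ z _ h1
    exact h x y z h1.1 h1.2
  · intro h x y z h1 h2
    exact h x (left_mem_fld h1) y (right_mem_fld h1) z (right_mem_fld h2) ⟨h1, h2⟩

omit hM in
theorem inj_iff {f : ZFSet.{0}} : Inj f ↔ BAll (fld f) (fun x => BAll (fld f) (fun y =>
    BAll (fld f) (fun z => Imp (pair x z ∈ f ∧ pair y z ∈ f) (x = y)))) := by
  constructor
  · intro h x _ y _ z _ h1
    exact h x y z h1.1 h1.2
  · intro h x y z h1 h2
    exact h x (left_mem_fld h1) y (left_mem_fld h2) z (right_mem_fld h1) ⟨h1, h2⟩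

omit hM in
theorem isRel_iff {f : ZFSet.{0}} : IsRel f ↔ BAll f (fun z => BEx (fld f) (fun x =>
    BEx (fld f) (fun y => z = pair x y))) := by
  constructor
  · rintro h z hz
    obtain ⟨x, y, rfl⟩ := h z hz
    exact ⟨x, left_mem_fld hz, y, right_mem_fld hz, rfl⟩
  · rintro h z hz
    obtain ⟨x, _, y, _, h1⟩ := h z hz
    exact ⟨x, y, h1⟩

@[fun_prop]
theorem dfn_Sv {f : α → ZFSet.{0}} (hf : Dfn M f) : Dfn M (fun a => Sv (f a)) := by
  simp only [sv_iff]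
  fun_prop

@[fun_prop]
theorem dfn_Inj {f : α → ZFSet.{0}} (hf : Dfn M f) : Dfn M (fun a => Inj (f a)) := by
  simp only [inj_iff]
  fun_prop

@[fun_prop]
theorem dfn_IsRel {f : α → ZFSet.{0}} (hf : Dfn M f) : Dfn M (fun a => IsRel (f a)) := by
  simp only [isRel_iff]
  fun_prop

/-- restriction of a relation -/
noncomputable def restr (f d : ZFSet.{0}) : ZFSet.{0} :=
  ZFSet.sep (fun z => BEx d (fun x => BEx (fld f) (fun y => z = pair x y))) f

@[fun_prop]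
theorem dfn_restr {f g : α → ZFSet.{0}} (hf : Dfn M f) (hg : Dfn M g) :
    Dfn M (fun a => restr (f a) (g a)) := by
  simp only [restr]
  fun_prop

omit hM in
theorem pair_mem_restr {f d x y : ZFSet.{0}} : pair x y ∈ restr f d ↔ pair x y ∈ f ∧ x ∈ d := by
  simp only [restr, mem_sep, BEx, pair_inj]
  constructor
  · rintro ⟨h, x', hx', y', _, rfl, rfl⟩
    exact ⟨h, hx'⟩
  · rintro ⟨h, hx⟩
    exact ⟨h, x, hx, y, right_mem_fld h, rfl, rfl⟩

omit hM in
theorem isRel_restr {f d : ZFSet.{0}} : IsRel (restr f d) := by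
  intro z hz
  obtain ⟨_, x, _, y, _, h⟩ := mem_sep.1 hz
  exact ⟨x, y, h⟩

omit hM in
theorem restr_subset {f d : ZFSet.{0}} : restr f d ⊆ f := sep_subset

omit hM in
theorem IsRel.ext {f g : ZFSet.{0}} (hf : IsRel f) (hg : IsRel g)
    (h : ∀ x y, pair x y ∈ f ↔ pair x y ∈ g) : f = g := by
  ext z
  constructor
  · intro hz
    obtain ⟨x, y, rfl⟩ := hf z hz
    exact (h x y).1 hz
  · intro hz
    obtain ⟨x, y, rfl⟩ := hg z hz
    exact (h x y).2 hz

omit hM in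
theorem isFunc_iff {x y f : ZFSet.{0}} : IsFunc x y f ↔ f ⊆ prod x y ∧ BAll x (fun z =>
    BEx y (fun w => pair z w ∈ f ∧ BAll y (fun w' => Imp (pair z w' ∈ f) (w' = w)))) := by
  constructor
  · rintro ⟨h1, h2⟩
    refine ⟨h1, fun z hz => ?_⟩
    obtain ⟨w, hw, h3⟩ := h2 z hz
    exact ⟨w, (pair_mem_prod.1 (h1 hw)).2, hw, fun w' _ h => h3 w' h⟩
  · rintro ⟨h1, h2⟩
    refine ⟨h1, fun z hz => ?_⟩
    obtain ⟨w, _, hw, h3⟩ := h2 z hz
    exact ⟨w, hw, fun w' h => h3 w' (pair_mem_prod.1 (h1 h)).2 h⟩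

@[fun_prop]
theorem dfn_IsFunc {f g h : α → ZFSet.{0}} (hf : Dfn M f) (hg : Dfn M g) (hh : Dfn M h) :
    Dfn M (fun a => IsFunc (f a) (g a) (h a)) := by
  simp only [isFunc_iff]
  fun_prop

omit hM in
theorem isFunc_iff' {x y f : ZFSet.{0}} : IsFunc x y f ↔ IsRel f ∧ Sv f ∧ dom f = x ∧ ran f ⊆ y := by
  constructor
  · rintro ⟨h1, h2⟩
    refine ⟨?_, ?_, ?_, ?_⟩
    · intro z hz
      obtain ⟨a, _, b, _, h⟩ := mem_prod.1 (h1 hz)
      exact ⟨a, b, h⟩
    · intro a b c h3 h4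
      have ha := (pair_mem_prod.1 (h1 h3)).1
      exact (h2 a ha).unique h3 h4
    · ext a
      rw [mem_dom]
      exact ⟨fun ⟨b, h⟩ => (pair_mem_prod.1 (h1 h)).1, fun h => (h2 a h).exists⟩
    · intro b hb
      obtain ⟨a, ha⟩ := mem_ran.1 hb
      exact (pair_mem_prod.1 (h1 ha)).2
  · rintro ⟨h1, h2, rfl, h4⟩
    refine ⟨?_, ?_⟩
    · intro z hz
      obtain ⟨a, b, rfl⟩ := h1 z hz
      exact pair_mem_prod.2 ⟨mem_dom.2 ⟨b, hz⟩, h4 (mem_ran.2 ⟨a, hz⟩)⟩
    · intro z hz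
      obtain ⟨w, hw⟩ := mem_dom.1 hz
      exact ⟨w, hw, fun w' h => h2 _ _ _ h hw⟩

@[fun_prop]
theorem dfn_IsTransitive {f : α → ZFSet.{0}} (hf : Dfn M f) :
    Dfn M (fun a => (f a).IsTransitive) := by
  have : Dfn M (fun a => BAll (f a) (fun y => y ⊆ f a)) := by fun_prop
  exact this

@[fun_prop]
theorem dfn_IsOrdinal {f : α → ZFSet.{0}} (hf : Dfn M f) :
    Dfn M (fun a => (f a).IsOrdinal) := by
  simp only [isOrdinal_iff_forall_mem_isTransitive]
  have : Dfn M (fun a => (f a).IsTransitive ∧ BAll (f a) (fun y => y.IsTransitive)) := by fun_prop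
  exact this

end Pool.Agent.Work.MP_6efb98_lc
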