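import Pool.Agent.Work.MP_6efb98_lc.Hull
import Pool.Agent.Work.MP_6efb98_lc.Lib2

/-!
Boolean-valued names, their evaluation by a generic ultrafilter on a countable hull, and the
truth lemma.
-/

namespace Pool.Agent.Work.MP_6efb98_lc

open ZFSet

/-- names -/
inductive Nm (B : Type) : Type 1
  | mk (ι : Type) (c : ι → Nm B) (b : ι → B) : Nm B

variable {B : Type}

namespace Nm

/-- index type of a name -/
def I : Nm B → Type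
  | mk ι _ _ => ι

/-- the members of a name -/
def c : (σ : Nm B) → σ.I → Nm B
  | mk _ c _ => c

/-- the truth values of a name -/
def b : (σ : Nm B) → σ.I → B
  | mk _ _ b => b

end Nm

section cba

variable [CompleteBooleanAlgebra B]

/-- total truth value with which `η` is a member of `τ` -/
noncomputable def lab (τ η : Nm B) : B := ⨆ i, ⨆ _ : τ.c i = η, τ.b i

theorem le_lab (τ : Nm B) (i : τ.I) : τ.b i ≤ lab τ (τ.c i) :=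
  le_iSup₂_of_le i rfl le_rfl

theorem iSup_lab (τ : Nm B) (f : Nm B → B) :
    (⨆ η, lab τ η ⊓ f η) = ⨆ i, τ.b i ⊓ f (τ.c i) := by
  apply le_antisymm
  · refine iSup_le fun η => ?_
    rw [lab, iSup_inf_eq]
    refine iSup_le fun i => ?_
    rw [iSup_inf_eq]
    refine iSup_le fun h => ?_
    subst h
    exact le_iSup (fun i => τ.b i ⊓ f (τ.c i)) i
  · refine iSup_le fun i => ?_
    exact le_iSup_of_le (τ.c i) (inf_le_inf_right _ (le_lab τ i))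

theorem iInf_lab (τ : Nm B) (f : Nm B → B) :
    (⨅ i, (τ.b i ⇨ f (τ.c i))) = (⨆ η, lab τ η ⊓ (f η)ᶜ)ᶜ := by
  rw [iSup_lab, compl_iSup]
  congr 1
  funext i
  rw [compl_inf, compl_compl, himp_eq, sup_comm]

/-- Boolean-valued equality -/
noncomputable def beq : Nm B → Nm B → B
  | .mk _ c b, .mk _ c' b' => (⨅ i, b i ⇨ ⨆ j, b' j ⊓ beq (c i) (c' j)) ⊓
      (⨅ j, b' j ⇨ ⨆ i, b i ⊓ beq (c i) (c' j))

theorem beq_eq (σ τ : Nm B) : beq σ τ =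
    (⨆ η, lab σ η ⊓ (⨆ ρ, lab τ ρ ⊓ beq η ρ)ᶜ)ᶜ ⊓
      (⨆ ρ, lab τ ρ ⊓ (⨆ η, lab σ η ⊓ beq η ρ)ᶜ)ᶜ := by
  rw [← iInf_lab, ← iInf_lab]
  simp_rw [iSup_lab]
  cases σ
  cases τ
  rfl

/-- Boolean-valued membership -/
noncomputable def bmem (σ τ : Nm B) : B := ⨆ ρ, lab τ ρ ⊓ beq σ ρ

/-- Boolean value of a formula -/
noncomputable def bval : {n : ℕ} → Fm n → (Fin n → Nm B) → B
  | _, .mem i j, v => bmem (v i) (v j)
  | _, .eq i j, v => beq (v i) (v j)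
  | _, .neg φ, v => (bval φ v)ᶜ
  | _, .and φ ψ, v => bval φ v ⊓ bval ψ v
  | _, .ex φ, v => ⨆ x : Nm B, bval φ (Fin.cons x v)

/-- the evaluation of names -/
noncomputable def ev (X : Set (Nm B)) (G : Set B) : Nm B → ZFSet.{0}
  | .mk ι c b => ZFSet.range (fun i : {i : ι // c i ∈ X ∧ lab (.mk ι c b) (c i) ∈ G} =>
      ev X G (c i.1))

end cba

section generic

variable [CompleteBooleanAlgebra B]

/-- hypotheses for the truth lemma -/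
structure Gen (X : Set (Nm B)) (G : Set B) : Prop where
  ultra : IsUltra G
  sup1 : ∀ σ ∈ X, ∀ τ ∈ X, (⨆ ρ, lab τ ρ ⊓ beq σ ρ) ∈ G → ∃ ρ ∈ X, lab τ ρ ⊓ beq σ ρ ∈ G
  sup1' : ∀ σ ∈ X, ∀ ρ ∈ X, (⨆ η, lab σ η ⊓ beq η ρ) ∈ G → ∃ η ∈ X, lab σ η ⊓ beq η ρ ∈ G
  sup2 : ∀ σ ∈ X, ∀ τ ∈ X, (⨆ η, lab σ η ⊓ (⨆ ρ, lab τ ρ ⊓ beq η ρ)ᶜ) ∈ G →
    ∃ η ∈ X, lab σ η ⊓ (⨆ ρ, lab τ ρ ⊓ beq η ρ)ᶜ ∈ G
  sup2' : ∀ σ ∈ X, ∀ τ ∈ X, (⨆ ρ, lab τ ρ ⊓ (⨆ η, lab σ η ⊓ beq η ρ)ᶜ) ∈ G →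
    ∃ ρ ∈ X, lab τ ρ ⊓ (⨆ η, lab σ η ⊓ beq η ρ)ᶜ ∈ G
  sup3 : ∀ (n : ℕ) (φ : Fm (n + 1)) (v : Fin n → Nm B), (∀ i, v i ∈ X) →
    (⨆ x, bval φ (Fin.cons x v)) ∈ G → ∃ x ∈ X, bval φ (Fin.cons x v) ∈ G

variable {X : Set (Nm B)} {G : Set B}

theorem mem_ev (hG : IsUltra G) {τ : Nm B} {x : ZFSet.{0}} :
    x ∈ ev X G τ ↔ ∃ η ∈ X, lab τ η ∈ G ∧ ev X G η = x := by
  cases τ with
  | mk ι c b =>
    rw [ev, mem_range]
    constructor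
    · rintro ⟨⟨i, h1, h2⟩, rfl⟩
      exact ⟨c i, h1, h2, rfl⟩
    · rintro ⟨η, h1, h2, rfl⟩
      by_cases h : ∃ i, c i = η
      · obtain ⟨i, rfl⟩ := h
        exact ⟨⟨i, h1, h2⟩, rfl⟩
      · exfalso
        have : lab (.mk ι c b) η = ⊥ := by
          rw [lab]
          simp only [iSup_eq_bot]
          intro i hi
          exact absurd ⟨i, hi⟩ h
        rw [this] at h2
        exact hG.bot_notMem h2

/-- members of a name are `<` -/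
theorem lab_induction {P : Nm B → Prop} (h : ∀ τ, (∀ η, lab τ η ≠ ⊥ → P η) → P τ) (τ : Nm B) :
    P τ := by
  induction τ with
  | mk ι c b ih =>
    apply h
    intro η hη
    by_cases h : ∃ i, c i = η
    · obtain ⟨i, rfl⟩ := h
      exact ih i
    · exfalso
      apply hη
      rw [lab]
      simp only [iSup_eq_bot]
      intro i hi
      exact absurd ⟨i, hi⟩ h

theorem IsUltra.ne_bot {G : Set B} (hG : IsUltra G) {a : B} (h : a ∈ G) : a ≠ ⊥ := by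
  rintro rfl
  exact hG.bot_notMem h

theorem Gen.beq_iff (h : Gen X G) : ∀ σ, σ ∈ X → ∀ τ ∈ X,
    (beq σ τ ∈ G ↔ ev X G σ = ev X G τ) := by
  have hG := h.ultra
  intro σ
  induction σ using lab_induction with
  | h σ ih =>
  intro hσ τ hτ
  have ih' : ∀ η ∈ X, lab σ η ∈ G → ∀ ρ ∈ X, (beq η ρ ∈ G ↔ ev X G η = ev X G ρ) :=
    fun η hη h1 ρ hρ => ih η (hG.ne_bot h1) hη ρ hρ
  rw [beq_eq, hG.inf_iff, hG.compl_iff, hG.compl_iff]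
  have h1 : (⨆ η, lab σ η ⊓ (⨆ ρ, lab τ ρ ⊓ beq η ρ)ᶜ) ∉ G ↔ ev X G σ ⊆ ev X G τ := by
    constructor
    · intro h1 x hx
      obtain ⟨η, hη, h2, rfl⟩ := (mem_ev hG).1 hx
      have h3 : (⨆ ρ, lab τ ρ ⊓ beq η ρ) ∈ G := by
        by_contra h3
        apply h1
        rw [← hG.compl_iff] at h3
        exact hG.up (hG.inf h2 h3) (le_iSup (fun η => lab σ η ⊓ (⨆ ρ, lab τ ρ ⊓ beq η ρ)ᶜ) η)
      obtain ⟨ρ, hρ, h4⟩ := h.sup1 η hη τ hτ h3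
      rw [hG.inf_iff] at h4
      exact (mem_ev hG).2 ⟨ρ, hρ, h4.1, ((ih' η hη h2 ρ hρ).1 h4.2).symm⟩
    · intro h1 h2
      obtain ⟨η, hη, h3⟩ := h.sup2 σ hσ τ hτ h2
      rw [hG.inf_iff, hG.compl_iff] at h3
      obtain ⟨ρ, hρ, h4, h5⟩ := (mem_ev hG).1 (h1 ((mem_ev hG).2 ⟨η, hη, h3.1, rfl⟩))
      apply h3.2
      have h6 := (ih' η hη h3.1 ρ hρ).2 h5.symm
      exact hG.up (hG.inf h4 h6) (le_iSup (fun ρ => lab τ ρ ⊓ beq η ρ) ρ)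
  have h2 : (⨆ ρ, lab τ ρ ⊓ (⨆ η, lab σ η ⊓ beq η ρ)ᶜ) ∉ G ↔ ev X G τ ⊆ ev X G σ := by
    constructor
    · intro h1 x hx
      obtain ⟨ρ, hρ, h2, rfl⟩ := (mem_ev hG).1 hx
      have h3 : (⨆ η, lab σ η ⊓ beq η ρ) ∈ G := by
        by_contra h3
        apply h1
        rw [← hG.compl_iff] at h3
        exact hG.up (hG.inf h2 h3) (le_iSup (fun ρ => lab τ ρ ⊓ (⨆ η, lab σ η ⊓ beq η ρ)ᶜ) ρ)
      obtain ⟨η, hη, h4⟩ := h.sup1' σ hσ ρ hρ h3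
      rw [hG.inf_iff] at h4
      exact (mem_ev hG).2 ⟨η, hη, h4.1, (ih' η hη h4.1 ρ hρ).1 h4.2⟩
    · intro h1 h2
      obtain ⟨ρ, hρ, h3⟩ := h.sup2' σ hσ τ hτ h2
      rw [hG.inf_iff, hG.compl_iff] at h3
      obtain ⟨η, hη, h4, h5⟩ := (mem_ev hG).1 (h1 ((mem_ev hG).2 ⟨ρ, hρ, h3.1, rfl⟩))
      apply h3.2
      have h6 := (ih' η hη h4 ρ hρ).2 h5
      exact hG.up (hG.inf h4 h6) (le_iSup (fun η => lab σ η ⊓ beq η ρ) η)
  rw [h1, h2]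
  exact ⟨fun h => subset_antisymm h.1 h.2, fun h => by rw [h]; exact ⟨subset_rfl, subset_rfl⟩⟩

theorem Gen.bmem_iff (h : Gen X G) {σ τ : Nm B} (hσ : σ ∈ X) (hτ : τ ∈ X) :
    bmem σ τ ∈ G ↔ ev X G σ ∈ ev X G τ := by
  have hG := h.ultra
  rw [bmem, mem_ev hG]
  constructor
  · intro h1
    obtain ⟨ρ, hρ, h2⟩ := h.sup1 σ hσ τ hτ h1
    rw [hG.inf_iff] at h2
    exact ⟨ρ, hρ, h2.1, ((h.beq_iff σ hσ ρ hρ).1 h2.2).symm⟩
  · rintro ⟨ρ, hρ, h1, h2⟩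
    exact hG.up (hG.inf h1 ((h.beq_iff σ hσ ρ hρ).2 h2.symm))
      (le_iSup (fun ρ => lab τ ρ ⊓ beq σ ρ) ρ)

/-- the model -/
def Mod (X : Set (Nm B)) (G : Set B) : Set ZFSet.{0} := {x | ∃ σ ∈ X, ev X G σ = x}

/-- the truth lemma -/
theorem Gen.truth (h : Gen X G) : ∀ {n : ℕ} (φ : Fm n) (v : Fin n → Nm B), (∀ i, v i ∈ X) →
    (bval φ v ∈ G ↔ Sat (Mod X G) φ (fun i => ev X G (v i))) := by
  have hG := h.ultra
  intro n φ
  induction φ with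
  | mem i j => intro v hv; exact h.bmem_iff (hv i) (hv j)
  | eq i j => intro v hv; exact h.beq_iff _ (hv i) _ (hv j)
  | neg φ ih => intro v hv; rw [bval, hG.compl_iff, ih v hv]; rfl
  | and φ ψ ih1 ih2 => intro v hv; rw [bval, hG.inf_iff, ih1 v hv, ih2 v hv]; rfl
  | ex φ ih =>
    intro v hv
    rw [bval, Sat]
    have key : ∀ x ∈ X, (bval φ (Fin.cons x v) ∈ G ↔
        Sat (Mod X G) φ (Fin.cons (ev X G x) (fun i => ev X G (v i)))) := by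
      intro x hx
      rw [ih (Fin.cons x v) (fun i => by
        refine Fin.cases ?_ (fun i => ?_) i
        · exact hx
        · exact hv i)]
      rw [iff_iff_eq]
      congr 1
      funext i
      refine Fin.cases ?_ (fun i => ?_) i
      · rfl
      · rfl
    constructor
    · intro h1
      obtain ⟨x, hx, h2⟩ := h.sup3 _ φ v hv h1
      exact ⟨_, ⟨x, hx, rfl⟩, (key x hx).1 h2⟩
    · rintro ⟨_, ⟨x, hx, rfl⟩, h1⟩
      exact hG.up ((key x hx).2 h1) (le_iSup (fun x => bval φ (Fin.cons x v)) x)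

end generic

end Pool.Agent.Work.MP_6efb98_lc
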