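import Pool.Agent.Work.MP_6efb98_lc.Neg2

/-!
The positive relation in `M`, cardinals of `M`, the continuum of `M`.
-/

namespace Pool.Agent.Work.MP_6efb98_lc

open ZFSet

universe u v w
variable {M : Set ZFSet.{0}}

section collapse

variable (A : ZFSet.{0})

/-- Mostowski collapse of a set of ordinals -/
noncomputable def collapse : ZFSet.{0} → ZFSet.{0} :=
  recF (fun q => ran q.2) (fun β => A ∩ β) (fun _ _ h => rank_lt_of_mem (mem_inter.1 h).2)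

variable {A}

theorem mem_collapse {β x : ZFSet.{0}} : x ∈ collapse A β ↔ ∃ γ ∈ A, γ ∈ β ∧ collapse A γ = x := by
  rw [collapse, recF_eq, ← collapse]
  simp only [mem_ran, mem_graph, mem_inter]
  constructor
  · rintro ⟨γ, ⟨h1, h2⟩, rfl⟩
    exact ⟨γ, h1, h2, rfl⟩
  · rintro ⟨γ, h1, h2, rfl⟩
    exact ⟨γ, ⟨h1, h2⟩, rfl⟩

theorem dfn_collapse [Model M] (hA : A ∈ M) : Dfn M (collapse A) := by
  have : InM M A := inM_zf.2 hA
  refine dfn_rec (F := fun q => ran q.2) (ext := fun β => A ∩ β) (by fun_prop)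
    (by fun_prop (disch := assumption)) (fun _ _ h => rank_lt_of_mem (mem_inter.1 h).2)
    (recF_eq _ _ _)

theorem collapse_ordinal {β : ZFSet.{0}} : β.IsOrdinal → (collapse A β).IsOrdinal := by
  induction β using ZFSet.inductionOn with
  | h β ih =>
  intro hβ
  rw [isOrdinal_iff_forall_mem_isOrdinal]
  constructor
  · intro y hy z hz
    obtain ⟨γ, hγ, hγβ, rfl⟩ := mem_collapse.1 hy
    obtain ⟨γ', hγ', hγγ, rfl⟩ := mem_collapse.1 hz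
    exact mem_collapse.2 ⟨γ', hγ', hβ.mem_trans hγγ hγβ, rfl⟩
  · intro y hy
    obtain ⟨γ, hγ, hγβ, rfl⟩ := mem_collapse.1 hy
    exact ih γ hγβ (hβ.mem hγβ)

theorem collapse_subset {β : ZFSet.{0}} : β.IsOrdinal → collapse A β ⊆ β := by
  induction β using ZFSet.inductionOn with
  | h β ih =>
  intro hβ y hy
  obtain ⟨γ, hγ, hγβ, rfl⟩ := mem_collapse.1 hy
  exact (collapse_ordinal (hβ.mem hγβ)).mem_of_subset_of_mem hβ (ih γ hγβ (hβ.mem hγβ)) hγβ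

theorem collapse_lt {β γ : ZFSet.{0}} (hγ : γ ∈ A) (h : γ ∈ β) : collapse A γ ∈ collapse A β :=
  mem_collapse.2 ⟨γ, hγ, h, rfl⟩

theorem collapse_inj {β γ : ZFSet.{0}} (hβo : β.IsOrdinal) (hγo : γ.IsOrdinal) (hβ : β ∈ A)
    (hγ : γ ∈ A) (h : collapse A β = collapse A γ) : β = γ := by
  rcases hβo.mem_trichotomous hγo with h1 | h1 | h1
  · have := collapse_lt hβ h1
    rw [h] at this
    exact absurd this (mem_irrefl _)
  · exact h1
  · have := collapse_lt hγ h1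
    rw [h] at this
    exact absurd this (mem_irrefl _)

end collapse

variable [hM : Model M]

/-- an unbounded subset of a regular cardinal has full cardinality -/
theorem equinum_of_unbounded {κ : ZFSet.{0}} (hκ : Reg M κ) {A : ZFSet.{0}} (hA : A ∈ M)
    (hAκ : A ⊆ κ) (hunb : ∀ γ ∈ κ, ¬ A ⊆ γ) : Equinum M κ A := by
  have hcol := dfn_collapse (M := M) hA
  have hf : Dfn M (fun A' : ZFSet.{0} => img (fun α => pair (collapse A α) α) A') := by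
    fun_prop
  set f := img (fun α => pair (collapse A α) α) A with hfdef
  have hfM : f ∈ M := inM_zf.1 (hf.1 A (inM_zf.2 hA))
  have hfm : ∀ x y, pair x y ∈ f ↔ y ∈ A ∧ x = collapse A y := by
    intro x y
    simp only [hfdef, mem_img, pair_inj]
    constructor
    · rintro ⟨z, hz, rfl, rfl⟩
      exact ⟨hz, rfl⟩
    · rintro ⟨h1, rfl⟩
      exact ⟨y, h1, rfl, rfl⟩
  have hfrel : IsRel f := by
    intro z hz
    obtain ⟨x, _, rfl⟩ := mem_img.1 hz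
    exact ⟨_, _, rfl⟩
  have hsv : Sv f := by
    intro x y z hy hz
    rw [hfm] at hy hz
    exact collapse_inj (A := A) (hκ.ord.mem (hAκ hy.1)) (hκ.ord.mem (hAκ hz.1)) hy.1 hz.1
      (hy.2.symm.trans hz.2)
  have hdomκ : dom f ⊆ κ := by
    intro x hx
    obtain ⟨y, hy⟩ := mem_dom.1 hx
    rw [hfm] at hy
    rw [hy.2]
    have hyκ := hAκ hy.1
    exact (collapse_ordinal (hκ.ord.mem hyκ)).mem_of_subset_of_mem hκ.ord
      (collapse_subset (hκ.ord.mem hyκ)) hyκ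
  have hran : ran f = A := by
    ext y
    rw [mem_ran]
    constructor
    · rintro ⟨x, hx⟩
      exact ((hfm x y).1 hx).1
    · intro hy
      exact ⟨_, (hfm _ y).2 ⟨hy, rfl⟩⟩
  have hdomo : (dom f).IsOrdinal := by
    rw [isOrdinal_iff_forall_mem_isOrdinal]
    constructor
    · intro x hx y hy
      obtain ⟨z, hz⟩ := mem_dom.1 hx
      rw [hfm] at hz
      obtain ⟨hz1, rfl⟩ := hz
      obtain ⟨γ, hγ, _, rfl⟩ := mem_collapse.1 hy
      exact mem_dom.2 ⟨γ, (hfm _ _).2 ⟨hγ, rfl⟩⟩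
    · intro x hx
      exact hκ.ord.mem (hdomκ hx)
  have hdom : dom f = κ := by
    rcases hdomo.eq_or_mem_of_subset hκ.ord hdomκ with h | h
    · exact h
    · exfalso
      obtain ⟨β, hβ, h1⟩ := hκ.bdd _ h f hfM hsv subset_rfl (by rw [hran]; exact hAκ)
      rw [hran] at h1
      exact hunb β hβ h1
  refine ⟨f, hfM, isFunc_iff'.2 ⟨hfrel, hsv, hdom, by rw [hran]⟩, ?_⟩
  intro y hy
  refine ⟨collapse A y, ⟨?_, (hfm _ _).2 ⟨hy, rfl⟩⟩, ?_⟩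
  · rw [← hdom]
    exact mem_dom.2 ⟨y, (hfm _ _).2 ⟨hy, rfl⟩⟩
  · rintro x ⟨_, hx⟩
    exact ((hfm _ _).1 hx).2

/-- the positive relation -/
theorem polarized_of_sp {κ : ZFSet.{0}} (hκ : Reg M κ) (hS : Sp M κ) : Polarized M κ := by
  intro c hc hcf
  obtain ⟨hcr, hcs, hcd, hcran⟩ := isFunc_iff'.1 hcf
  have hci : InM M c := inM_zf.2 hc
  have hκi : InM M κ := inM_zf.2 hκ.mem
  have hωi : InM M omega := inM_omega
  have hei : InM M (∅ : ZFSet.{0}) := inM_empty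
  have hc' : Dfn M (fun κ' : ZFSet.{0} => ZFSet.sep (fun w => pair w {∅} ∈ c) (prod κ' omega)) := by
    fun_prop (disch := assumption)
  obtain ⟨x, hxM, hxω, hxunb, hx⟩ := hS _ (inM_zf.1 (hc'.1 κ hκi))
  have hxi : InM M x := inM_zf.2 hxM
  have hc'm : ∀ α ∈ κ, ∀ n ∈ omega, pair α n ∈ ZFSet.sep (fun w => pair w {∅} ∈ c) (prod κ omega) ↔
      pair (pair α n) {∅} ∈ c := by
    intro α hα n hn
    rw [mem_sep, pair_mem_prod]
    exact ⟨fun h => h.2, fun h => ⟨⟨hα, hn⟩, h⟩⟩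
  have hc0 : ∀ α ∈ κ, ∀ n ∈ omega, ¬ pair (pair α n) {∅} ∈ c → pair (pair α n) ∅ ∈ c := by
    intro α hα n hn h
    obtain ⟨i, hi⟩ := mem_dom.1 (hcd ▸ pair_mem_prod.2 ⟨hα, hn⟩ : pair α n ∈ dom c)
    have hi2 := hcran (mem_ran.2 ⟨_, hi⟩)
    rcases mem_pair.1 hi2 with rfl | rfl
    · exact hi
    · exact absurd hi h
  -- homogeneous sets
  set H : ZFSet.{0} → ZFSet.{0} → ZFSet.{0} := fun m i => ZFSet.sep (fun α =>
    BAll x (fun n => Imp (m ∈ n) (pair (pair α n) i ∈ c))) κ with hH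
  have hHd : Dfn M (fun q : ZFSet.{0} × ZFSet.{0} => H q.1 q.2) := by
    rw [hH]
    fun_prop (disch := assumption)
  have hHmem : ∀ m i α, α ∈ H m i ↔ α ∈ κ ∧ ∀ n ∈ x, m ∈ n → pair (pair α n) i ∈ c := by
    intro m i α
    rw [hH]
    exact mem_sep
  have hcover : ∀ α ∈ κ, ∃ m ∈ omega, α ∈ H m {∅} ∪ H m ∅ := by
    intro α hα
    obtain ⟨m, hm, h | h⟩ := hx α hα
    · refine ⟨m, hm, mem_union.2 (Or.inl ((hHmem _ _ _).2 ⟨hα, fun n hn hmn => ?_⟩))⟩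
      exact (hc'm α hα n (hxω hn)).1 (h n hn hmn)
    · refine ⟨m, hm, mem_union.2 (Or.inr ((hHmem _ _ _).2 ⟨hα, fun n hn hmn => ?_⟩))⟩
      exact hc0 α hα n (hxω hn) (fun h2 => h n hn hmn ((hc'm α hα n (hxω hn)).2 h2))
  obtain ⟨m, hm, i, hi, hunb⟩ : ∃ m ∈ omega, ∃ i, i ∈ M ∧ ∀ γ ∈ κ, ¬ H m i ⊆ γ := by
    by_contra hcon
    push Not at hcon
    have hb : ∀ m ∈ omega, ∃ γ ∈ κ, H m {∅} ∪ H m ∅ ⊆ γ := by
      intro m hm
      obtain ⟨γ1, hγ1, h1⟩ := hcon m hm {∅} (singleton_mem empty_mem)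
      obtain ⟨γ2, hγ2, h2⟩ := hcon m hm ∅ empty_mem
      obtain ⟨γ, hγ, h3, h4⟩ := max_mem hκ.ord hγ1 hγ2
      refine ⟨γ, hγ, fun y hy => ?_⟩
      rcases mem_union.1 hy with hy | hy
      · exact h3 (h1 hy)
      · exact h4 (h2 hy)
    have hg : Dfn M (fun ω' : ZFSet.{0} => graph
        (fun m => (⋂₀ (ZFSet.sep (fun γ => H m {∅} ∪ H m ∅ ⊆ γ) κ) : ZFSet)) ω') := by
      have h1 : Dfn M (fun m : ZFSet.{0} => H m {∅}) :=
        dfn_comp (f := fun m : ZFSet.{0} => (m, ({∅} : ZFSet.{0}))) hHd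
          (by fun_prop (disch := assumption))
      have h2 : Dfn M (fun m : ZFSet.{0} => H m ∅) :=
        dfn_comp (f := fun m : ZFSet.{0} => (m, (∅ : ZFSet.{0}))) hHd
          (by fun_prop (disch := assumption))
      refine dfn_graph (by fun_prop) (dfn_sInter (dfn_sep (dfn_const hκi) ?_))
      exact dfn_subset (dfn_union (dfn_comp h1 (by fun_prop)) (dfn_comp h2 (by fun_prop)))
        (by fun_prop)
    have hmin : ∀ m ∈ omega, (⋂₀ (ZFSet.sep (fun γ => H m {∅} ∪ H m ∅ ⊆ γ) κ) : ZFSet) ∈ κ ∧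
        H m {∅} ∪ H m ∅ ⊆ (⋂₀ (ZFSet.sep (fun γ => H m {∅} ∪ H m ∅ ⊆ γ) κ) : ZFSet) := by
      intro m hm
      obtain ⟨γ, hγ, h⟩ := hb m hm
      exact mem_sep.1 (sInter_mem_of_ordinals
        (X := ZFSet.sep (fun γ => H m {∅} ∪ H m ∅ ⊆ γ) κ) ⟨γ, mem_sep.2 ⟨hγ, h⟩⟩
        (fun y hy => hκ.ord.mem (mem_sep.1 hy).1)).1
    obtain ⟨b, hb1, hb2⟩ := hκ.bdd omega hκ.omega_mem _ (inM_zf.1 (hg.1 omega hωi)) sv_graph
      (by rw [dom_graph]) (by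
        intro y hy
        obtain ⟨m, hmy⟩ := mem_ran.1 hy
        have hmy2 := mem_graph.1 hmy
        rw [hmy2.2]
        exact (hmin m hmy2.1).1)
    obtain ⟨m, hm, h1⟩ := hcover b hb1
    have h2 := (hmin m hm).2 h1
    have h3 := hb2 (mem_ran.2 ⟨m, mem_graph.2 ⟨hm, rfl⟩⟩)
    exact mem_asymm h2 h3
  have hHM : H m i ∈ M := inM_zf.1 (hHd.1 (m, i) (inM_prod.2
    ⟨inM_zf.2 (trans_mem omega_mem hm), inM_zf.2 hi⟩))
  have hHκ : H m i ⊆ κ := fun α hα => ((hHmem _ _ _).1 hα).1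
  have hBM : ZFSet.sep (fun n => m ∈ n) x ∈ M := by
    have : InM M m := inM_zf.2 (trans_mem omega_mem hm)
    have h1 : Dfn M (fun x' : ZFSet.{0} => ZFSet.sep (fun n => m ∈ n) x') := by
      fun_prop (disch := assumption)
    exact inM_zf.1 (h1.1 x hxi)
  refine ⟨H m i, hHM, hHκ, equinum_of_unbounded hκ hHM hHκ hunb, _, hBM,
    fun n hn => hxω (mem_sep.1 hn).1, ?_, i, ?_⟩
  · apply infinite_of_unb (fun n hn => hxω (mem_sep.1 hn).1)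
    intro k hk
    obtain ⟨a, rfl⟩ := mem_omega_iff.1 hm
    obtain ⟨b, rfl⟩ := mem_omega_iff.1 hk
    obtain ⟨n, hn, h1⟩ := hxunb (nat (max a b)) (nat_mem_omega _)
    obtain ⟨n, rfl⟩ := mem_omega_iff.1 (hxω hn)
    have h2 := nat_mem_nat.1 h1
    exact ⟨nat n, mem_sep.2 ⟨hn, nat_mem_nat.2 (lt_of_le_of_lt (le_max_left _ _) h2)⟩,
      nat_mem_nat.2 (lt_of_le_of_lt (le_max_right _ _) h2)⟩
  · intro α hα n hn
    exact ((hHmem _ _ _).1 hα).2 n (mem_sep.1 hn).1 (mem_sep.1 hn).2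

omit hM in
theorem Reg.isCardinal {κ : ZFSet.{0}} (hκ : Reg M κ) : IsCardinal M κ := by
  refine ⟨hκ.mem, hκ.ord, hκ.ord.subset_of_mem hκ.omega_mem, ?_⟩
  rintro α hα ⟨f, hf, h1, h2⟩
  obtain ⟨h3, h4, h5, h6⟩ := isFunc_iff'.1 h1
  obtain ⟨β, hβ, h7⟩ := hκ.bdd α hα f hf h4 (by rw [h5]) h6
  obtain ⟨x, ⟨_, hx⟩, _⟩ := h2 β hβ
  exact mem_irrefl _ (h7 (mem_ran.2 ⟨x, hx⟩))

/-- the continuum of `M` -/
theorem exists_continuum {κ : ZFSet.{0}} (hκ : Reg M κ) (hS : Sp M κ) (hR : Rp M κ) :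
    ∃ l ∈ M, κ ∈ l ∧ IsContinuum M l := by
  have hei : InM M (∅ : ZFSet.{0}) := inM_empty
  have hωi : InM M omega := inM_omega
  set a := pw M omega with ha
  have haM : a ∈ M := inM_zf.1 ((dfn_pw (dfn_id (α := ZFSet.{0}))).1 omega inM_omega)
  have hai : InM M a := inM_zf.2 haM
  obtain ⟨α, hα, hαo, f0, hf0, h1, h2, h3⟩ := hM.wo a haM
  -- ordinals that map onto `a`
  set W : ZFSet.{0} → Prop := fun ξ => MEx M (fun f => Sv f ∧ dom f ⊆ ξ ∧ a ⊆ ran f) with hW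
  have hWd : Dfn M W := by
    rw [hW]
    fun_prop (disch := assumption)
  have hX : Dfn M (fun α' : ZFSet.{0} => ZFSet.sep W (insert α' α')) := by
    exact dfn_sep (P := fun _ ξ => W ξ) (by fun_prop) (dfn_comp hWd dfn_fst)
  have hWα : W α := by
    refine ⟨f0, hf0, fun x y z hy hz => h2 x y z hy hz, ?_, ?_⟩
    · intro x hx
      obtain ⟨y, hy⟩ := mem_dom.1 hx
      obtain ⟨β, hβ, z, h4⟩ := h1 _ hy
      rw [(pair_inj.1 h4).1]
      exact hβ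
    · intro x hx
      obtain ⟨β, hβ⟩ := h3 x hx
      exact mem_ran.2 ⟨β, hβ⟩
  set l : ZFSet.{0} := ⋂₀ (ZFSet.sep W (insert α α)) with hl
  have hall : ∀ x ∈ ZFSet.sep W (insert α α), x.IsOrdinal := by
    intro x hx
    exact (isOrdinal_succ hαo).mem (mem_sep.1 hx).1
  obtain ⟨hl1, hl2⟩ := sInter_mem_of_ordinals ⟨α, mem_sep.2 ⟨mem_insert _ _, hWα⟩⟩ hall
  rw [← hl] at hl1 hl2
  have hlo : l.IsOrdinal := hall l hl1
  have hlM : l ∈ M := by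
    have : insert α α ∈ M := inM_zf.1 ((dfn_insert (dfn_id (α := ZFSet.{0})) dfn_id).1 α
      (inM_zf.2 hα))
    exact trans_mem this (mem_sep.1 hl1).1
  have hli : InM M l := inM_zf.2 hlM
  obtain ⟨f, hf, hfs, hfd, hfr⟩ := (mem_sep.1 hl1).2
  have hfi : InM M f := inM_zf.2 hf
  have hmin : ∀ ξ, W ξ → ξ ∉ l := by
    intro ξ hξ hξl
    have h4 : ξ ∈ insert α α := (isOrdinal_succ hαo).mem_trans hξl (mem_sep.1 hl1).1
    exact mem_irrefl _ (hl2 ξ (mem_sep.2 ⟨h4, hξ⟩) hξl)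
  -- least preimages
  have hAd : Dfn M (fun l' : ZFSet.{0} => ZFSet.sep (fun ξ => BEx a (fun x => pair ξ x ∈ f ∧
      BAll ξ (fun η => ¬ pair η x ∈ f))) l') := by
    fun_prop (disch := assumption)
  set A := ZFSet.sep (fun ξ => BEx a (fun x => pair ξ x ∈ f ∧
      BAll ξ (fun η => ¬ pair η x ∈ f))) l with hA
  have hAM : A ∈ M := inM_zf.1 (hAd.1 l hli)
  have hAi : InM M A := inM_zf.2 hAM
  have hAl : A ⊆ l := fun x hx => (mem_sep.1 hx).1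
  have hcol := dfn_collapse (M := M) hAM
  have hleast : ∀ x ∈ a, ∃ ξ ∈ A, pair ξ x ∈ f ∧ ∀ η, pair η x ∈ f → ξ ⊆ η := by
    intro x hx
    obtain ⟨ξ0, hξ0⟩ := mem_ran.1 (hfr hx)
    have h4 : ∀ y ∈ ZFSet.sep (fun η => pair η x ∈ f) l, y.IsOrdinal := fun y hy =>
      hlo.mem (mem_sep.1 hy).1
    obtain ⟨h5, h6⟩ := sInter_mem_of_ordinals
      ⟨ξ0, mem_sep.2 ⟨hfd (mem_dom.2 ⟨x, hξ0⟩), hξ0⟩⟩ h4
    set ξ : ZFSet.{0} := ⋂₀ (ZFSet.sep (fun η => pair η x ∈ f) l) with hξ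
    refine ⟨ξ, mem_sep.2 ⟨(mem_sep.1 h5).1, x, hx, (mem_sep.1 h5).2, ?_⟩, (mem_sep.1 h5).2, ?_⟩
    · intro η hη h7
      have := h6 η (mem_sep.2 ⟨hlo.mem_trans hη (mem_sep.1 h5).1, h7⟩)
      exact mem_irrefl _ (this hη)
    · intro η h7
      exact h6 η (mem_sep.2 ⟨hfd (mem_dom.2 ⟨x, h7⟩), h7⟩)
  have hAinj : ∀ ξ ∈ A, ∀ ξ' ∈ A, ∀ x, pair ξ x ∈ f → pair ξ' x ∈ f → ξ = ξ' := by
    intro ξ hξ ξ' hξ' x h4 h5
    obtain ⟨hξl, y, _, h6, h7⟩ := mem_sep.1 hξ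
    obtain ⟨hξ'l, y', _, h6', h7'⟩ := mem_sep.1 hξ'
    rw [hfs _ _ _ h6 h4] at h7
    rw [hfs _ _ _ h6' h5] at h7'
    rcases (hlo.mem hξl).mem_trichotomous (hlo.mem hξ'l) with h8 | h8 | h8
    · exact absurd h4 (h7' _ h8)
    · exact h8
    · exact absurd h5 (h7 _ h8)
  -- the bijection
  have hgd : Dfn M (fun A' : ZFSet.{0} => img (fun ξ => pair (collapse A ξ) (app f ξ)) A') := by
    fun_prop (disch := assumption)
  set g := img (fun ξ => pair (collapse A ξ) (app f ξ)) A with hg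
  have hgM : g ∈ M := inM_zf.1 (hgd.1 A hAi)
  have hgm : ∀ x y, pair x y ∈ g ↔ ∃ ξ ∈ A, x = collapse A ξ ∧ pair ξ y ∈ f := by
    intro x y
    rw [hg]
    simp only [mem_img, pair_inj]
    constructor
    · rintro ⟨ξ, hξ, rfl, rfl⟩
      refine ⟨ξ, hξ, rfl, ?_⟩
      obtain ⟨_, y, _, h4, _⟩ := mem_sep.1 hξ
      rw [hfs.app_eq h4]
      exact h4
    · rintro ⟨ξ, hξ, rfl, h4⟩
      exact ⟨ξ, hξ, rfl, hfs.app_eq h4⟩
  have hgsv : Sv g := by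
    intro x y z hy hz
    obtain ⟨ξ, hξ, rfl, h4⟩ := (hgm _ _).1 hy
    obtain ⟨ξ', hξ', h5, h6⟩ := (hgm _ _).1 hz
    have := collapse_inj (hlo.mem (hAl hξ)) (hlo.mem (hAl hξ')) hξ hξ' h5
    subst this
    exact hfs _ _ _ h4 h6
  have hgdom : dom g = collapse A l := by
    ext x
    rw [mem_dom, mem_collapse]
    constructor
    · rintro ⟨y, hy⟩
      obtain ⟨ξ, hξ, rfl, _⟩ := (hgm _ _).1 hy
      exact ⟨ξ, hξ, hAl hξ, rfl⟩
    · rintro ⟨ξ, hξ, _, rfl⟩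
      obtain ⟨_, y, _, h4, _⟩ := mem_sep.1 hξ
      exact ⟨y, (hgm _ _).2 ⟨ξ, hξ, rfl, h4⟩⟩
  have hgran : a ⊆ ran g := by
    intro x hx
    obtain ⟨ξ, hξ, h4, _⟩ := hleast x hx
    exact mem_ran.2 ⟨_, (hgm _ _).2 ⟨ξ, hξ, rfl, h4⟩⟩
  have hgran2 : ran g ⊆ a := by
    intro y hy
    obtain ⟨x, hx⟩ := mem_ran.1 hy
    obtain ⟨ξ, hξ, _, h4⟩ := (hgm _ _).1 hx
    obtain ⟨_, y', hy', h5, _⟩ := mem_sep.1 hξ
    rw [hfs _ _ _ h4 h5]
    exact hy'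
  have hdomg : dom g = l := by
    rw [hgdom]
    rcases (collapse_ordinal (A := A) hlo).eq_or_mem_of_subset hlo (collapse_subset hlo) with h | h
    · exact h
    · exact absurd h (hmin _ ⟨g, hgM, hgsv, by rw [hgdom], hgran⟩)
  have hequi : Equinum M l a := by
    refine ⟨g, hgM, isFunc_iff'.2 ⟨?_, hgsv, hdomg, hgran2⟩, ?_⟩
    · intro z hz
      obtain ⟨x, _, rfl⟩ := mem_img.1 hz
      exact ⟨_, _, rfl⟩
    · intro y hy
      obtain ⟨x, hx⟩ := mem_ran.1 (hgran hy)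
      refine ⟨x, ⟨hdomg ▸ mem_dom.2 ⟨y, hx⟩, hx⟩, ?_⟩
      rintro x' ⟨_, hx'⟩
      obtain ⟨ξ, hξ, rfl, h4⟩ := (hgm _ _).1 hx
      obtain ⟨ξ', hξ', rfl, h5⟩ := (hgm _ _).1 hx'
      rw [hAinj ξ hξ ξ' hξ' y h4 h5]
  -- `κ < l`
  have hκl : κ ∈ l := by
    by_contra hcon
    have hlκ : l ⊆ κ := (hκ.ord.notMem_iff_subset hlo).1 hcon
    have hcd : Dfn M (fun l' : ZFSet.{0} => ZFSet.sep (fun w => BEx l' (fun β =>
        BEx (app f β) (fun n => w = pair β n))) (prod l' omega)) := by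
      fun_prop (disch := assumption)
    obtain ⟨x, hxM, hxω, hxunb, hx⟩ := hS _ (inM_zf.1 (hcd.1 l hli))
    have hxd : Dfn M (fun x' : ZFSet.{0} => prod {∅} x') := by fun_prop (disch := assumption)
    obtain ⟨S, hSM, hSω, hSs⟩ := hR _ (inM_zf.1 (hxd.1 x (inM_zf.2 hxM)))
    have h4 := hSs ∅ (subset_omega_of_mem hκ) (by
      intro m hm
      obtain ⟨n, hn, hmn⟩ := hxunb m hm
      exact ⟨n, hxω hn, hmn, pair_mem_prod.2 ⟨mem_singleton.2 rfl, hn⟩⟩)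
    obtain ⟨β, hβ⟩ := mem_ran.1 (hfr (mem_pw.2 ⟨hSω, hSM⟩))
    have hβl : β ∈ l := hfd (mem_dom.2 ⟨_, hβ⟩)
    have hβf : app f β = S := hfs.app_eq hβ
    have hmem : ∀ n, pair β n ∈ ZFSet.sep (fun w => BEx l (fun β =>
        BEx (app f β) (fun n => w = pair β n))) (prod l omega) ↔ n ∈ S := by
      intro n
      simp only [mem_sep, pair_mem_prod]
      constructor
      · rintro ⟨_, β', _, n', hn', h⟩
        obtain ⟨rfl, rfl⟩ := pair_inj.1 h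
        rw [← hβf]
        exact hn'
      · intro hn
        exact ⟨⟨hβl, hSω hn⟩, β, hβl, n, hβf ▸ hn, rfl⟩
    obtain ⟨m, hm, h5 | h5⟩ := hx β (hlκ hβl)
    · obtain ⟨_, n, _, hmn, hn, hnS⟩ := h4 m hm
      exact hnS ((hmem n).1 (h5 n (pair_mem_prod.1 hn).2 hmn))
    · obtain ⟨⟨n, _, hmn, hn, hnS⟩, _⟩ := h4 m hm
      exact h5 n (pair_mem_prod.1 hn).2 hmn ((hmem n).2 hnS)
  refine ⟨l, hlM, hκl, ⟨hlM, hlo, ?_, ?_⟩, hequi⟩
  · exact hlo.subset_of_mem (hlo.mem_trans hκ.omega_mem hκl)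
  · rintro ξ hξ ⟨e, he, h4, h5⟩
    obtain ⟨h6, h7, h8, h9⟩ := isFunc_iff'.1 h4
    have hei' : InM M e := inM_zf.2 he
    -- composition
    have hcd : Dfn M (fun ξ' : ZFSet.{0} => graph (fun x => app f (app e x)) ξ') := by
      fun_prop (disch := assumption)
    have hξM : ξ ∈ M := trans_mem hlM hξ
    refine hmin ξ ⟨_, inM_zf.1 (hcd.1 ξ (inM_zf.2 hξM)), sv_graph, by rw [dom_graph], ?_⟩ hξ
    intro y hy
    obtain ⟨x, hx⟩ := mem_ran.1 (hfr hy)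
    obtain ⟨z, ⟨hz, hz2⟩, _⟩ := h5 x (hfd (mem_dom.2 ⟨y, hx⟩))
    refine mem_ran.2 ⟨z, mem_graph.2 ⟨hz, ?_⟩⟩
    rw [h7.app_eq hz2, hfs.app_eq hx]

end Pool.Agent.Work.MP_6efb98_lc
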