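import Pool.Agent.Work.MP_6efb98_lc.NamesZFC
import Pool.Agent.Work.MP_6efb98_lc.Pos

/-!
Regular cardinals and combinatorics in the evaluation of a hull.
-/

namespace Pool.Agent.Work.MP_6efb98_lc

open ZFSet

variable {B : Type} [CompleteBooleanAlgebra B]

omit [CompleteBooleanAlgebra B] in
theorem c_ne (σ : Nm B) : ∀ i, σ.c i ≠ σ := by
  induction σ with
  | mk ι c b ih =>
    intro i h
    have h1 : c i = .mk ι c b := h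
    have h2 := ih i
    rw [h1] at h2
    exact h2 i h1

theorem c_ordN {o a : Ordinal.{0}} (h : a < o) : ∃ i, (ordN o : Nm B).c i = ordN a := by
  rw [ordN]
  exact ⟨Ordinal.ToType.mk ⟨a, h⟩, by simp [Nm.c]⟩

theorem ordN_injective : Function.Injective (ordN : Ordinal.{0} → Nm B) := by
  intro a b h
  rcases lt_trichotomy a b with h1 | h1 | h1
  · obtain ⟨i, hi⟩ := c_ordN (B := B) h1
    rw [h] at hi
    exact absurd hi (c_ne _ _)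
  · exact h1
  · obtain ⟨i, hi⟩ := c_ordN (B := B) h1
    rw [← h] at hi
    exact absurd hi (c_ne _ _)

/-- the family of subsets of `ω` coded by a name -/
noncomputable def fam (c : Nm B) (k : Ordinal.{0}) (n : ℕ) : B :=
  bmem (pairN (ordN k) (ordN (n : Ordinal.{0}))) c

/-- the same family, where the members that are not infinite are replaced by `ω` -/
noncomputable def fam' (c : Nm B) (k : Ordinal.{0}) (n : ℕ) : B :=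
  fam c k n ⊔ (⨅ m : ℕ, ⨆ n' : ℕ, ⨆ _ : m ≤ n', fam c k n')ᶜ

/-- name of a subset of `ω` -/
noncomputable def setN (b : ℕ → B) : Nm B := .mk ℕ (fun n => ordN (n : Ordinal.{0})) b

theorem lab_setN (b : ℕ → B) (n : ℕ) : lab (setN b) (ordN (n : Ordinal.{0})) = b n := by
  apply le_antisymm
  · refine iSup₂_le fun (j : ℕ) h => ?_
    have h1 : ((j : ℕ) : Ordinal.{0}) = n := ordN_injective h
    have h2 : j = n := by exact_mod_cast h1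
    subst h2
    exact le_rfl
  · exact le_lab (setN b) n

/-- `δ` is not the only value at `g` -/
noncomputable def oth (f g : Nm B) (δ : Ordinal.{0}) : B :=
  ⨆ δ' : Ordinal.{0}, ⨆ _ : δ' ≠ δ, bmem (pairN g (ordN δ')) f

/-- `δ` is the only value at `g` -/
noncomputable def uniq (f g : Nm B) (δ : Ordinal.{0}) : B :=
  bmem (pairN g (ordN δ)) f ⊓ (oth f g δ)ᶜ

theorem uniq_disjoint (f g : Nm B) {δ δ' : Ordinal.{0}} (h : δ ≠ δ') :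
    uniq f g δ ⊓ uniq f g δ' = ⊥ := by
  have h1 : bmem (pairN g (ordN δ)) f ≤ oth f g δ' :=
    le_iSup₂_of_le δ h le_rfl
  rw [eq_bot_iff]
  calc uniq f g δ ⊓ uniq f g δ' ≤ oth f g δ' ⊓ (oth f g δ')ᶜ :=
        inf_le_inf (inf_le_left.trans h1) inf_le_right
    _ = ⊥ := inf_compl_self _

/-- countable chain condition -/
def CCC (B : Type) [CompleteBooleanAlgebra B] : Prop :=
  ∀ A : Set B, (∀ a ∈ A, a ≠ ⊥) → (∀ a ∈ A, ∀ b ∈ A, a ≠ b → a ⊓ b = ⊥) → A.Countable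

/-- regular uncountable initial ordinals -/
structure RegO (θ : Ordinal.{0}) : Prop where
  omega_lt : Ordinal.omega0 < θ
  aleph0_lt : Cardinal.aleph0 < θ.cof
  card_lt : ∀ a < θ, a.card < θ.cof

theorem countable_uniq (hB : CCC B) (f g : Nm B) : {δ | uniq f g δ ≠ ⊥}.Countable := by
  have h1 : ((uniq f g) '' {δ | uniq f g δ ≠ ⊥}).Countable := by
    apply hB
    · rintro _ ⟨δ, hδ, rfl⟩
      exact hδ
    · rintro _ ⟨δ, hδ, rfl⟩ _ ⟨δ', hδ', rfl⟩ h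
      exact uniq_disjoint f g (fun h' => h (by rw [h']))
  refine Set.countable_of_injective_of_countable_image ?_ h1
  intro δ hδ δ' hδ' h
  by_contra hne
  have := uniq_disjoint f g hne
  rw [h, inf_idem] at this
  exact hδ' this

theorem exists_bound (hB : CCC B) {θ : Ordinal.{0}} (hθ : RegO θ) (f : Nm B) {a : Ordinal.{0}}
    (ha : a < θ) : ∃ d < θ, ∀ γ < a, ∀ δ < θ, uniq f (ordN γ) δ ≠ ⊥ → δ < d := by
  have h1 : ∀ γ : Ordinal.{0}, ∃ d < θ, ∀ δ < θ, uniq f (ordN γ) δ ≠ ⊥ → δ < d := by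
    intro γ
    have h2 : {δ | δ < θ ∧ uniq f (ordN γ) δ ≠ ⊥}.Countable :=
      (countable_uniq hB f (ordN γ)).mono fun δ h => h.2
    rcases Set.eq_empty_or_nonempty {δ | δ < θ ∧ uniq f (ordN γ) δ ≠ ⊥} with h3 | h3
    · refine ⟨0, Ordinal.omega0_pos.trans hθ.omega_lt, fun δ hδ h4 => ?_⟩
      have : δ ∈ {δ | δ < θ ∧ uniq f (ordN γ) δ ≠ ⊥} := ⟨hδ, h4⟩
      rw [h3] at this
      exact absurd this (Set.notMem_empty _)
    · obtain ⟨e, he⟩ := h2.exists_eq_range h3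
      refine ⟨⨆ n, e n + 1, Ordinal.iSup_add_one_lt_of_lt_cof (by simpa using hθ.aleph0_lt)
        (fun n => ?_), fun δ hδ h4 => ?_⟩
      · have : e n ∈ {δ | δ < θ ∧ uniq f (ordN γ) δ ≠ ⊥} := he ▸ Set.mem_range_self n
        exact this.1
      · have : δ ∈ Set.range e := he ▸ (⟨hδ, h4⟩ : δ ∈ {δ | δ < θ ∧ uniq f (ordN γ) δ ≠ ⊥})
        obtain ⟨n, rfl⟩ := this
        exact Ordinal.lt_iSup_add_one (f := e) n
  choose d hd1 hd2 using h1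
  refine ⟨⨆ i : a.ToType, d i + 1, Ordinal.iSup_add_one_lt_of_lt_cof
    (by simpa using hθ.card_lt a ha) (fun i => hd1 _), fun γ hγ δ hδ h => ?_⟩
  refine (hd2 γ δ hδ h).trans ?_
  have := Ordinal.lt_iSup_add_one (f := fun i : a.ToType => d i) (Ordinal.ToType.mk ⟨γ, hγ⟩)
  simpa using this

/-- the bound for the regularity of `θ` -/
noncomputable def regB (hB : CCC B) {θ : Ordinal.{0}} (hθ : RegO θ) (f : Nm B) (a : Ordinal.{0}) :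
    Ordinal.{0} :=
  open Classical in if h : a < θ then (exists_bound hB hθ f h).choose else 0

theorem regB_spec (hB : CCC B) {θ : Ordinal.{0}} (hθ : RegO θ) (f : Nm B) {a : Ordinal.{0}}
    (ha : a < θ) : regB hB hθ f a < θ ∧
      ∀ γ < a, ∀ δ < θ, uniq f (ordN γ) δ ≠ ⊥ → δ < regB hB hθ f a := by
  rw [regB, dif_pos ha]
  exact (exists_bound hB hθ f ha).choose_spec

/-- preservation of regular cardinals -/
theorem reg_of {X : Set (Nm B)} {G : Set B} (h : Gen X G) (hX : Hull X) (hB : CCC B)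
    {θ : Ordinal.{0}} (hθ : RegO θ) (hθX : ordN θ ∈ X)
    (hop : ∀ f ∈ X, ∀ a, ordN a ∈ X → ordN (regB hB hθ f a) ∈ X)
    (hsup : ∀ f ∈ X, ∀ g ∈ X, ∀ δ, ordN δ ∈ X → oth f g δ ∈ G →
      ∃ δ', ordN δ' ∈ X ∧ δ' ≠ δ ∧ bmem (pairN g (ordN δ')) f ∈ G) :
    Reg (Mod X G) (ev X G (ordN θ)) := by
  have hG := h.ultra
  refine ⟨⟨_, hθX, rfl⟩, ev_ordN_ordinal hG _, ?_, ?_⟩
  · rw [← ev_omega hG hX]
    exact ev_ordN_lt hG hX.omega hθ.omega_lt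
  · intro α hα f hf hfs hfd hfr
    obtain ⟨a, ha, haX, rfl⟩ := (mem_ev_ordN hG).1 hα
    obtain ⟨fN, hfN, rfl⟩ := hf
    obtain ⟨h1, h2⟩ := regB_spec hB hθ fN ha
    refine ⟨_, ev_ordN_lt hG (hop fN hfN a haX) h1, ?_⟩
    intro y hy
    obtain ⟨x, hxy⟩ := mem_ran.1 hy
    obtain ⟨γ, hγ, hγX, rfl⟩ := (mem_ev_ordN hG).1 (hfd (mem_dom.2 ⟨y, hxy⟩))
    obtain ⟨δ, hδ, hδX, rfl⟩ := (mem_ev_ordN hG).1 (hfr hy)
    have hpX : ∀ δ, ordN δ ∈ X → pairN (ordN γ) (ordN δ) ∈ X := fun δ hδX =>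
      hX.up _ (hX.up _ hγX _ hγX) _ (hX.up _ hγX _ hδX)
    have hmem : ∀ δ, ordN δ ∈ X → (bmem (pairN (ordN γ) (ordN δ)) fN ∈ G ↔
        pair (ev X G (ordN γ)) (ev X G (ordN δ)) ∈ ev X G fN) := by
      intro δ hδX
      rw [h.bmem_iff (hpX δ hδX) hfN, ev_pairN hG hX hγX hδX]
    have h3 : oth fN (ordN γ) δ ∉ G := by
      intro h3
      obtain ⟨δ', hδ', hne, h4⟩ := hsup fN hfN _ hγX δ hδX h3
      rw [hmem δ' hδ'] at h4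
      exact hne (ev_ordN_inj hG hδ' hδX (hfs _ _ _ h4 hxy))
    have h4 : uniq fN (ordN γ) δ ∈ G := by
      rw [uniq, hG.inf_iff, hG.compl_iff]
      exact ⟨(hmem δ hδX).2 hxy, h3⟩
    exact ev_ordN_lt hG hδX (h2 γ hγ δ hδ (hG.ne_bot h4))

section comb

variable {X : Set (Nm B)} {G : Set B}

theorem mem_ev_setN (h : Gen X G) (hX : Hull X) {b : ℕ → B} {x : ZFSet.{0}} :
    x ∈ ev X G (setN b) ↔ ∃ n : ℕ, b n ∈ G ∧ nat n = x := by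
  rw [mem_ev h.ultra]
  constructor
  · rintro ⟨η, _, h2, rfl⟩
    have h4 : ∃ i : ℕ, (ordN (i : Ordinal.{0}) : Nm B) = η := by
      by_contra hcon
      apply h.ultra.ne_bot h2
      rw [lab]
      simp only [iSup_eq_bot]
      intro i hi
      exact absurd ⟨i, hi⟩ hcon
    obtain ⟨n, rfl⟩ := h4
    rw [lab_setN] at h2
    exact ⟨n, h2, (ev_nat h.ultra hX n).symm⟩
  · rintro ⟨n, h1, rfl⟩
    exact ⟨_, hX.nat n, by rwa [lab_setN], ev_nat h.ultra hX n⟩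

theorem fam_iff (h : Gen X G) (hX : Hull X) {c : Nm B} (hc : c ∈ X) {k : Ordinal.{0}}
    (hk : ordN k ∈ X) (n : ℕ) :
    fam c k n ∈ G ↔ pair (ev X G (ordN k)) (nat n) ∈ ev X G c := by
  have hp : pairN (ordN k) (ordN (n : Ordinal.{0})) ∈ X :=
    hX.up _ (hX.up _ hk _ hk) _ (hX.up _ hk _ (hX.nat n))
  rw [fam, h.bmem_iff hp hc, ev_pairN h.ultra hX hk (hX.nat n), ev_nat h.ultra hX]

/-- the unsplit set -/
theorem sp_of (h : Gen X G) (hX : Hull X) {θ : Ordinal.{0}}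
    (XS : (Ordinal.{0} → ℕ → B) → ℕ → B)
    (hXS1 : ∀ F m, (⨆ n : ℕ, ⨆ _ : m ≤ n, XS F n) = ⊤)
    (hXS2 : ∀ F, ∀ k < θ, (⨆ m : ℕ, ⨅ n : ℕ, ⨅ _ : m ≤ n, (XS F n ⇨ F k n)) ⊔
      (⨆ m : ℕ, ⨅ n : ℕ, ⨅ _ : m ≤ n, (XS F n ⇨ (F k n)ᶜ)) = ⊤)
    (hop : ∀ c ∈ X, setN (XS (fam c)) ∈ X)
    (t1 : ∀ c ∈ X, ∀ m : ℕ, (⨆ n : ℕ, ⨆ _ : m ≤ n, XS (fam c) n) ∈ G →
      ∃ n, m ≤ n ∧ XS (fam c) n ∈ G)
    (t2 : ∀ c ∈ X, ∀ k, ordN k ∈ X → (⨆ m : ℕ, ⨅ n : ℕ, ⨅ _ : m ≤ n, (XS (fam c) n ⇨ fam c k n)) ∈ G →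
      ∃ m : ℕ, (⨅ n : ℕ, ⨅ _ : m ≤ n, (XS (fam c) n ⇨ fam c k n)) ∈ G)
    (t3 : ∀ c ∈ X, ∀ k, ordN k ∈ X →
      (⨆ m : ℕ, ⨅ n : ℕ, ⨅ _ : m ≤ n, (XS (fam c) n ⇨ (fam c k n)ᶜ)) ∈ G →
      ∃ m : ℕ, (⨅ n : ℕ, ⨅ _ : m ≤ n, (XS (fam c) n ⇨ (fam c k n)ᶜ)) ∈ G) :
    Sp (Mod X G) (ev X G (ordN θ)) := by
  have hG := h.ultra
  rintro _ ⟨c, hc, rfl⟩
  refine ⟨_, ⟨_, hop c hc, rfl⟩, ?_, ?_, ?_⟩
  · intro x hx
    obtain ⟨n, _, rfl⟩ := (mem_ev_setN h hX).1 hx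
    exact nat_mem_omega n
  · intro x hx
    obtain ⟨m, rfl⟩ := mem_omega_iff.1 hx
    obtain ⟨n, hn, h1⟩ := t1 c hc (m + 1) (by rw [hXS1]; exact hG.top_mem)
    exact ⟨nat n, (mem_ev_setN h hX).2 ⟨n, h1, rfl⟩, nat_mem_nat.2 hn⟩
  · intro α hα
    obtain ⟨k, hk, hkX, rfl⟩ := (mem_ev_ordN hG).1 hα
    have h1 : (⨆ m : ℕ, ⨅ n : ℕ, ⨅ _ : m ≤ n, (XS (fam c) n ⇨ fam c k n)) ⊔
      (⨆ m : ℕ, ⨅ n : ℕ, ⨅ _ : m ≤ n, (XS (fam c) n ⇨ (fam c k n)ᶜ)) ∈ G := by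
      rw [hXS2 (fam c) k hk]
      exact hG.top_mem
    rcases hG.sup_iff.1 h1 with h1 | h1
    · obtain ⟨m, h2⟩ := t2 c hc k hkX h1
      refine ⟨nat m, nat_mem_omega m, Or.inl ?_⟩
      intro x hx hmx
      obtain ⟨n, h3, rfl⟩ := (mem_ev_setN h hX).1 hx
      have h4 : (XS (fam c) n ⇨ fam c k n) ∈ G :=
        hG.up h2 ((iInf_le _ n).trans (iInf_le _ (nat_mem_nat.1 hmx).le))
      exact (fam_iff h hX hc hkX n).1 (hG.himp_iff.1 h4 h3)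
    · obtain ⟨m, h2⟩ := t3 c hc k hkX h1
      refine ⟨nat m, nat_mem_omega m, Or.inr ?_⟩
      intro x hx hmx
      obtain ⟨n, h3, rfl⟩ := (mem_ev_setN h hX).1 hx
      have h4 : (XS (fam c) n ⇨ (fam c k n)ᶜ) ∈ G :=
        hG.up h2 ((iInf_le _ n).trans (iInf_le _ (nat_mem_nat.1 hmx).le))
      intro h5
      exact hG.compl_iff.1 (hG.himp_iff.1 h4 h3) ((fam_iff h hX hc hkX n).2 h5)

theorem fam'_inf (c : Nm B) (k : Ordinal.{0}) (m : ℕ) :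
    (⨆ n : ℕ, ⨆ _ : m ≤ n, fam' c k n) = ⊤ := by
  have h1 : (⨆ n : ℕ, ⨆ _ : m ≤ n, fam' c k n) =
      (⨆ n : ℕ, ⨆ _ : m ≤ n, fam c k n) ⊔ (⨅ m : ℕ, ⨆ n' : ℕ, ⨆ _ : m ≤ n', fam c k n')ᶜ := by
    apply le_antisymm
    · refine iSup₂_le fun n hn => sup_le_sup_right ?_ _
      exact le_iSup₂_of_le n hn le_rfl
    · refine sup_le (iSup₂_le fun n hn => ?_) ?_
      · exact le_iSup₂_of_le n hn le_sup_left
      · exact le_iSup₂_of_le m le_rfl le_sup_right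
  rw [h1, eq_top_iff, ← sup_compl_eq_top (x := ⨅ m : ℕ, ⨆ n' : ℕ, ⨆ _ : m ≤ n', fam c k n')]
  exact sup_le_sup_right (iInf_le _ m) _

/-- the splitting set -/
theorem rp_of (h : Gen X G) (hX : Hull X) {θ : Ordinal.{0}}
    (SR : (Ordinal.{0} → ℕ → B) → ℕ → B)
    (hSR : ∀ F : Ordinal.{0} → ℕ → B, (∀ k m, (⨆ n : ℕ, ⨆ _ : m ≤ n, F k n) = ⊤) → ∀ k < θ, ∀ m,
      (⨆ n : ℕ, ⨆ _ : m ≤ n, F k n ⊓ SR F n) = ⊤ ∧
      (⨆ n : ℕ, ⨆ _ : m ≤ n, F k n ⊓ (SR F n)ᶜ) = ⊤)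
    (hop : ∀ c ∈ X, setN (SR (fam' c)) ∈ X)
    (t0 : ∀ c ∈ X, ∀ k, ordN k ∈ X → (⨆ m : ℕ, (⨆ n : ℕ, ⨆ _ : m ≤ n, fam c k n)ᶜ) ∈ G →
      ∃ m : ℕ, (⨆ n : ℕ, ⨆ _ : m ≤ n, fam c k n)ᶜ ∈ G)
    (t1 : ∀ c ∈ X, ∀ k, ordN k ∈ X → ∀ m : ℕ,
      (⨆ n : ℕ, ⨆ _ : m ≤ n, fam' c k n ⊓ SR (fam' c) n) ∈ G →
      ∃ n, m ≤ n ∧ fam' c k n ⊓ SR (fam' c) n ∈ G)
    (t2 : ∀ c ∈ X, ∀ k, ordN k ∈ X → ∀ m : ℕ,
      (⨆ n : ℕ, ⨆ _ : m ≤ n, fam' c k n ⊓ (SR (fam' c) n)ᶜ) ∈ G →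
      ∃ n, m ≤ n ∧ fam' c k n ⊓ (SR (fam' c) n)ᶜ ∈ G) :
    Rp (Mod X G) (ev X G (ordN θ)) := by
  have hG := h.ultra
  rintro _ ⟨c, hc, rfl⟩
  refine ⟨_, ⟨_, hop c hc, rfl⟩, ?_, ?_⟩
  · intro x hx
    obtain ⟨n, _, rfl⟩ := (mem_ev_setN h hX).1 hx
    exact nat_mem_omega n
  · intro α hα hunb x hx
    obtain ⟨k, hk, hkX, rfl⟩ := (mem_ev_ordN hG).1 hα
    obtain ⟨m, rfl⟩ := mem_omega_iff.1 hx
    have h1 : (⨅ m : ℕ, ⨆ n' : ℕ, ⨆ _ : m ≤ n', fam c k n') ∈ G := by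
      by_contra hcon
      rw [← hG.compl_iff, compl_iInf] at hcon
      obtain ⟨m, h2⟩ := t0 c hc k hkX hcon
      obtain ⟨x, hx, hmx, h3⟩ := hunb (nat m) (nat_mem_omega m)
      obtain ⟨n, rfl⟩ := mem_omega_iff.1 hx
      rw [← fam_iff h hX hc hkX] at h3
      apply hG.compl_iff.1 h2
      exact hG.up h3 (le_iSup₂_of_le n (nat_mem_nat.1 hmx).le le_rfl)
    have h2 : ∀ n, fam' c k n ∈ G → fam c k n ∈ G := by
      intro n hn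
      rw [fam', hG.sup_iff, hG.compl_iff] at hn
      exact hn.resolve_right (not_not_intro h1)
    have h3 := hSR (fam' c) (fun k m => fam'_inf c k m) k hk (m + 1)
    obtain ⟨n, hn, h4⟩ := t1 c hc k hkX (m + 1) (by rw [h3.1]; exact hG.top_mem)
    obtain ⟨n', hn', h5⟩ := t2 c hc k hkX (m + 1) (by rw [h3.2]; exact hG.top_mem)
    rw [hG.inf_iff] at h4 h5
    rw [hG.compl_iff] at h5
    refine ⟨⟨nat n, nat_mem_omega n, nat_mem_nat.2 hn, ?_, ?_⟩,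
      ⟨nat n', nat_mem_omega n', nat_mem_nat.2 hn', ?_, ?_⟩⟩
    · exact (fam_iff h hX hc hkX n).1 (h2 n h4.1)
    · exact (mem_ev_setN h hX).2 ⟨n, h4.2, rfl⟩
    · exact (fam_iff h hX hc hkX n').1 (h2 n' h5.1)
    · intro h6
      obtain ⟨n'', h7, h8⟩ := (mem_ev_setN h hX).1 h6
      rw [nat_inj] at h8
      subst h8
      exact h5.2 h7

end comb

end Pool.Agent.Work.MP_6efb98_lc
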