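import Pool.Agent.Work.MP_6efb98_lc.Dist

/-!
The polarized relation fails in the extension by the Levy collapse, provided that in `M` every
family of fewer than `κ` infinite subsets of `ω` can be split by a single set.
-/

namespace Pool.Agent.Work.MP_6efb98_lc

open ZFSet

universe u v w
variable {M : Set ZFSet.{0}}

/-! ### Natural numbers -/

/-- the `n`-th natural number as a set -/
noncomputable def nat (n : ℕ) : ZFSet.{0} := (n : Ordinal.{0}).toZFSet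

theorem nat_zero : nat 0 = ∅ := by simp [nat]

theorem nat_succ (n : ℕ) : nat (n + 1) = insert (nat n) (nat n) := by
  simp [nat]

theorem mem_omega_iff {x : ZFSet.{0}} : x ∈ omega ↔ ∃ n : ℕ, x = nat n := by
  constructor
  · induction x using Quotient.inductionOn with
    | h x =>
    rintro ⟨⟨n⟩, h⟩
    refine ⟨n, ?_⟩
    have h1 : (⟦x⟧ : ZFSet.{0}) = ZFSet.mk (PSet.ofNat n) := Quotient.sound h
    rw [h1]
    clear h h1
    induction n with
    | zero => rw [nat_zero]; rfl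
    | succ n ih =>
      rw [nat_succ, ← ih]
      rfl
  · rintro ⟨n, rfl⟩
    induction n with
    | zero => rw [nat_zero]; exact omega_zero
    | succ n ih => rw [nat_succ]; exact omega_succ ih

theorem nat_mem_omega (n : ℕ) : nat n ∈ omega := mem_omega_iff.2 ⟨n, rfl⟩

theorem nat_mem_nat {m n : ℕ} : nat m ∈ nat n ↔ m < n := by
  simp [nat]

theorem nat_inj {m n : ℕ} : nat m = nat n ↔ m = n := by
  constructor
  · intro h
    have := Ordinal.toZFSet_injective h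
    exact_mod_cast this
  · rintro rfl
    rfl

theorem nat_injective : Function.Injective nat := fun _ _ h => nat_inj.1 h

theorem mem_nat {x : ZFSet.{0}} {n : ℕ} : x ∈ nat n ↔ ∃ m < n, x = nat m := by
  induction n with
  | zero => simp [nat_zero]
  | succ n ih =>
    rw [nat_succ, mem_insert_iff, ih]
    constructor
    · rintro (rfl | ⟨m, hm, rfl⟩)
      · exact ⟨n, by omega, rfl⟩
      · exact ⟨m, by omega, rfl⟩
    · rintro ⟨m, hm, rfl⟩
      rcases Nat.lt_succ_iff_lt_or_eq.1 hm with h | rfl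
      · exact Or.inr ⟨m, h, rfl⟩
      · exact Or.inl rfl

theorem omega_transitive : omega.{0}.IsTransitive := by
  intro x hx y hy
  obtain ⟨n, rfl⟩ := mem_omega_iff.1 hx
  obtain ⟨m, _, rfl⟩ := mem_nat.1 hy
  exact nat_mem_omega m

/-- `B` is unbounded in `ω` -/
def Unb (B : ZFSet.{0}) : Prop := BAll omega (fun m => BEx B (fun n => m ∈ n))

theorem unb_of_infinite {B : ZFSet.{0}} (hB : B ⊆ omega) (h : (B : Set ZFSet).Infinite) :
    Unb B := by
  intro m hm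
  obtain ⟨k, rfl⟩ := mem_omega_iff.1 hm
  by_contra hcon
  apply h
  have : (B : Set ZFSet) ⊆ nat '' (Set.Iic k) := by
    intro x hx
    obtain ⟨n, rfl⟩ := mem_omega_iff.1 (hB hx)
    refine ⟨n, ?_, rfl⟩
    by_contra hn
    exact hcon ⟨nat n, hx, nat_mem_nat.2 (by simpa using hn)⟩
  exact ((Set.finite_Iic k).image _).subset this

theorem infinite_of_unb {B : ZFSet.{0}} (hB : B ⊆ omega) (h : Unb B) :
    (B : Set ZFSet).Infinite := by
  intro hfin
  have h1 : (nat ⁻¹' (B : Set ZFSet)).Finite := hfin.preimage nat_injective.injOn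
  obtain ⟨k, hk⟩ := h1.bddAbove
  obtain ⟨n, hn, hkn⟩ := h (nat k) (nat_mem_omega k)
  obtain ⟨m, rfl⟩ := mem_omega_iff.1 (hB hn)
  have := hk (show m ∈ nat ⁻¹' (B : Set ZFSet) from hn)
  have := nat_mem_nat.1 hkn
  omega

variable [hM : Model M]

@[fun_prop]
theorem dfn_Unb {α : Type u} [DT α] {f : α → ZFSet.{0}} (hf : Dfn M f) :
    Dfn M (fun a => Unb (f a)) := by
  have h0 : InM M omega := inM_omega
  unfold Unb
  fun_prop (disch := assumption)

/-- fewer than `κ` (indexed by subsets of elements of `κ`) infinite subsets of `ω` are split by one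
set; `f` codes the family -/
def Rp (M : Set ZFSet.{0}) (κ : ZFSet.{0}) : Prop :=
  ∀ f ∈ M, ∃ S ∈ M, S ⊆ omega ∧ ∀ β ∈ κ, (∀ m ∈ omega, ∃ n ∈ omega, m ∈ n ∧ pair β n ∈ f) →
    ∀ m ∈ omega, (∃ n ∈ omega, m ∈ n ∧ pair β n ∈ f ∧ n ∈ S) ∧
      (∃ n ∈ omega, m ∈ n ∧ pair β n ∈ f ∧ n ∉ S)

/-- at most `κ` subsets of `ω` do not split some infinite set; `c` codes the family -/
def Sp (M : Set ZFSet.{0}) (κ : ZFSet.{0}) : Prop :=
  ∀ c ∈ M, ∃ x ∈ M, x ⊆ omega ∧ Unb x ∧ ∀ α ∈ κ, ∃ m ∈ omega,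
    (∀ n ∈ x, m ∈ n → pair α n ∈ c) ∨ (∀ n ∈ x, m ∈ n → pair α n ∉ c)

omit hM in
theorem Reg.succ_mem {κ : ZFSet.{0}} (hκ : Reg M κ) [Model M] {β : ZFSet.{0}} (hβ : β ∈ κ) :
    ∃ γ ∈ κ, β ∈ γ := by
  have hβM := trans_mem hκ.mem hβ
  have h0 : (∅ : ZFSet.{0}) ∈ M := empty_mem
  have h1 : ({pair ∅ β} : ZFSet.{0}) ∈ M := by
    have : Dfn M (fun q : ZFSet.{0} × ZFSet.{0} => ({pair q.1 q.2} : ZFSet)) := by fun_prop
    exact inM_zf.1 (this.1 (∅, β) (by simp [h0, hβM]))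
  obtain ⟨γ, hγ, h2⟩ := hκ.bdd omega hκ.omega_mem _ h1 (by
    intro x y z hy hz
    rw [mem_singleton, pair_inj] at hy hz
    rw [hy.2, hz.2]) (by
    intro x hx
    obtain ⟨y, hy⟩ := mem_dom.1 hx
    rw [mem_singleton, pair_inj] at hy
    rw [hy.1]
    exact omega_zero) (by
    intro y hy
    obtain ⟨x, hx⟩ := mem_ran.1 hy
    rw [mem_singleton, pair_inj] at hx
    rw [hx.2]
    exact hβ)
  exact ⟨γ, hγ, h2 (mem_ran.2 ⟨∅, by simp⟩)⟩

omit hM in
theorem Reg.subset_mem {κ d : ZFSet.{0}} (hκ : Reg M κ) [Model M] (hd : d ∈ M) (hdκ : d ⊆ κ) :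
    (∃ β ∈ κ, d ⊆ β) ↔ CardLT M d κ := by
  constructor
  · rintro ⟨β, hβ, h⟩
    have hg : graph (fun x => x) d ∈ M := by
      have : Dfn M (fun d : ZFSet.{0} => graph (fun x => x) d) := by fun_prop
      exact inM_zf.1 (this.1 d (inM_zf.2 hd))
    refine ⟨β, hβ, _, hg, ?_, ?_⟩
    · rw [isFunc_iff']
      refine ⟨isRel_graph, sv_graph, dom_graph, ?_⟩
      intro y hy
      obtain ⟨x, hx⟩ := mem_ran.1 hy
      obtain ⟨hx, rfl⟩ := mem_graph.1 hx
      exact h hx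
    · intro x y z h1 h2
      obtain ⟨_, rfl⟩ := mem_graph.1 h1
      exact (mem_graph.1 h2).2
  · rintro ⟨α, hα, f, hf, h1, h2⟩
    obtain ⟨h3, h4, h5, h6⟩ := isFunc_iff'.1 h1
    -- the inverse relation
    have hg : Dfn M (fun f : ZFSet.{0} => ZFSet.sep (fun w => BEx (fld f) (fun x =>
        BEx (fld f) (fun y => w = pair y x ∧ pair x y ∈ f))) (prod (fld f) (fld f))) := by
      fun_prop
    have hgM := inM_zf.1 (hg.1 f (inM_zf.2 hf))
    set g := ZFSet.sep (fun w => BEx (fld f) (fun x =>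
        BEx (fld f) (fun y => w = pair y x ∧ pair x y ∈ f))) (prod (fld f) (fld f)) with hgdef
    have hgm : ∀ x y, pair y x ∈ g ↔ pair x y ∈ f := by
      intro x y
      rw [hgdef]
      simp only [mem_sep, pair_mem_prod]
      constructor
      · rintro ⟨_, a, _, b, _, h7, h8⟩
        obtain ⟨rfl, rfl⟩ := pair_inj.1 h7
        exact h8
      · intro h7
        exact ⟨⟨right_mem_fld h7, left_mem_fld h7⟩, x, left_mem_fld h7, y, right_mem_fld h7, rfl,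
          h7⟩
    obtain ⟨β, hβ, h7⟩ := hκ.bdd α hα g hgM (by
      intro x y z hy hz
      rw [hgm] at hy hz
      exact h2 _ _ _ hy hz) (by
      intro y hy
      obtain ⟨x, hx⟩ := mem_dom.1 hy
      rw [hgm] at hx
      exact h6 (mem_ran.2 ⟨x, hx⟩)) (by
      intro x hx
      obtain ⟨y, hy⟩ := mem_ran.1 hx
      rw [hgm] at hy
      exact hdκ (h5 ▸ mem_dom.2 ⟨y, hy⟩))
    refine ⟨β, hβ, fun x hx => ?_⟩
    obtain ⟨y, hy⟩ := mem_dom.1 (h5 ▸ hx : x ∈ dom f)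
    exact h7 (mem_ran.2 ⟨y, (hgm x y).2 hy⟩)

theorem Levy_eq {κ l : ZFSet.{0}} (hκ : Reg M κ) : Levy M κ l = {x | x ∈ LV M κ l} := by
  ext p
  simp only [Levy, Set.mem_ofPred_eq, mem_LV]
  constructor
  · rintro ⟨hp, d, hd, h1, h2⟩
    obtain ⟨h3, h4, h5, h6⟩ := isFunc_iff'.1 h2
    have hdM : d ∈ M := by
      rw [← h5]
      exact inM_zf.1 ((dfn_dom (dfn_id (α := ZFSet.{0}))).1 p (inM_zf.2 hp))
    refine ⟨hp, ?_, h4, ?_⟩
    · intro z hz
      obtain ⟨x, y, rfl⟩ := h3 z hz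
      exact pair_mem_prod.2 ⟨hd (h5 ▸ mem_dom.2 ⟨y, hz⟩), h6 (mem_ran.2 ⟨x, hz⟩)⟩
    · rw [h5]
      exact (hκ.subset_mem hdM hd).2 h1
  · rintro ⟨hp, h1, h2, β, hβ, h3⟩
    have hdM : dom p ∈ M := inM_zf.1 ((dfn_dom (dfn_id (α := ZFSet.{0}))).1 p (inM_zf.2 hp))
    have hdκ : dom p ⊆ κ := fun x hx => by
      obtain ⟨y, hy⟩ := mem_dom.1 hx
      exact (pair_mem_prod.1 (h1 hy)).1
    refine ⟨hp, dom p, hdκ, (hκ.subset_mem hdM hdκ).1 ⟨β, hβ, h3⟩, ?_⟩
    rw [isFunc_iff']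
    refine ⟨?_, h2, rfl, ?_⟩
    · intro z hz
      obtain ⟨x, _, y, _, h⟩ := mem_prod.1 (h1 hz)
      exact ⟨x, y, h⟩
    · intro y hy
      obtain ⟨x, hx⟩ := mem_ran.1 hy
      exact (pair_mem_prod.1 (h1 hx)).2

section generic

variable {κ l : ZFSet.{0}} {G : Set ZFSet.{0}}

omit hM in
theorem compat (hG : IsGeneric M {x | x ∈ LV M κ l} G) {p q x y z : ZFSet.{0}} (hp : p ∈ G)
    (hq : q ∈ G) (h1 : pair x y ∈ p) (h2 : pair x z ∈ q) : y = z := by
  obtain ⟨r, hr, h3, h4⟩ := hG.directed p hp q hq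
  exact (mem_LV.1 (hG.subset hr)).2.2.1 x y z (h3 h1) (h4 h2)

/-- every `α ∈ κ` is the domain of a condition in `G` -/
theorem exists_dom (hκ : Reg M κ) (hl : l ∈ M) (h0 : ∅ ∈ l)
    (hG : IsGeneric M {x | x ∈ LV M κ l} G) {α : ZFSet.{0}} (hα : α ∈ κ) :
    ∃ p ∈ G, dom p = α := by
  have hPM : LV M κ l ∈ M := LV_mem hκ.mem hl
  have hαM := trans_mem hκ.mem hα
  have hαi : InM M α := inM_zf.2 hαM
  have hD : Dfn M (fun P : ZFSet.{0} => ZFSet.sep (fun p => α ⊆ dom p) P) := by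
    fun_prop (disch := assumption)
  obtain ⟨p, hp, hpD⟩ := hG.generic _ (inM_zf.1 (hD.1 _ (inM_zf.2 hPM)))
    (fun q hq => (mem_sep.1 hq).1) (by
    intro p hp
    obtain ⟨hpM, hp1, hp2, β, hβ, hp3⟩ := mem_LV.1 hp
    have hpi : InM M p := inM_zf.2 hpM
    have he : Dfn M (fun α : ZFSet.{0} => p ∪ prod (α \ dom p) {∅}) := by
      have h0 : InM M (∅ : ZFSet.{0}) := inM_empty
      fun_prop (disch := assumption)
    have heM := inM_zf.1 (he.1 α hαi)
    obtain ⟨c, hc, hc1, hc2⟩ := max_mem hκ.ord hβ hα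
    have key : ∀ x y, pair x y ∈ p ∪ prod (α \ dom p) {∅} ↔
        pair x y ∈ p ∨ (x ∈ α ∧ x ∉ dom p ∧ y = ∅) := by
      intro x y
      rw [mem_union, pair_mem_prod, mem_sdiff, mem_singleton]
      tauto
    refine ⟨_, mem_sep.2 ⟨mem_LV.2 ⟨heM, ?_, ?_, c, hc, ?_⟩, ?_⟩, fun x hx =>
      mem_union.2 (Or.inl hx)⟩
    · intro z hz
      rcases mem_union.1 hz with hz | hz
      · exact hp1 hz
      · obtain ⟨x, hx, y, hy, rfl⟩ := mem_prod.1 hz
        rw [mem_sdiff] at hx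
        rw [mem_singleton] at hy
        subst hy
        exact pair_mem_prod.2 ⟨hκ.ord.mem_trans hx.1 hα, h0⟩
    · intro x y z hy hz
      rw [key] at hy hz
      rcases hy with hy | ⟨_, hy1, hy2⟩ <;> rcases hz with hz | ⟨_, hz1, hz2⟩
      · exact hp2 x y z hy hz
      · exact absurd (mem_dom.2 ⟨y, hy⟩) hz1
      · exact absurd (mem_dom.2 ⟨z, hz⟩) hy1
      · rw [hy2, hz2]
    · intro x hx
      obtain ⟨y, hy⟩ := mem_dom.1 hx
      rcases (key x y).1 hy with hy | ⟨hx, _⟩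
      · exact hc1 (hp3 (mem_dom.2 ⟨y, hy⟩))
      · exact hc2 hx
    · intro x hx
      by_cases h : x ∈ dom p
      · obtain ⟨y, hy⟩ := mem_dom.1 h
        exact mem_dom.2 ⟨y, (key x y).2 (Or.inl hy)⟩
      · exact mem_dom.2 ⟨∅, (key x ∅).2 (Or.inr ⟨hx, h, rfl⟩)⟩)
  have hαp : α ⊆ dom p := (mem_sep.1 hpD).2
  obtain ⟨hpM, hp1, hp2, β, hβ, hp3⟩ := mem_LV.1 (hG.subset hp)
  have hrM : restr p α ∈ M := by
    have : Dfn M (fun q : ZFSet.{0} × ZFSet.{0} => restr q.1 q.2) := by fun_prop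
    exact inM_zf.1 (this.1 (p, α) (by simp [hpM, hαM]))
  have hdom : dom (restr p α) = α := by
    ext x
    rw [mem_dom]
    constructor
    · rintro ⟨y, hy⟩
      exact (pair_mem_restr.1 hy).2
    · intro hx
      obtain ⟨y, hy⟩ := mem_dom.1 (hαp hx)
      exact ⟨y, pair_mem_restr.2 ⟨hy, hx⟩⟩
  refine ⟨restr p α, hG.upward p hp _ (mem_LV.2 ⟨hrM, fun x hx => hp1 (restr_subset hx), ?_, α, hα,
    by rw [hdom]⟩) restr_subset, hdom⟩
  intro x y z hy hz
  exact hp2 x y z (restr_subset hy) (restr_subset hz)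

/-- every `ξ ∈ l` is a value of the generic function -/
theorem exists_val (hκ : Reg M κ) (hl : l ∈ M)
    (hG : IsGeneric M {x | x ∈ LV M κ l} G) {ξ : ZFSet.{0}} (hξ : ξ ∈ l) :
    ∃ p ∈ G, ∃ β ∈ κ, pair β ξ ∈ p := by
  have hPM : LV M κ l ∈ M := LV_mem hκ.mem hl
  have hξM := trans_mem hl hξ
  have hξi : InM M ξ := inM_zf.2 hξM
  have hκi : InM M κ := inM_zf.2 hκ.mem
  have hD : Dfn M (fun P : ZFSet.{0} => ZFSet.sep (fun p => BEx κ (fun β => pair β ξ ∈ p)) P) := by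
    fun_prop (disch := assumption)
  obtain ⟨p, hp, hpD⟩ := hG.generic _ (inM_zf.1 (hD.1 _ (inM_zf.2 hPM)))
    (fun q hq => (mem_sep.1 hq).1) (by
    intro p hp
    obtain ⟨hpM, hp1, hp2, β, hβ, hp3⟩ := mem_LV.1 hp
    obtain ⟨γ, hγ, hβγ⟩ := hκ.succ_mem hβ
    have hβM := trans_mem hκ.mem hβ
    have he : Dfn M (fun q : ZFSet.{0} × ZFSet.{0} × ZFSet.{0} => insert (pair q.1 q.2.1) q.2.2) := by
      fun_prop
    have heM := inM_zf.1 (he.1 (β, ξ, p) (by simp [hβM, hξM, hpM]))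
    refine ⟨_, mem_sep.2 ⟨mem_LV.2 ⟨heM, ?_, ?_, γ, hγ, ?_⟩, β, hβ, mem_insert _ _⟩, fun x hx =>
      mem_insert_of_mem _ hx⟩
    · intro z hz
      rcases mem_insert_iff.1 hz with rfl | hz
      · exact pair_mem_prod.2 ⟨hβ, hξ⟩
      · exact hp1 hz
    · intro x y z hy hz
      rw [mem_insert_iff, pair_inj] at hy hz
      rcases hy with ⟨rfl, rfl⟩ | hy <;> rcases hz with ⟨h1, rfl⟩ | hz
      · rfl
      · exact absurd (hp3 (mem_dom.2 ⟨z, hz⟩)) (mem_irrefl _)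
      · subst h1
        exact absurd (hp3 (mem_dom.2 ⟨y, hy⟩)) (mem_irrefl _)
      · exact hp2 x y z hy hz
    · intro x hx
      obtain ⟨y, hy⟩ := mem_dom.1 hx
      rw [mem_insert_iff, pair_inj] at hy
      rcases hy with ⟨rfl, rfl⟩ | hy
      · exact hβγ
      · exact (hκ.ord.mem hγ).mem_trans (hp3 (mem_dom.2 ⟨y, hy⟩)) hβγ)
  exact ⟨p, hp, (mem_sep.1 hpD).2⟩

end generic

end Pool.Agent.Work.MP_6efb98_lc
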