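import Pool.Agent.Work.MP_6efb98_lc.Names
import Pool.Agent.Work.MP_6efb98_lc.Neg

/-!
Operations on names; the evaluation of a countable hull is a transitive model of ZFC.
-/

namespace Pool.Agent.Work.MP_6efb98_lc

open ZFSet

variable {B : Type} [CompleteBooleanAlgebra B]

/-- unordered pair of names -/
def upN (σ τ : Nm B) : Nm B := .mk Bool (fun x => cond x σ τ) (fun _ => ⊤)

/-- ordered pair of names -/
def pairN (σ τ : Nm B) : Nm B := upN (upN σ σ) (upN σ τ)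

/-- bound for the union -/
def unN (σ : Nm B) : Nm B :=
  .mk (Σ i : σ.I, (σ.c i).I) (fun p => (σ.c p.1).c p.2) (fun _ => ⊤)

/-- restriction of `η` to the members of `σ` -/
noncomputable def resN (σ η : Nm B) : Nm B := .mk σ.I σ.c (fun i => bmem (σ.c i) η)

/-- bound for the power set -/
def powN (σ : Nm B) : Nm B := .mk (σ.I → B) (fun f => .mk σ.I σ.c f) (fun _ => ⊤)

/-- separation -/
noncomputable def sepN {n : ℕ} (φ : Fm (n + 1)) (σ : Nm B) (v : Fin n → Nm B) : Nm B :=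
  .mk σ.I σ.c (fun i => σ.b i ⊓ bval φ (Fin.cons (σ.c i) v))

open Classical in
/-- a witness with a given truth value -/
noncomputable def wB {n : ℕ} (φ : Fm (n + 2)) (x : Nm B) (b : B) (v : Fin n → Nm B) : Nm B :=
  if h : ∃ y, bval φ (Fin.cons y (Fin.cons x v)) = b then h.choose else x

theorem bval_wB {n : ℕ} (φ : Fm (n + 2)) (x y : Nm B) (v : Fin n → Nm B) :
    bval φ (Fin.cons (wB φ x (bval φ (Fin.cons y (Fin.cons x v))) v) (Fin.cons x v)) =
      bval φ (Fin.cons y (Fin.cons x v)) := by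
  have h : ∃ y', bval φ (Fin.cons y' (Fin.cons x v)) = bval φ (Fin.cons y (Fin.cons x v)) :=
    ⟨y, rfl⟩
  rw [wB, dif_pos h]
  exact h.choose_spec

/-- collection -/
noncomputable def colN {n : ℕ} (φ : Fm (n + 2)) (σ : Nm B) (v : Fin n → Nm B) : Nm B :=
  .mk (σ.I × B) (fun p => wB φ (σ.c p.1) p.2 v) (fun _ => ⊤)

/-- canonical names of ordinals -/
noncomputable def ordN (o : Ordinal.{0}) : Nm B :=
  .mk o.ToType (fun a => ordN a) (fun _ => ⊤)
termination_by o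
decreasing_by exact a.toOrd.prop

/-- well-ordering: position of an index -/
noncomputable def pos (σ : Nm B) (i : σ.I) : Ordinal.{0} :=
  Ordinal.typein (α := σ.I) WellOrderingRel i

/-- well-ordering: the length -/
noncomputable def woA (σ : Nm B) : Nm B := ordN (Ordinal.type (α := σ.I) WellOrderingRel)

/-- well-ordering: the enumeration -/
noncomputable def woN (σ : Nm B) : Nm B :=
  .mk σ.I (fun i => pairN (ordN (pos σ i)) (σ.c i)) (fun _ => ⊤)

open Classical in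
/-- well-ordering: name of an index -/
noncomputable def woW (σ η : Nm B) : Nm B :=
  if h : ∃ i, σ.c i = η then ordN (pos σ h.choose) else η

open Classical in
/-- decomposition of pairs -/
noncomputable def fstN (x : Nm B) : Nm B := if h : ∃ σ τ, x = pairN σ τ then h.choose else x

open Classical in
/-- decomposition of pairs -/
noncomputable def sndN (x : Nm B) : Nm B :=
  if h : ∃ τ σ, x = pairN σ τ then h.choose else x

theorem upN_inj {σ τ σ' τ' : Nm B} (h : upN σ τ = upN σ' τ') : σ = σ' ∧ τ = τ' := by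
  simp only [upN, Nm.mk.injEq, heq_eq_eq, true_and, and_true] at h
  exact ⟨congrFun h true, congrFun h false⟩

theorem pairN_inj {σ τ σ' τ' : Nm B} (h : pairN σ τ = pairN σ' τ') : σ = σ' ∧ τ = τ' := by
  obtain ⟨h1, h2⟩ := upN_inj h
  exact upN_inj h2

theorem fstN_pairN (σ τ : Nm B) : fstN (pairN σ τ) = σ := by
  have h : ∃ σ' τ', pairN σ τ = pairN σ' τ' := ⟨σ, τ, rfl⟩
  rw [fstN, dif_pos h]
  obtain ⟨τ', h1⟩ := h.choose_spec
  exact (pairN_inj h1).1.symm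

theorem sndN_pairN (σ τ : Nm B) : sndN (pairN σ τ) = τ := by
  have h : ∃ τ' σ', pairN σ τ = pairN σ' τ' := ⟨τ, σ, rfl⟩
  rw [sndN, dif_pos h]
  obtain ⟨σ', h1⟩ := h.choose_spec
  exact (pairN_inj h1).2.symm

/-- closure properties of the hull -/
structure Hull (X : Set (Nm B)) : Prop where
  up : ∀ σ ∈ X, ∀ τ ∈ X, upN σ τ ∈ X
  un : ∀ σ ∈ X, unN σ ∈ X
  res : ∀ σ ∈ X, ∀ τ ∈ X, resN σ τ ∈ X
  pow : ∀ σ ∈ X, powN σ ∈ X
  sep : ∀ (n : ℕ) (φ : Fm (n + 1)), ∀ σ ∈ X, ∀ v : Fin n → Nm B, (∀ i, v i ∈ X) → sepN φ σ v ∈ X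
  wit : ∀ (n : ℕ) (φ : Fm (n + 2)), ∀ x ∈ X, ∀ y ∈ X, ∀ v : Fin n → Nm B, (∀ i, v i ∈ X) →
    wB φ x (bval φ (Fin.cons y (Fin.cons x v))) v ∈ X
  col : ∀ (n : ℕ) (φ : Fm (n + 2)), ∀ σ ∈ X, ∀ v : Fin n → Nm B, (∀ i, v i ∈ X) → colN φ σ v ∈ X
  nat : ∀ n : ℕ, ordN (n : Ordinal.{0}) ∈ X
  omega : ordN Ordinal.omega0 ∈ X
  woA : ∀ σ ∈ X, woA σ ∈ X
  woN : ∀ σ ∈ X, woN σ ∈ X
  woW : ∀ σ ∈ X, ∀ η ∈ X, woW σ η ∈ X
  fst : ∀ σ ∈ X, fstN σ ∈ X
  snd : ∀ σ ∈ X, sndN σ ∈ X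

section ev

variable {X : Set (Nm B)} {G : Set B} (hG : IsUltra G)
include hG

theorem mem_ev_top {ι : Type} {c : ι → Nm B} {x : ZFSet.{0}} :
    x ∈ ev X G (.mk ι c (fun _ => ⊤)) ↔ ∃ i, c i ∈ X ∧ ev X G (c i) = x := by
  rw [mem_ev hG]
  constructor
  · rintro ⟨η, h1, h2, rfl⟩
    by_cases h : ∃ i, c i = η
    · obtain ⟨i, rfl⟩ := h
      exact ⟨i, h1, rfl⟩
    · exfalso
      apply hG.ne_bot h2
      rw [lab]
      simp only [iSup_eq_bot]
      intro i hi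
      exact absurd ⟨i, hi⟩ h
  · rintro ⟨i, h1, rfl⟩
    refine ⟨c i, h1, hG.up hG.top_mem ?_, rfl⟩
    exact le_lab (.mk ι c (fun _ => ⊤)) i

omit hG in
theorem lab_mk (σ : Nm B) (f : Nm B → B) (η : Nm B) :
    lab (.mk σ.I σ.c (fun i => σ.b i ⊓ f (σ.c i))) η = lab σ η ⊓ f η := by
  rw [lab, lab, iSup_inf_eq]
  refine iSup_congr fun i => ?_
  rw [iSup_inf_eq]
  refine iSup_congr fun h => ?_
  change σ.b i ⊓ f (σ.c i) = _
  rw [show σ.c i = η from h]

omit hG in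
theorem lab_mk' (σ : Nm B) (f : Nm B → B) {i : σ.I} :
    lab (.mk σ.I σ.c (fun i => f (σ.c i))) (σ.c i) = f (σ.c i) := by
  apply le_antisymm
  · refine iSup₂_le fun j h => ?_
    change f (σ.c j) ≤ _
    rw [show σ.c j = σ.c i from h]
  · exact le_lab (.mk σ.I σ.c (fun i => f (σ.c i))) i

theorem ev_upN {σ τ : Nm B} (hσ : σ ∈ X) (hτ : τ ∈ X) :
    ev X G (upN σ τ) = {ev X G σ, ev X G τ} := by
  ext x
  rw [upN, mem_ev_top hG, mem_pair]
  constructor
  · rintro ⟨i, _, rfl⟩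
    cases i
    · exact Or.inr rfl
    · exact Or.inl rfl
  · rintro (rfl | rfl)
    · exact ⟨true, hσ, rfl⟩
    · exact ⟨false, hτ, rfl⟩

theorem ev_pairN (hX : Hull X) {σ τ : Nm B} (hσ : σ ∈ X) (hτ : τ ∈ X) :
    ev X G (pairN σ τ) = pair (ev X G σ) (ev X G τ) := by
  rw [pairN, ev_upN hG (hX.up _ hσ _ hσ) (hX.up _ hσ _ hτ), ev_upN hG hσ hσ, ev_upN hG hσ hτ,
    pair]
  simp

theorem mem_ev_ordN {o : Ordinal.{0}} {x : ZFSet.{0}} :
    x ∈ ev X G (ordN o) ↔ ∃ a < o, ordN a ∈ X ∧ ev X G (ordN a) = x := by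
  rw [ordN, mem_ev_top hG]
  constructor
  · rintro ⟨a, h1, h2⟩
    exact ⟨a, a.toOrd.prop, h1, h2⟩
  · rintro ⟨a, ha, h1, h2⟩
    refine ⟨Ordinal.ToType.mk ⟨a, ha⟩, ?_, ?_⟩
    · simpa using h1
    · simpa using h2

theorem ev_ordN_lt {a o : Ordinal.{0}} (ha : ordN a ∈ X) (h : a < o) :
    ev X G (ordN a) ∈ ev X G (ordN o) :=
  (mem_ev_ordN hG).2 ⟨a, h, ha, rfl⟩

theorem ev_ordN_inj {a o : Ordinal.{0}} (ha : ordN a ∈ X) (ho : ordN o ∈ X)
    (h : ev X G (ordN a) = ev X G (ordN o)) : a = o := by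
  rcases lt_trichotomy a o with h1 | h1 | h1
  · have := ev_ordN_lt hG ha h1
    rw [h] at this
    exact absurd this (mem_irrefl _)
  · exact h1
  · have := ev_ordN_lt hG ho h1
    rw [h] at this
    exact absurd this (mem_irrefl _)

theorem ev_ordN_ordinal (o : Ordinal.{0}) : (ev X G (ordN o)).IsOrdinal := by
  induction o using WellFoundedLT.induction with
  | ind o ih =>
  rw [isOrdinal_iff_forall_mem_isOrdinal]
  constructor
  · intro x hx y hy
    obtain ⟨a, ha, _, rfl⟩ := (mem_ev_ordN hG).1 hx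
    obtain ⟨a', ha', h1, rfl⟩ := (mem_ev_ordN hG).1 hy
    exact ev_ordN_lt hG h1 (ha'.trans ha)
  · intro x hx
    obtain ⟨a, ha, _, rfl⟩ := (mem_ev_ordN hG).1 hx
    exact ih a ha

theorem ev_nat (hX : Hull X) (n : ℕ) : ev X G (ordN (n : Ordinal.{0})) = nat n := by
  induction n using Nat.strong_induction_on with
  | _ n ih =>
  ext x
  rw [mem_ev_ordN hG, mem_nat]
  constructor
  · rintro ⟨a, ha, _, rfl⟩
    obtain ⟨m, rfl⟩ := Ordinal.lt_omega0.1 (ha.trans (Ordinal.natCast_lt_omega0 n))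
    have hm : m < n := by exact_mod_cast ha
    exact ⟨m, hm, ih m hm⟩
  · rintro ⟨m, hm, rfl⟩
    exact ⟨m, by exact_mod_cast hm, hX.nat m, ih m hm⟩

theorem ev_omega (hX : Hull X) : ev X G (ordN Ordinal.omega0) = omega := by
  ext x
  rw [mem_ev_ordN hG, mem_omega_iff]
  constructor
  · rintro ⟨a, ha, _, rfl⟩
    obtain ⟨m, rfl⟩ := Ordinal.lt_omega0.1 ha
    exact ⟨m, ev_nat hG hX m⟩
  · rintro ⟨m, rfl⟩
    exact ⟨m, Ordinal.natCast_lt_omega0 m, hX.nat m, ev_nat hG hX m⟩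

end ev

section zfc

variable {X : Set (Nm B)} {G : Set B} (h : Gen X G) (hX : Hull X)
include h hX

omit hX in
theorem mod_transitive : ∀ x ∈ Mod X G, ∀ y ∈ x, y ∈ Mod X G := by
  rintro _ ⟨σ, _, rfl⟩ y hy
  obtain ⟨η, hη, _, rfl⟩ := (mem_ev h.ultra).1 hy
  exact ⟨η, hη, rfl⟩

omit h hX in
theorem exists_names {n : ℕ} {v : Fin n → ZFSet.{0}} (hv : ∀ i, v i ∈ Mod X G) :
    ∃ w : Fin n → Nm B, (∀ i, w i ∈ X) ∧ (fun i => ev X G (w i)) = v := by
  choose w hw1 hw2 using hv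
  exact ⟨w, hw1, funext hw2⟩

omit h hX in
theorem cons_ev {n : ℕ} (x : Nm B) (w : Fin n → Nm B) :
    (fun i => ev X G ((Fin.cons x w : Fin (n + 1) → Nm B) i)) =
      Fin.cons (ev X G x) (fun i => ev X G (w i)) := by
  funext i
  refine Fin.cases ?_ (fun i => ?_) i
  · rfl
  · rfl

omit h hX in
theorem cons_mem {n : ℕ} {x : Nm B} {w : Fin n → Nm B} (hx : x ∈ X) (hw : ∀ i, w i ∈ X) :
    ∀ i, (Fin.cons x w : Fin (n + 1) → Nm B) i ∈ X := by
  intro i
  refine Fin.cases ?_ (fun i => ?_) i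
  · exact hx
  · exact hw i

theorem mod_separation (n : ℕ) (φ : Fm (n + 1)) (v : Fin n → ZFSet) (hv : ∀ i, v i ∈ Mod X G)
    (a : ZFSet) (ha : a ∈ Mod X G) :
    ZFSet.sep (fun x => Sat (Mod X G) φ (Fin.cons x v)) a ∈ Mod X G := by
  have hG := h.ultra
  obtain ⟨w, hw, rfl⟩ := exists_names hv
  obtain ⟨σ, hσ, rfl⟩ := ha
  refine ⟨sepN φ σ w, hX.sep n φ σ hσ w hw, ?_⟩
  ext x
  rw [mem_ev hG, mem_sep, mem_ev hG]
  constructor
  · rintro ⟨η, hη, h1, rfl⟩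
    rw [sepN, lab_mk σ (fun η => bval φ (Fin.cons η w)), hG.inf_iff,
      h.truth φ _ (cons_mem hη hw), cons_ev] at h1
    exact ⟨⟨η, hη, h1.1, rfl⟩, h1.2⟩
  · rintro ⟨⟨η, hη, h1, rfl⟩, h2⟩
    refine ⟨η, hη, ?_, rfl⟩
    rw [sepN, lab_mk σ (fun η => bval φ (Fin.cons η w)), hG.inf_iff,
      h.truth φ _ (cons_mem hη hw), cons_ev]
    exact ⟨h1, h2⟩

theorem mod_model : Model (Mod X G) where
  transitive := mod_transitive h
  infinity := ⟨_, hX.omega, ev_omega h.ultra hX⟩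
  pairing := by
    rintro _ ⟨σ, hσ, rfl⟩ _ ⟨τ, hτ, rfl⟩
    exact ⟨_, hX.up σ hσ τ hτ, ev_upN h.ultra hσ hτ⟩
  union := by
    intro a ha
    obtain ⟨σ, hσ, rfl⟩ := ha
    have h1 := mod_separation h hX 1 (.ex (.and (.mem 0 2) (.mem 1 0))) (fun _ => ev X G σ)
      (fun _ => ⟨σ, hσ, rfl⟩) (ev X G (unN σ)) ⟨_, hX.un σ hσ, rfl⟩
    convert h1 using 1
    ext x
    rw [mem_sUnion, mem_sep]
    constructor
    · rintro ⟨y, hy, hx⟩
      refine ⟨?_, y, mod_transitive h _ ⟨σ, hσ, rfl⟩ y hy, hy, hx⟩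
      obtain ⟨η, hη, h2, rfl⟩ := (mem_ev h.ultra).1 hy
      obtain ⟨ρ, hρ, h3, rfl⟩ := (mem_ev h.ultra).1 hx
      have h4 : ∃ i, σ.c i = η := by
        by_contra hcon
        apply h.ultra.ne_bot h2
        rw [lab]
        simp only [iSup_eq_bot]
        intro i hi
        exact absurd ⟨i, hi⟩ hcon
      obtain ⟨i, rfl⟩ := h4
      have h5 : ∃ j, (σ.c i).c j = ρ := by
        by_contra hcon
        apply h.ultra.ne_bot h3
        rw [lab]
        simp only [iSup_eq_bot]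
        intro i hi
        exact absurd ⟨i, hi⟩ hcon
      obtain ⟨j, rfl⟩ := h5
      rw [unN, mem_ev_top h.ultra]
      exact ⟨⟨i, j⟩, hρ, rfl⟩
    · rintro ⟨_, y, _, hy, hx⟩
      exact ⟨y, hy, hx⟩
  powerset := by
    intro a ha
    obtain ⟨σ, hσ, rfl⟩ := ha
    have h1 := mod_separation h hX 1 (.neg (.ex (.and (.mem 0 1) (.neg (.mem 0 2)))))
      (fun _ => ev X G σ) (fun _ => ⟨σ, hσ, rfl⟩) (ev X G (powN σ)) ⟨_, hX.pow σ hσ, rfl⟩
    convert h1 using 1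
    ext x
    rw [mem_sep, mem_sep, mem_powerset]
    have h2 : x ∈ Mod X G → (Sat (Mod X G) (.neg (.ex (.and (.mem 0 1) (.neg (.mem 0 2)))))
        (Fin.cons x (fun _ : Fin 1 => ev X G σ)) ↔ x ⊆ ev X G σ) := by
      intro hx
      constructor
      · intro h2 y hy
        by_contra h3
        exact h2 ⟨y, mod_transitive h _ hx y hy, hy, h3⟩
      · rintro h2 ⟨y, _, hy, h3⟩
        exact h3 (h2 hy)
    constructor
    · rintro ⟨h3, hx⟩
      refine ⟨?_, (h2 hx).2 h3⟩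
      obtain ⟨η, hη, rfl⟩ := hx
      have h4 := hX.res σ hσ η hη
      rw [powN, mem_ev_top h.ultra]
      refine ⟨fun i => bmem (σ.c i) η, h4, ?_⟩
      ext x
      rw [mem_ev h.ultra]
      constructor
      · rintro ⟨ρ, hρ, h5, rfl⟩
        have h6 : ∃ i, σ.c i = ρ := by
          by_contra hcon
          apply h.ultra.ne_bot h5
          rw [lab]
          simp only [iSup_eq_bot]
          intro i hi
          exact absurd ⟨i, hi⟩ hcon
        obtain ⟨i, rfl⟩ := h6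
        rw [lab_mk' σ (fun ρ => bmem ρ η), h.bmem_iff hρ hη] at h5
        exact h5
      · intro hx
        obtain ⟨ρ, hρ, h5, rfl⟩ := (mem_ev h.ultra).1 (h3 hx)
        have h6 : ∃ i, σ.c i = ρ := by
          by_contra hcon
          apply h.ultra.ne_bot h5
          rw [lab]
          simp only [iSup_eq_bot]
          intro i hi
          exact absurd ⟨i, hi⟩ hcon
        obtain ⟨i, rfl⟩ := h6
        refine ⟨_, hρ, ?_, rfl⟩
        rw [lab_mk' σ (fun ρ => bmem ρ η), h.bmem_iff hρ hη]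
        exact hx
    · rintro ⟨hx1, h3⟩
      have hx := mod_transitive h _ ⟨_, hX.pow σ hσ, rfl⟩ x hx1
      exact ⟨(h2 hx).1 h3, hx⟩
  separation := mod_separation h hX
  collection := by
    intro n φ v hv a ha h1
    obtain ⟨w, hw, rfl⟩ := exists_names hv
    obtain ⟨σ, hσ, rfl⟩ := ha
    refine ⟨_, ⟨colN φ σ w, hX.col n φ σ hσ w hw, rfl⟩, fun x hx => ?_⟩
    obtain ⟨_, ⟨η, hη, rfl⟩, h2⟩ := h1 x hx
    obtain ⟨ρ, hρ, h3, rfl⟩ := (mem_ev h.ultra).1 hx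
    have h6 : ∃ i, σ.c i = ρ := by
      by_contra hcon
      apply h.ultra.ne_bot h3
      rw [lab]
      simp only [iSup_eq_bot]
      intro i hi
      exact absurd ⟨i, hi⟩ hcon
    obtain ⟨i, rfl⟩ := h6
    rw [← cons_ev, ← cons_ev, ← h.truth φ _ (cons_mem hη (cons_mem hρ hw)), ← bval_wB,
      h.truth φ _ (cons_mem (hX.wit n φ _ hρ η hη w hw) (cons_mem hρ hw)), cons_ev, cons_ev] at h2
    refine ⟨_, ?_, h2⟩
    rw [colN, mem_ev_top h.ultra]
    exact ⟨(i, _), hX.wit n φ _ hρ η hη w hw, rfl⟩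
  wo := by
    intro a ha
    obtain ⟨σ, hσ, rfl⟩ := ha
    have hG := h.ultra
    refine ⟨_, ⟨_, hX.woA σ hσ, rfl⟩, ev_ordN_ordinal hG _, _, ⟨_, hX.woN σ hσ, rfl⟩, ?_, ?_, ?_⟩
    · intro z hz
      rw [woN, mem_ev_top hG] at hz
      obtain ⟨i, h1, rfl⟩ := hz
      have h2 := hX.fst _ h1
      have h3 := hX.snd _ h1
      rw [fstN_pairN] at h2
      rw [sndN_pairN] at h3
      rw [ev_pairN hG hX h2 h3]
      exact ⟨_, ev_ordN_lt hG h2 (Ordinal.typein_lt_type _ _), _, rfl⟩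
    · intro β x y hx hy
      rw [woN, mem_ev_top hG] at hx hy
      obtain ⟨i, h1, h1'⟩ := hx
      obtain ⟨j, h4, h4'⟩ := hy
      have h2 := hX.fst _ h1
      have h3 := hX.snd _ h1
      have h5 := hX.fst _ h4
      have h6 := hX.snd _ h4
      rw [fstN_pairN] at h2 h5
      rw [sndN_pairN] at h3 h6
      rw [ev_pairN hG hX h2 h3] at h1'
      rw [ev_pairN hG hX h5 h6] at h4'
      obtain ⟨h7, h8⟩ := pair_inj.1 h1'
      obtain ⟨h9, h10⟩ := pair_inj.1 h4'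
      have h11 := ev_ordN_inj hG h2 h5 (h7.trans h9.symm)
      have h12 : i = j := Ordinal.typein_injective _ h11
      subst h12
      rw [← h8, ← h10]
    · intro x hx
      obtain ⟨ρ, hρ, h3, rfl⟩ := (mem_ev hG).1 hx
      have h6 : ∃ i, σ.c i = ρ := by
        by_contra hcon
        apply h.ultra.ne_bot h3
        rw [lab]
        simp only [iSup_eq_bot]
        intro i hi
        exact absurd ⟨i, hi⟩ hcon
      have h7 := hX.woW σ hσ ρ hρ
      rw [MP_6efb98_lc.woW, dif_pos h6] at h7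
      have h8 : σ.c h6.choose ∈ X := by
        rw [h6.choose_spec]
        exact hρ
      refine ⟨ev X G (ordN (pos σ h6.choose)), ?_⟩
      rw [woN, mem_ev_top hG]
      refine ⟨h6.choose, ?_, ?_⟩
      · exact hX.up _ (hX.up _ h7 _ h7) _ (hX.up _ h7 _ h8)
      · rw [ev_pairN hG hX h7 h8, h6.choose_spec]

end zfc

end Pool.Agent.Work.MP_6efb98_lc
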