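import Pool.Agent.Work.MP_6efb98_lc.RO

/-!
A ccc poset obtained by iterating Mathias-type and Cohen forcings, given as finite support
conditions on a set of hereditary indices.
-/

namespace Pool.Agent.Work.MP_6efb98_lc

/-- hereditary indices: `base`, or a family of sequences of conditions on smaller indices -/
inductive Ix (K : Type) : Type
  | base : Ix K
  | mk (d : K → ℕ → ℕ → Prop) (len : K → ℕ → ℕ → ℕ) (idx : K → ℕ → ℕ → ℕ → Ix K)
      (s : K → ℕ → ℕ → ℕ → Finset ℕ) (Γ : K → ℕ → ℕ → ℕ → Finset K) : Ix K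

/-- conditions -/
structure Cd (K : Type) where
  s : Ix K → Finset ℕ
  g : Ix K → Finset K
  fin : {i | s i ≠ ∅ ∨ g i ≠ ∅}.Finite

namespace Cd

variable {K : Type}

@[ext] theorem ext' {p q : Cd K} (h1 : ∀ i, p.s i = q.s i) (h2 : ∀ i, p.g i = q.g i) : p = q := by
  cases p
  cases q
  congr
  · exact funext h1
  · exact funext h2

/-- the condition `q` decides `n` to belong to the set `γ` of the index `i` -/
def Force (q : Cd K) : Ix K → K → ℕ → Prop
  | .base, _, _ => False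
  | .mk d len idx s Γ, γ, n => ∃ k, d γ n k ∧ ∀ l < len γ n k,
      s γ n k l ⊆ q.s (idx γ n k l) ∧ Γ γ n k l ⊆ q.g (idx γ n k l) ∧
      ∀ n' ∈ q.s (idx γ n k l), n' ∉ s γ n k l → ∀ γ' ∈ Γ γ n k l, Force q (idx γ n k l) γ' n'

instance : LE (Cd K) := ⟨fun q p => ∀ i, p.s i ⊆ q.s i ∧ p.g i ⊆ q.g i ∧
  ∀ n ∈ q.s i, n ∉ p.s i → ∀ γ ∈ p.g i, Force q i γ n⟩

theorem le_def {p q : Cd K} : q ≤ p ↔ ∀ i, p.s i ⊆ q.s i ∧ p.g i ⊆ q.g i ∧
  ∀ n ∈ q.s i, n ∉ p.s i → ∀ γ ∈ p.g i, Force q i γ n := Iff.rfl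

theorem Force.mono {q r : Cd K} (h : r ≤ q) {i : Ix K} {γ : K} {n : ℕ} (hf : Force q i γ n) :
    Force r i γ n := by
  induction i generalizing γ n with
  | base => exact hf
  | mk d len idx s Γ ih =>
    obtain ⟨k, hk, h1⟩ := hf
    refine ⟨k, hk, fun l hl => ?_⟩
    obtain ⟨h2, h3, h4⟩ := h1 l hl
    obtain ⟨h5, h6, h7⟩ := h (idx γ n k l)
    refine ⟨h2.trans h5, h3.trans h6, fun n' hn' hn'' γ' hγ' => ?_⟩
    by_cases h8 : n' ∈ q.s (idx γ n k l)
    · exact ih γ n k l (h4 n' h8 hn'' γ' hγ')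
    · exact h7 n' hn' h8 γ' (h3 hγ')

instance : Preorder (Cd K) where
  le_refl p i := ⟨fun _ h => h, fun _ h => h, fun n h h' => absurd h h'⟩
  le_trans r q p h1 h2 i := by
    obtain ⟨h3, h4, h5⟩ := h1 i
    obtain ⟨h6, h7, h8⟩ := h2 i
    refine ⟨h6.trans h3, h7.trans h4, fun n hn hn' γ hγ => ?_⟩
    by_cases h9 : n ∈ q.s i
    · exact (h8 n h9 hn' γ hγ).mono h1
    · exact h5 n hn h9 γ (h7 hγ)

/-- the indices which matter for `i` -/
def Below : Ix K → Set (Ix K)
  | .base => ∅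
  | .mk _ len idx _ _ => {j | ∃ γ n k, ∃ l < len γ n k, j = idx γ n k l ∨ j ∈ Below (idx γ n k l)}

theorem Below.trans {i j k : Ix K} (h1 : k ∈ Below j) (h2 : j ∈ Below i) : k ∈ Below i := by
  induction i with
  | base => exact h2
  | mk d len idx s Γ ih =>
    obtain ⟨γ, n, m, l, hl, h3 | h3⟩ := h2
    · exact ⟨γ, n, m, l, hl, Or.inr (h3 ▸ h1)⟩
    · exact ⟨γ, n, m, l, hl, Or.inr (ih γ n m l h3)⟩

theorem Below.irrefl (i : Ix K) : i ∉ Below i := by
  induction i with
  | base => exact fun h => h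
  | mk d len idx s Γ ih =>
    intro h
    obtain ⟨γ, n, m, l, hl, h3 | h3⟩ := id h
    · rw [h3] at h
      exact ih γ n m l h
    · exact ih γ n m l
        (Below.trans (j := .mk d len idx s Γ) ⟨γ, n, m, l, hl, Or.inl rfl⟩ h3)

/-- agreement -/
def Agree (S : Set (Ix K)) (q r : Cd K) : Prop := ∀ j ∈ S, q.s j = r.s j ∧ q.g j = r.g j

theorem Agree.symm {S : Set (Ix K)} {q r : Cd K} (h : Agree S q r) : Agree S r q :=
  fun j hj => ⟨(h j hj).1.symm, (h j hj).2.symm⟩

theorem Force.local {q r : Cd K} {i : Ix K} (h : Agree (Below i) q r) {γ : K} {n : ℕ}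
    (hf : Force q i γ n) : Force r i γ n := by
  induction i generalizing γ n with
  | base => exact hf
  | mk d len idx s Γ ih =>
    obtain ⟨k, hk, h1⟩ := hf
    refine ⟨k, hk, fun l hl => ?_⟩
    obtain ⟨h2, h3, h4⟩ := h1 l hl
    obtain ⟨h5, h6⟩ := h (idx γ n k l) ⟨γ, n, k, l, hl, Or.inl rfl⟩
    rw [h5] at h2 h4
    rw [h6] at h3
    refine ⟨h2, h3, fun n' hn' hn'' γ' hγ' => ?_⟩
    exact ih γ n k l (fun j hj => h j ⟨γ, n, k, l, hl, Or.inr hj⟩) (h4 n' hn' hn'' γ' hγ')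

open Classical in
/-- amalgamation: `r` on `S`, `p` elsewhere -/
noncomputable def am (p r : Cd K) (S : Set (Ix K)) : Cd K where
  s j := if j ∈ S then r.s j else p.s j
  g j := if j ∈ S then r.g j else p.g j
  fin := by
    refine (p.fin.union r.fin).subset fun j hj => ?_
    by_cases h : j ∈ S
    · simp only [Set.mem_ofPred_eq, h, if_true] at hj
      exact Or.inr hj
    · simp only [Set.mem_ofPred_eq, h, if_false] at hj
      exact Or.inl hj

theorem am_s_of_mem {p r : Cd K} {S : Set (Ix K)} {j : Ix K} (h : j ∈ S) :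
    (am p r S).s j = r.s j := if_pos h

theorem am_g_of_mem {p r : Cd K} {S : Set (Ix K)} {j : Ix K} (h : j ∈ S) :
    (am p r S).g j = r.g j := if_pos h

theorem am_s_of_notMem {p r : Cd K} {S : Set (Ix K)} {j : Ix K} (h : j ∉ S) :
    (am p r S).s j = p.s j := if_neg h

theorem am_g_of_notMem {p r : Cd K} {S : Set (Ix K)} {j : Ix K} (h : j ∉ S) :
    (am p r S).g j = p.g j := if_neg h

theorem am_agree (p r : Cd K) (S : Set (Ix K)) : Agree S (am p r S) r :=
  fun _ hj => ⟨am_s_of_mem hj, am_g_of_mem hj⟩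

theorem am_le {p r : Cd K} (h : r ≤ p) (i : Ix K) : am p r (Below i) ≤ p := by
  intro j
  by_cases hj : j ∈ Below i
  · rw [am_s_of_mem hj, am_g_of_mem hj]
    obtain ⟨h1, h2, h3⟩ := h j
    refine ⟨h1, h2, fun n hn hn' γ hγ => ?_⟩
    exact (h3 n hn hn' γ hγ).local
      (fun k hk => (am_agree p r (Below i) k (Below.trans hk hj)).imp Eq.symm Eq.symm)
  · rw [am_s_of_notMem hj, am_g_of_notMem hj]
    exact ⟨fun _ h => h, fun _ h => h, fun n h h' => absurd h h'⟩

open Classical in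
/-- modification at one index -/
noncomputable def upd (p : Cd K) (i : Ix K) (a : Finset ℕ) (b : Finset K) : Cd K where
  s j := if j = i then a else p.s j
  g j := if j = i then b else p.g j
  fin := by
    refine (p.fin.union (Set.finite_singleton i)).subset fun j hj => ?_
    by_cases h : j = i
    · exact Or.inr h
    · simp only [Set.mem_ofPred_eq, h, if_false] at hj
      exact Or.inl hj

theorem upd_s_self (p : Cd K) (i : Ix K) (a : Finset ℕ) (b : Finset K) :
    (upd p i a b).s i = a := if_pos rfl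

theorem upd_g_self (p : Cd K) (i : Ix K) (a : Finset ℕ) (b : Finset K) :
    (upd p i a b).g i = b := if_pos rfl

theorem upd_s_ne (p : Cd K) {i j : Ix K} (a : Finset ℕ) (b : Finset K) (h : j ≠ i) :
    (upd p i a b).s j = p.s j := if_neg h

theorem upd_g_ne (p : Cd K) {i j : Ix K} (a : Finset ℕ) (b : Finset K) (h : j ≠ i) :
    (upd p i a b).g j = p.g j := if_neg h

theorem upd_agree (p : Cd K) (i : Ix K) (a : Finset ℕ) (b : Finset K) :
    Agree (Below i) p (upd p i a b) := by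
  intro j hj
  have h : j ≠ i := by
    rintro rfl
    exact Below.irrefl j hj
  rw [upd_s_ne _ _ _ h, upd_g_ne _ _ _ h]
  exact ⟨rfl, rfl⟩

theorem upd_le {p : Cd K} {i : Ix K} {a : Finset ℕ} {b : Finset K} (ha : p.s i ⊆ a)
    (hb : p.g i ⊆ b) (h : ∀ n ∈ a, n ∉ p.s i → ∀ γ ∈ p.g i, Force p i γ n) :
    upd p i a b ≤ p := by
  intro j
  by_cases hj : j = i
  · subst hj
    rw [upd_s_self, upd_g_self]
    exact ⟨ha, hb, fun n hn hn' γ hγ => (h n hn hn' γ hγ).local (upd_agree p j a b)⟩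
  · rw [upd_s_ne _ _ _ hj, upd_g_ne _ _ _ hj]
    exact ⟨fun _ h => h, fun _ h => h, fun n h h' => absurd h h'⟩

open Classical in
/-- union -/
noncomputable def un (p q : Cd K) : Cd K where
  s j := p.s j ∪ q.s j
  g j := p.g j ∪ q.g j
  fin := by
    refine (p.fin.union q.fin).subset fun j hj => ?_
    by_contra h
    simp only [Set.mem_union, Set.mem_ofPred_eq, not_or, not_not] at h hj
    rw [h.1.1, h.1.2, h.2.1, h.2.2] at hj
    simp at hj

/-- compatibility of conditions -/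
theorem un_le {p q : Cd K} (h : ∀ i, (p.s i ≠ ∅ ∨ p.g i ≠ ∅) → (q.s i ≠ ∅ ∨ q.g i ≠ ∅) →
    p.s i = q.s i) : un p q ≤ p ∧ un p q ≤ q := by
  classical
  constructor
  · intro i
    refine ⟨Finset.subset_union_left, Finset.subset_union_left, fun n hn hn' γ hγ => ?_⟩
    exfalso
    rcases Finset.mem_union.1 hn with h1 | h1
    · exact hn' h1
    · have h2 := h i (Or.inr (Finset.ne_empty_of_mem hγ)) (Or.inl (Finset.ne_empty_of_mem h1))
      exact hn' (h2 ▸ h1)
  · intro i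
    refine ⟨Finset.subset_union_right, Finset.subset_union_right, fun n hn hn' γ hγ => ?_⟩
    exfalso
    rcases Finset.mem_union.1 hn with h1 | h1
    · have h2 := h i (Or.inl (Finset.ne_empty_of_mem h1)) (Or.inr (Finset.ne_empty_of_mem hγ))
      exact hn' (h2 ▸ h1)
    · exact hn' h1

instance : Nonempty (Cd K) := ⟨⟨fun _ => ∅, fun _ => ∅, by simp⟩⟩

end Cd

end Pool.Agent.Work.MP_6efb98_lc
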