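import Pool.Agent.Work.MP_6efb98_lc.Lib2

/-!
Recursion inside a transitive model: if `F` and `ext` are definable over `M` and the elements of
`ext x` have smaller rank than `x`, then the function `R` with `R x = F (x, R ↾ ext x)` is
definable over `M` (in particular `M` is closed under `R`).
-/

namespace Pool.Agent.Work.MP_6efb98_lc

open ZFSet

universe u v w
variable {M : Set ZFSet.{0}}

/-- the graph of `R` on the set `d` -/
noncomputable def graph (R : ZFSet.{0} → ZFSet.{0}) (d : ZFSet.{0}) : ZFSet.{0} :=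
  img (fun x => pair x (R x)) d

theorem mem_graph {R : ZFSet.{0} → ZFSet.{0}} {d x y : ZFSet.{0}} :
    pair x y ∈ graph R d ↔ x ∈ d ∧ y = R x := by
  simp only [graph, mem_img, pair_inj]
  constructor
  · rintro ⟨z, hz, rfl, rfl⟩
    exact ⟨hz, rfl⟩
  · rintro ⟨h, rfl⟩
    exact ⟨x, h, rfl, rfl⟩

theorem isRel_graph {R : ZFSet.{0} → ZFSet.{0}} {d : ZFSet.{0}} : IsRel (graph R d) := by
  intro z hz
  obtain ⟨x, _, rfl⟩ := mem_img.1 hz
  exact ⟨_, _, rfl⟩

theorem restr_graph {R : ZFSet.{0} → ZFSet.{0}} {d e : ZFSet.{0}} (h : e ⊆ d) :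
    restr (graph R d) e = graph R e := by
  refine isRel_restr.ext isRel_graph fun x y => ?_
  rw [pair_mem_restr, mem_graph, mem_graph]
  constructor
  · rintro ⟨⟨_, h1⟩, h2⟩
    exact ⟨h2, h1⟩
  · rintro ⟨h1, h2⟩
    exact ⟨⟨h h1, h2⟩, h1⟩

theorem sv_graph {R : ZFSet.{0} → ZFSet.{0}} {d : ZFSet.{0}} : Sv (graph R d) := by
  intro x y z h1 h2
  rw [mem_graph] at h1 h2
  rw [h1.2, h2.2]

theorem dom_graph {R : ZFSet.{0} → ZFSet.{0}} {d : ZFSet.{0}} : dom (graph R d) = d := by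
  ext x
  simp [mem_dom, mem_graph]

theorem app_graph {R : ZFSet.{0} → ZFSet.{0}} {d x : ZFSet.{0}} (h : x ∈ d) :
    app (graph R d) x = R x := sv_graph.app_eq (mem_graph.2 ⟨h, rfl⟩)

@[fun_prop]
theorem dfn_graph {α : Type u} [DT α] [Model M] {F : α → ZFSet.{0} → ZFSet.{0}}
    {f : α → ZFSet.{0}} (hf : Dfn M f) (hF : Dfn M (fun p : ZFSet.{0} × α => F p.2 p.1)) :
    Dfn M (fun a => graph (F a) (f a)) := by
  simp only [graph]
  exact dfn_img hf (dfn_pair dfn_fst hF)

variable [hM : Model M]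

/-- `f` is an attempt at the recursion, with domain `d` -/
def Att (F : ZFSet.{0} × ZFSet.{0} → ZFSet.{0}) (ext : ZFSet.{0} → ZFSet.{0})
    (f d : ZFSet.{0}) : Prop :=
  IsRel f ∧ Sv f ∧ dom f = d ∧ BAll d (fun x => ext x ⊆ d ∧ app f x = F (x, restr f (ext x)))

theorem dfn_Att {F : ZFSet.{0} × ZFSet.{0} → ZFSet.{0}} {ext : ZFSet.{0} → ZFSet.{0}}
    (hF : Dfn M F) (hext : Dfn M ext) : Dfn M (fun p : ZFSet.{0} × ZFSet.{0} =>
      Att F ext p.1 p.2) := by
  unfold Att
  fun_prop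

omit hM in
theorem Att.eq_graph {F : ZFSet.{0} × ZFSet.{0} → ZFSet.{0}} {ext : ZFSet.{0} → ZFSet.{0}}
    (hr : ∀ x, ∀ y ∈ ext x, y.rank < x.rank) {R : ZFSet.{0} → ZFSet.{0}}
    (hR : ∀ x, R x = F (x, graph R (ext x))) {f d : ZFSet.{0}} (h : Att F ext f d) :
    f = graph R d := by
  obtain ⟨h1, h2, h3, h4⟩ := h
  have key : ∀ o : Ordinal.{0}, ∀ x, x.rank = o → x ∈ d → app f x = R x := by
    intro o
    induction o using WellFoundedLT.induction with
    | ind o ih =>
      intro x hx hxd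
      obtain ⟨h5, h6⟩ := h4 x hxd
      rw [h6, hR]
      congr 2
      refine isRel_restr.ext isRel_graph fun y z => ?_
      rw [pair_mem_restr, mem_graph]
      constructor
      · rintro ⟨h7, h8⟩
        refine ⟨h8, ?_⟩
        rw [← ih y.rank (hx ▸ hr x y h8) y rfl (h5 h8), h2.app_eq h7]
      · rintro ⟨h7, rfl⟩
        refine ⟨?_, h7⟩
        obtain ⟨w, hw⟩ := mem_dom.1 (h3 ▸ h5 h7 : y ∈ dom f)
        rw [← ih y.rank (hx ▸ hr x y h7) y rfl (h5 h7), h2.app_eq hw]
        exact hw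
  refine h1.ext isRel_graph fun x y => ?_
  rw [mem_graph]
  constructor
  · intro h
    have hx : x ∈ d := h3 ▸ mem_dom.2 ⟨y, h⟩
    exact ⟨hx, by rw [← key x.rank x rfl hx, h2.app_eq h]⟩
  · rintro ⟨hx, rfl⟩
    obtain ⟨w, hw⟩ := mem_dom.1 (h3 ▸ hx : x ∈ dom f)
    rw [← key x.rank x rfl hx, h2.app_eq hw]
    exact hw

omit hM in
theorem att_graph {F : ZFSet.{0} × ZFSet.{0} → ZFSet.{0}} {ext : ZFSet.{0} → ZFSet.{0}}
    {R : ZFSet.{0} → ZFSet.{0}}
    (hR : ∀ x, R x = F (x, graph R (ext x))) {d : ZFSet.{0}} (h : ∀ x ∈ d, ext x ⊆ d) :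
    Att F ext (graph R d) d := by
  refine ⟨isRel_graph, sv_graph, dom_graph, fun x hx => ⟨h x hx, ?_⟩⟩
  rw [app_graph hx, restr_graph (h x hx), hR]

theorem exists_att {F : ZFSet.{0} × ZFSet.{0} → ZFSet.{0}} {ext : ZFSet.{0} → ZFSet.{0}}
    (hF : Dfn M F) (hext : Dfn M ext)
    (hr : ∀ x, ∀ y ∈ ext x, y.rank < x.rank) {R : ZFSet.{0} → ZFSet.{0}}
    (hR : ∀ x, R x = F (x, graph R (ext x))) :
    ∀ x ∈ M, ∃ f ∈ M, ∃ d ∈ M, Att F ext f d ∧ x ∈ d := by
  have hA := dfn_Att hF hext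
  have main : ∀ o : Ordinal.{0}, ∀ x ∈ M, x.rank = o → ∃ f ∈ M, ∃ d ∈ M, Att F ext f d ∧ x ∈ d := by
    intro o
    induction o using WellFoundedLT.induction with
    | ind o ih =>
      intro x hxM hx
      have hextx : ext x ∈ M := inM_zf.1 (hext.1 x (inM_zf.2 hxM))
      have hP : Dfn M (fun q : ZFSet.{0} × ZFSet.{0} × Unit =>
          Att F ext q.1 (dom q.1) ∧ q.2.1 ∈ dom q.1) := by
        refine dfn_and ?_ (by fun_prop)
        exact dfn_comp (f := fun q : ZFSet.{0} × ZFSet.{0} × Unit => (q.1, dom q.1)) hA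
          (by fun_prop)
      obtain ⟨b, hb, h1⟩ := collection_mem hP (a := ()) (by simp) hextx (fun y hy => by
        obtain ⟨f, hf, d, hd, h1, h2⟩ := ih y.rank (hx ▸ hr x y hy) y (trans_mem hextx hy) rfl
        have h3 : dom f = d := h1.2.2.1
        exact ⟨f, hf, by rw [h3]; exact ⟨h1, h2⟩⟩)
      -- the set of all attempts in `b`
      have hS : Dfn M (fun b : ZFSet.{0} => ZFSet.sep (fun f => Att F ext f (dom f)) b) := by
        refine dfn_sep (f := fun b : ZFSet.{0} => b) (P := fun _ f => Att F ext f (dom f))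
          (by fun_prop) ?_
        exact dfn_comp (f := fun q : ZFSet.{0} × ZFSet.{0} => (q.1, dom q.1)) hA (by fun_prop)
      set S := ZFSet.sep (fun f => Att F ext f (dom f)) b with hSdef
      have hSM : S ∈ M := inM_zf.1 (hS.1 b (inM_zf.2 hb))
      set d : ZFSet.{0} := ⋃₀ (img dom S) with hd
      have hdM : d ∈ M := by
        have : Dfn M (fun s : ZFSet.{0} => (⋃₀ (img dom s) : ZFSet)) := by fun_prop
        exact inM_zf.1 (this.1 S (inM_zf.2 hSM))
      have hclosed : ∀ y ∈ d, ext y ⊆ d := by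
        intro y hy z hz
        obtain ⟨e, he, hye⟩ := mem_sUnion.1 hy
        obtain ⟨f, hf, rfl⟩ := mem_img.1 he
        have h2 := (mem_sep.1 hf).2
        exact mem_sUnion.2 ⟨dom f, mem_img.2 ⟨f, hf, rfl⟩, (h2.2.2.2 y hye).1 hz⟩
      have hgr : graph R d = ⋃₀ S := by
        ext p
        constructor
        · intro hp
          obtain ⟨y, hy, rfl⟩ := mem_img.1 hp
          obtain ⟨e, he, hye⟩ := mem_sUnion.1 hy
          obtain ⟨f, hf, rfl⟩ := mem_img.1 he
          refine mem_sUnion.2 ⟨f, hf, ?_⟩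
          have h2 := (mem_sep.1 hf).2.eq_graph hr hR
          rw [h2]
          exact mem_graph.2 ⟨hye, rfl⟩
        · intro hp
          obtain ⟨f, hf, hpf⟩ := mem_sUnion.1 hp
          have h2 := (mem_sep.1 hf).2.eq_graph hr hR
          rw [h2] at hpf
          obtain ⟨y, hy, rfl⟩ := mem_img.1 hpf
          exact mem_graph.2 ⟨mem_sUnion.2 ⟨_, mem_img.2 ⟨f, hf, rfl⟩, hy⟩, rfl⟩
      have hgM : graph R d ∈ M := by
        rw [hgr]
        exact hM.union _ hSM
      have hext_sub : ext x ⊆ d := by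
        intro y hy
        obtain ⟨f, hf, h2, h3⟩ := h1 y hy
        exact mem_sUnion.2 ⟨dom f, mem_img.2 ⟨f, mem_sep.2 ⟨hf, h2⟩, rfl⟩, h3⟩
      have hgx : graph R (ext x) ∈ M := by
        rw [← restr_graph hext_sub]
        have : Dfn M (fun p : ZFSet.{0} × ZFSet.{0} => restr p.1 p.2) := by fun_prop
        exact inM_zf.1 (this.1 (graph R d, ext x) (by simp [hgM, hextx]))
      have hRx : R x ∈ M := by
        rw [hR]
        exact inM_zf.1 (hF.1 (x, graph R (ext x)) (by simp [hxM, hgx]))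
      have hd'M : insert x d ∈ M := by
        have : Dfn M (fun p : ZFSet.{0} × ZFSet.{0} => insert p.1 p.2) := by fun_prop
        exact inM_zf.1 (this.1 (x, d) (by simp [hxM, hdM]))
      have hg' : graph R (insert x d) = insert (pair x (R x)) (graph R d) := by
        ext p
        rw [mem_insert_iff]
        constructor
        · intro hp
          obtain ⟨y, hy, rfl⟩ := mem_img.1 hp
          rcases mem_insert_iff.1 hy with rfl | hy
          · exact Or.inl rfl
          · exact Or.inr (mem_graph.2 ⟨hy, rfl⟩)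
        · rintro (rfl | hp)
          · exact mem_graph.2 ⟨mem_insert _ _, rfl⟩
          · obtain ⟨y, hy, rfl⟩ := mem_img.1 hp
            exact mem_graph.2 ⟨mem_insert_of_mem _ hy, rfl⟩
      have hg'M : graph R (insert x d) ∈ M := by
        rw [hg']
        have : Dfn M (fun p : ZFSet.{0} × ZFSet.{0} × ZFSet.{0} =>
          insert (pair p.1 p.2.1) p.2.2) := by fun_prop
        exact inM_zf.1 (this.1 (x, R x, graph R d) (by simp [hxM, hRx, hgM]))
      refine ⟨_, hg'M, _, hd'M, att_graph hR ?_, mem_insert _ _⟩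
      intro y hy
      rcases mem_insert_iff.1 hy with rfl | hy
      · exact fun z hz => mem_insert_of_mem _ (hext_sub hz)
      · exact fun z hz => mem_insert_of_mem _ (hclosed y hy hz)
  intro x hx
  exact main x.rank x hx rfl

/-- the recursion theorem in `M` -/
theorem dfn_rec {F : ZFSet.{0} × ZFSet.{0} → ZFSet.{0}} {ext : ZFSet.{0} → ZFSet.{0}}
    (hF : Dfn M F) (hext : Dfn M ext)
    (hr : ∀ x, ∀ y ∈ ext x, y.rank < x.rank) {R : ZFSet.{0} → ZFSet.{0}}
    (hR : ∀ x, R x = F (x, graph R (ext x))) : Dfn M R := by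
  have h1 := exists_att hF hext hr hR
  refine dfn_zf.2 ⟨fun x hx => ?_, ?_⟩
  · obtain ⟨f, hf, d, hd, h2, h3⟩ := h1 x (inM_zf.1 hx)
    rw [h2.eq_graph hr hR] at hf
    exact trans_mem hf (y := graph R d) (x := pair x (R x)) (mem_graph.2 ⟨h3, rfl⟩) |>
      fun h => trans_mem (trans_mem h (y := pair x (R x)) (x := {x, R x}) (by simp [pair]))
        (x := R x) (by simp)
  · have hA := dfn_Att hF hext
    have h4 : Dfn M (fun p : ZFSet.{0} × ZFSet.{0} =>
        MEx M (fun f => MEx M (fun d => Att F ext f d ∧ pair p.2 p.1 ∈ f))) := by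
      refine dfn_MEx (dfn_MEx (dfn_and ?_ (by fun_prop)))
      exact dfn_comp (f := fun q : ZFSet.{0} × ZFSet.{0} × ZFSet.{0} × ZFSet.{0} => (q.2.1, q.1))
        hA (by fun_prop)
    refine (dfn_dp.1 h4).congr fun p hp => ?_
    constructor
    · intro hp1
      obtain ⟨f, hf, d, hd, h2, h3⟩ := h1 p.2 (inM_zf.1 (inM_prod.1 hp).2)
      refine ⟨f, hf, d, hd, h2, ?_⟩
      rw [h2.eq_graph hr hR, mem_graph]
      exact ⟨h3, hp1⟩
    · rintro ⟨f, hf, d, hd, h2, h3⟩
      rw [h2.eq_graph hr hR, mem_graph] at h3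
      exact h3.2

end Pool.Agent.Work.MP_6efb98_lc
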